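import Pool.Agent.W960.Move
import Pool.Agent.W436.SpxFarkas

set_option autoImplicit false

/-!
# Comparison of optimal values
-/

namespace Pool.Agent.W960

open Pool.Agent.NPC Pool.Agent.H670R2 Matrix

section

variable {H : List (List ℤ)} {g : List ℤ} {n : ℕ}

/-- the column `q` of the rows with the indices `I`, applied to `y` -/
def col (H : List (List ℤ)) (I : List ℕ) (q : ℕ) (y : List ℝ) : ℝ :=
  dZ (I.map fun i => (row H i).getD q 0) y

theorem dZ_ext0 {L : ℕ} {r : List ℤ} {x y : List ℝ} (hr : r.length = x.length) :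
    dZ (ext0 L r) (x ++ y) = dZ r x := by
  unfold ext0
  rw [dZ_append hr, dZ_zero, add_zero]

theorem getD_zipWith_add {x y : List ℝ} (h : x.length = y.length) (j : ℕ) :
    (List.zipWith (fun s t => s + t) x y).getD j 0 = x.getD j 0 + y.getD j 0 := by
  simp only [List.getD_eq_getElem?_getD, List.getElem?_zipWith]
  rcases Nat.lt_or_ge j x.length with hj | hj
  · rw [List.getElem?_eq_getElem hj, List.getElem?_eq_getElem (h ▸ hj)]
    simp
  · rw [List.getElem?_eq_none hj, List.getElem?_eq_none (h ▸ hj)]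
    simp

/-- The conditions for the comparison system. -/
structure Cmp (H : List (List ℤ)) (g : List ℤ) (n : ℕ) (E K E' K' : List ℕ)
    (x y : List ℝ) : Prop where
  lx : x.length = n + 1
  ly : y.length = (E ++ K).length
  eq : ∀ i ∈ E', dZ (row H i) x = 0
  dual : ∀ q < n, col H (E ++ K) q y = ((g.getD q 0 : ℤ) : ℝ) * x.getD n 0
  t : 0 ≤ x.getD n 0
  gap : 0 ≤ dZ g x + col H (E ++ K) n y
  le : ∀ i ∈ K', dZ (row H i) x ≤ 0
  pos : ∀ l < K.length, 0 ≤ y.getD (E.length + l) 0

theorem map_map_row (I : List ℕ) (q : ℕ) : (I.map (row H)).map (fun r => r.getD q 0) =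
    I.map fun i => (row H i).getD q 0 := by
  rw [List.map_map]
  rfl

theorem cmpHF_iff (hy : Hyp) (h : WF H g n) {E K E' K' : List ℕ}
    (hE' : ∀ i ∈ E', i < H.length) (hK' : ∀ i ∈ K', i < H.length) (b : Bool) :
    cmpHF H g E K E' K' b = true ↔ ∃ x y, Cmp H g n E K E' K' x y ∧
      0 < if b then x.getD n 0 else dZ g x + col H (E ++ K) n y := by
  set R := (E ++ K).map (row H) with hR
  have hRl : R.length = (E ++ K).length := by simp [hR]
  set u := if b then ext0 R.length (eT g) else gapRow R g with hu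
  have hul : u.length = n + 1 + R.length := by
    rw [hu]
    cases b
    · simp [gapRow, h.g_len]
    · simp [ext0, length_eT, h.g_len]
  have hl1 : ∀ a ∈ E'.map (fun i => ext0 R.length (row H i)) ++ dualRows R g,
      a.length = u.length := by
    intro a ha
    rw [hul]
    rcases List.mem_append.1 ha with ha | ha
    · obtain ⟨i, hi, rfl⟩ := List.mem_map.1 ha
      simp [ext0, h.H_len i (hE' i hi)]
    · obtain ⟨q, -, rfl⟩ := List.mem_map.1 ha
      simp [length_eT, h.g_len]
  have hl2 : ∀ a ∈ smulL (-1) (ext0 R.length (eT g)) :: smulL (-1) (gapRow R g) ::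
      (K'.map (fun i => ext0 R.length (row H i)) ++ posRows g.length E.length K.length),
      a.length = u.length := by
    intro a ha
    rw [hul]
    rcases List.mem_cons.1 ha with rfl | ha
    · simp [ext0, length_eT, h.g_len]
    rcases List.mem_cons.1 ha with rfl | ha
    · simp [gapRow, h.g_len]
    rcases List.mem_append.1 ha with ha | ha
    · obtain ⟨i, hi, rfl⟩ := List.mem_map.1 ha
      simp [ext0, h.H_len i (hK' i hi)]
    · obtain ⟨l, -, rfl⟩ := List.mem_map.1 ha
      simp [h.g_len, hRl]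
  have hcmp : cmpHF H g E K E' K' b =
      (HF (E'.map (fun i => ext0 R.length (row H i)) ++ dualRows R g)
        (smulL (-1) (ext0 R.length (eT g)) :: smulL (-1) (gapRow R g) ::
        (K'.map (fun i => ext0 R.length (row H i)) ++ posRows g.length E.length K.length))
        u).isSome := rfl
  rw [hcmp, HF_iff hy hl1 hl2]
  -- evaluation of the rows
  have e1 : ∀ x y : List ℝ, x.length = n + 1 → ∀ i ∈ E' ++ K',
      dZ (ext0 R.length (row H i)) (x ++ y) = dZ (row H i) x := by
    intro x y hx i hi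
    refine dZ_ext0 ?_
    rw [hx]
    rcases List.mem_append.1 hi with hi | hi
    · exact h.H_len i (hE' i hi)
    · exact h.H_len i (hK' i hi)
  have e2 : ∀ x y : List ℝ, x.length = n + 1 → dZ (gapRow R g) (x ++ y) =
      dZ g x + col H (E ++ K) n y := by
    intro x y hx
    unfold gapRow col
    rw [dZ_append (by rw [h.g_len, hx]), h.g_len, hR, map_map_row]
    rfl
  have e3 : ∀ x y : List ℝ, x.length = n + 1 → dZ (ext0 R.length (eT g)) (x ++ y) =
      x.getD n 0 := by
    intro x y hx
    rw [dZ_ext0 (by rw [length_eT, h.g_len, hx]), dZ_eT h]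
  have e4 : ∀ x y : List ℝ, x.length = n + 1 → ∀ q,
      dZ (smulL (-(g.getD q 0)) (eT g) ++ R.map fun r => r.getD q 0) (x ++ y) =
      -((g.getD q 0 : ℤ) : ℝ) * x.getD n 0 + col H (E ++ K) q y := by
    intro x y hx q
    unfold col
    rw [dZ_append (by rw [length_smulL, length_eT, h.g_len, hx]), dZ_smulL, dZ_eT h, hR,
      map_map_row]
    push_cast
    rfl
  have e5 : ∀ x y : List ℝ, x.length = n + 1 → y.length = (E ++ K).length → ∀ l < K.length,
      dZ (List.replicate g.length 0 ++ smulL (-1) (eL (E.length + K.length) (E.length + l)))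
        (x ++ y) = -y.getD (E.length + l) 0 := by
    intro x y hx hyl l hl
    rw [dZ_append (by simp [h.g_len, hx]), dZ_zero, dZ_smulL, dZ_eL (by omega)]
    push_cast
    ring
  constructor
  · rintro ⟨z, hz1, hz2, hz3, hz4⟩
    rw [hul] at hz1
    obtain ⟨x, y, rfl, hx, hyl⟩ : ∃ x y, z = x ++ y ∧ x.length = n + 1 ∧ y.length = R.length :=
      ⟨z.take (n + 1), z.drop (n + 1), (List.take_append_drop _ _).symm, by simp; omega,
        by simp; omega⟩
    rw [hRl] at hyl
    refine ⟨x, y, ⟨hx, hyl, fun i hi => ?_, fun q hq => ?_, ?_, ?_, fun i hi => ?_,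
      fun l hl => ?_⟩, ?_⟩
    · rw [← e1 x y hx i (List.mem_append_left _ hi)]
      exact hz2 _ (List.mem_append_left _ (List.mem_map.2 ⟨i, hi, rfl⟩))
    · have := hz2 _ (List.mem_append_right _ (List.mem_map.2 ⟨q, List.mem_range.2 (by
        rw [h.g_len]; simpa using hq), rfl⟩))
      rw [e4 x y hx q] at this
      linarith
    · have := hz3 _ List.mem_cons_self
      rw [dZ_smulL, e3 x y hx] at this
      push_cast at this
      linarith
    · have := hz3 _ (List.mem_cons_of_mem _ List.mem_cons_self)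
      rw [dZ_smulL, e2 x y hx] at this
      push_cast at this
      linarith
    · rw [← e1 x y hx i (List.mem_append_right _ hi)]
      exact hz3 _ (List.mem_cons_of_mem _ (List.mem_cons_of_mem _ (List.mem_append_left _
        (List.mem_map.2 ⟨i, hi, rfl⟩))))
    · have := hz3 _ (List.mem_cons_of_mem _ (List.mem_cons_of_mem _ (List.mem_append_right _
        (List.mem_map.2 ⟨l, List.mem_range.2 hl, rfl⟩))))
      rw [e5 x y hx hyl l hl] at this
      linarith
    · rw [hu] at hz4
      cases b
      · simpa [e2 x y hx] using hz4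
      · simpa [e3 x y hx] using hz4
  · rintro ⟨x, y, hc, hpos⟩
    refine ⟨x ++ y, by rw [List.length_append, hc.lx, hc.ly, hul, hRl], fun a ha => ?_,
      fun a ha => ?_, ?_⟩
    · rcases List.mem_append.1 ha with ha | ha
      · obtain ⟨i, hi, rfl⟩ := List.mem_map.1 ha
        rw [e1 x y hc.lx i (List.mem_append_left _ hi)]
        exact hc.eq i hi
      · obtain ⟨q, hq, rfl⟩ := List.mem_map.1 ha
        rw [e4 x y hc.lx q, hc.dual q (by
          have := List.mem_range.1 hq
          rw [h.g_len] at this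
          simpa using this)]
        ring
    · rcases List.mem_cons.1 ha with rfl | ha
      · rw [dZ_smulL, e3 x y hc.lx]
        push_cast
        linarith [hc.t]
      rcases List.mem_cons.1 ha with rfl | ha
      · rw [dZ_smulL, e2 x y hc.lx]
        push_cast
        linarith [hc.gap]
      rcases List.mem_append.1 ha with ha | ha
      · obtain ⟨i, hi, rfl⟩ := List.mem_map.1 ha
        rw [e1 x y hc.lx i (List.mem_append_right _ hi)]
        exact hc.le i hi
      · obtain ⟨l, hl, rfl⟩ := List.mem_map.1 ha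
        rw [e5 x y hc.lx hc.ly l (List.mem_range.1 hl)]
        linarith [hc.pos l (List.mem_range.1 hl)]
    · rw [hu]
      cases b
      · simpa [e2 x y hc.lx] using hpos
      · simpa [e3 x y hc.lx] using hpos

theorem Cmp.add {E K E' K' : List ℕ} {x y x' y' : List ℝ} (h1 : Cmp H g n E K E' K' x y)
    (h2 : Cmp H g n E K E' K' x' y') : Cmp H g n E K E' K'
      (List.zipWith (fun s t => s + t) x x') (List.zipWith (fun s t => s + t) y y') := by
  have lx : x.length = x'.length := by rw [h1.lx, h2.lx]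
  have ly : y.length = y'.length := by rw [h1.ly, h2.ly]
  refine ⟨by simp [h1.lx, h2.lx], by rw [List.length_zipWith, h1.ly, h2.ly, min_self],
    fun i hi => ?_, fun q hq => ?_, ?_, ?_, fun i hi => ?_, fun l hl => ?_⟩
  · rw [dZ_add _ lx, h1.eq i hi, h2.eq i hi, add_zero]
  · have e1 := h1.dual q hq
    have e2 := h2.dual q hq
    unfold col at e1 e2 ⊢
    rw [dZ_add _ ly, e1, e2, getD_zipWith_add lx]
    ring
  · rw [getD_zipWith_add lx]
    linarith [h1.t, h2.t]
  · have e1 := h1.gap
    have e2 := h2.gap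
    unfold col at e1 e2 ⊢
    rw [dZ_add _ lx, dZ_add _ ly]
    linarith
  · rw [dZ_add _ lx]
    linarith [h1.le i hi, h2.le i hi]
  · rw [getD_zipWith_add ly]
    linarith [h1.pos l hl, h2.pos l hl]

theorem feasF_iff (hy : Hyp) (h : WF H g n) {E K : List ℕ} (hE : ∀ i ∈ E, i < H.length)
    (hK : ∀ i ∈ K, i < H.length) :
    feasF H g E K = true ↔ (Q (aR H n) (bR H n) E K).Nonempty := by
  unfold feasF
  rw [HF_iff hy (by rw [length_eT]; exact map_row_length h hE)
    (by rw [length_eT]; exact map_row_length h hK)]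
  constructor
  · rintro ⟨x, h1, h2, h3, h4⟩
    rw [dZ_eT h] at h4
    refine ⟨(x.getD n 0)⁻¹ • fun j : Fin n => x.getD j 0, fun i hi => ?_, fun i hi => ?_⟩
    · have := h2 _ (List.mem_map_of_mem hi)
      rw [dZ_row' h (hE i hi)] at this
      rw [dotProduct_smul, smul_eq_mul, inv_mul_eq_div, div_eq_iff h4.ne']
      linarith
    · have := h3 _ (List.mem_map_of_mem hi)
      rw [dZ_row' h (hK i hi)] at this
      rw [dotProduct_smul, smul_eq_mul, inv_mul_eq_div, div_le_iff₀ h4]
      linarith
  · rintro ⟨x, hx1, hx2⟩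
    refine ⟨lst x 1, by simp [length_eT, h.g_len], fun a ha => ?_, fun a ha => ?_, ?_⟩
    · obtain ⟨i, hi, rfl⟩ := List.mem_map.1 ha
      rw [dZ_row h (hE i hi), hx1 i hi]
      ring
    · obtain ⟨i, hi, rfl⟩ := List.mem_map.1 ha
      rw [dZ_row h (hK i hi)]
      linarith [hx2 i hi]
    · rw [dZ_eT h, lst_getD_last]
      exact one_pos

theorem col_eq (I : List ℕ) (q : ℕ) (y : List ℝ) : col H I q y =
    ∑ l : Fin I.length, ((((row H (I.get l)).getD q 0 : ℤ) : ℝ)) * y.getD l 0 := by
  unfold col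
  rw [dZ_fin (k := I.length) (by simp)]
  refine Finset.sum_congr rfl fun l _ => ?_
  congr 2
  simp [List.getD_eq_getElem?_getD]

/-- Weak duality. -/
theorem weak_dual (_h : WF H g n) {E K E' K' : List ℕ} {x y : List ℝ}
    (hc : Cmp H g n E K E' K' x y) {z : Fin n → ℝ} (hz : z ∈ Q (aR H n) (bR H n) E K) :
    x.getD n 0 * (cR g n ⬝ᵥ z) ≤ -col H (E ++ K) n y := by
  have h1 : x.getD n 0 * (cR g n ⬝ᵥ z) =
      ∑ l : Fin (E ++ K).length, y.getD l 0 * (aR H n ((E ++ K).get l) ⬝ᵥ z) := by
    calc x.getD n 0 * (cR g n ⬝ᵥ z) = ∑ q : Fin n, (col H (E ++ K) q y) * z q := by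
          rw [dotProduct, Finset.mul_sum]
          refine Finset.sum_congr rfl fun q _ => ?_
          rw [hc.dual q q.2]
          simp only [cR]
          ring
      _ = ∑ q : Fin n, ∑ l : Fin (E ++ K).length,
            y.getD l 0 * (aR H n ((E ++ K).get l) q * z q) := by
          refine Finset.sum_congr rfl fun q _ => ?_
          rw [col_eq, Finset.sum_mul]
          refine Finset.sum_congr rfl fun l _ => ?_
          simp only [aR]
          ring
      _ = _ := by
          rw [Finset.sum_comm]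
          refine Finset.sum_congr rfl fun l _ => ?_
          rw [dotProduct, Finset.mul_sum]
  have h2 : -col H (E ++ K) n y =
      ∑ l : Fin (E ++ K).length, y.getD l 0 * bR H n ((E ++ K).get l) := by
    rw [col_eq, ← Finset.sum_neg_distrib]
    refine Finset.sum_congr rfl fun l _ => ?_
    simp only [bR]
    ring
  rw [h1, h2]
  refine Finset.sum_le_sum fun l _ => ?_
  rcases Nat.lt_or_ge l E.length with hl | hl
  · have h3 : (E ++ K).get l ∈ E := by
      rw [List.get_eq_getElem, List.getElem_append_left hl]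
      exact List.getElem_mem _
    rw [hz.1 _ h3]
  · have hlt : (l : ℕ) < E.length + K.length := by
      have := l.2
      simpa using this
    have h3 : (E ++ K).get l ∈ K := by
      rw [List.get_eq_getElem, List.getElem_append_right hl]
      exact List.getElem_mem _
    have h4 := hc.pos (l - E.length) (by omega)
    rw [show E.length + (l - E.length) = (l : ℕ) by omega] at h4
    exact mul_le_mul_of_nonneg_left (hz.2 _ h3) h4

theorem cmp_sound (hy : Hyp) (h : WF H g n) {E K E' K' : List ℕ}
    (hE' : ∀ i ∈ E', i < H.length) (hK' : ∀ i ∈ K', i < H.length)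
    (h1 : cmpHF H g E K E' K' true = true) (h2 : cmpHF H g E K E' K' false = true) :
    ∃ z ∈ Q (aR H n) (bR H n) E' K', ∃ M : ℝ, M < cR g n ⬝ᵥ z ∧
      ∀ x ∈ Q (aR H n) (bR H n) E K, cR g n ⬝ᵥ x ≤ M := by
  obtain ⟨x1, y1, hc1, hp1⟩ := (cmpHF_iff hy h hE' hK' true).1 h1
  obtain ⟨x2, y2, hc2, hp2⟩ := (cmpHF_iff hy h hE' hK' false).1 h2
  have hc := hc1.add hc2
  set x := List.zipWith (fun s t => s + t) x1 x2 with hx
  set y := List.zipWith (fun s t => s + t) y1 y2 with hyy
  simp only [if_true, Bool.false_eq_true, if_false] at hp1 hp2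
  have ht : 0 < x.getD n 0 := by
    rw [hx, getD_zipWith_add (by rw [hc1.lx, hc2.lx])]
    linarith [hc2.t]
  have hgap : 0 < dZ g x + col H (E ++ K) n y := by
    have e1 := hc1.gap
    unfold col at e1 hp2 ⊢
    rw [hx, hyy, dZ_add _ (by rw [hc1.lx, hc2.lx]), dZ_add _ (by rw [hc1.ly, hc2.ly])]
    linarith
  rw [dZ_g' h] at hgap
  refine ⟨(x.getD n 0)⁻¹ • fun j : Fin n => x.getD j 0, ⟨fun i hi => ?_, fun i hi => ?_⟩,
    (x.getD n 0)⁻¹ * -col H (E ++ K) n y, ?_, fun z hz => ?_⟩
  · have := hc.eq i hi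
    rw [dZ_row' h (hE' i hi)] at this
    rw [dotProduct_smul, smul_eq_mul, inv_mul_eq_div, div_eq_iff ht.ne']
    linarith
  · have := hc.le i hi
    rw [dZ_row' h (hK' i hi)] at this
    rw [dotProduct_smul, smul_eq_mul, inv_mul_eq_div, div_le_iff₀ ht]
    linarith
  · rw [dotProduct_smul, smul_eq_mul]
    exact mul_lt_mul_of_pos_left (by linarith) (inv_pos.2 ht)
  · have := weak_dual h hc hz
    rw [inv_mul_eq_div, le_div_iff₀ ht]
    linarith

theorem cmp_complete (hy : Hyp) (h : WF H g n) {E K E' K' : List ℕ}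
    (hE : ∀ i ∈ E, i < H.length) (hK : ∀ i ∈ K, i < H.length)
    (hE' : ∀ i ∈ E', i < H.length) (hK' : ∀ i ∈ K', i < H.length)
    (hne : (Q (aR H n) (bR H n) E K).Nonempty) {z : Fin n → ℝ}
    (hz : z ∈ Q (aR H n) (bR H n) E' K') {M : ℝ} (hM : M < cR g n ⬝ᵥ z)
    (hb : ∀ x ∈ Q (aR H n) (bR H n) E K, cR g n ⬝ᵥ x ≤ M) (b : Bool) :
    cmpHF H g E K E' K' b = true := by
  classical
  set A : Fin E.length → Fin (n + 1) → ℝ :=
    fun l j => (((row H (E.get l)).getD j 0 : ℤ) : ℝ) with hA
  set B : Option (Fin K.length) → Fin (n + 1) → ℝ := fun o => match o with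
    | none => fun j => if j = Fin.last n then -1 else 0
    | some l => fun j => (((row H (K.get l)).getD j 0 : ℤ) : ℝ) with hB
  set u : Fin (n + 1) → ℝ := fun j => if j = Fin.last n then -M else ((g.getD j 0 : ℤ) : ℝ)
    with hu
  have hrow : ∀ i < H.length, ∀ x : Fin (n + 1) → ℝ,
      (fun j : Fin (n + 1) => (((row H i).getD j 0 : ℤ) : ℝ)) ⬝ᵥ x =
        aR H n i ⬝ᵥ (fun j => x j.castSucc) - bR H n i * x (Fin.last n) := by
    intro i hi x
    rw [dotProduct, Fin.sum_univ_castSucc]
    simp only [Fin.val_castSucc, Fin.val_last, aR, bR, dotProduct]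
    ring
  have hnot : ¬ ∃ x : Fin (n + 1) → ℝ, (∀ l, A l ⬝ᵥ x = 0) ∧ (∀ o, B o ⬝ᵥ x ≤ 0) ∧
      0 < u ⬝ᵥ x := by
    rintro ⟨x, hx1, hx2, hx3⟩
    set x' : Fin n → ℝ := fun j => x j.castSucc with hx'
    set t := x (Fin.last n) with ht
    have ht0 : 0 ≤ t := by
      have := hx2 none
      rw [hB] at this
      simp only [dotProduct] at this
      rw [Finset.sum_eq_single (Fin.last n) (fun j _ hj => by rw [if_neg hj, zero_mul])
        (by simp)] at this
      rw [if_pos rfl] at this
      linarith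
    have h1 : ∀ i ∈ E, aR H n i ⬝ᵥ x' = bR H n i * t := by
      intro i hi
      obtain ⟨l, hl⟩ := List.get_of_mem hi
      have h2 := hx1 l
      rw [hA] at h2
      simp only at h2
      rw [hrow _ (hE _ (List.get_mem _ _)), hl] at h2
      linarith
    have h2 : ∀ i ∈ K, aR H n i ⬝ᵥ x' ≤ bR H n i * t := by
      intro i hi
      obtain ⟨l, hl⟩ := List.get_of_mem hi
      have h3 := hx2 (some l)
      rw [hB] at h3
      simp only at h3
      rw [hrow _ (hK _ (List.get_mem _ _)), hl] at h3
      linarith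
    have h3 : 0 < cR g n ⬝ᵥ x' - M * t := by
      rw [hu, dotProduct, Fin.sum_univ_castSucc] at hx3
      have h4 : ∀ j : Fin n, (if j.castSucc = Fin.last n then -M else
          ((g.getD (j.castSucc : Fin (n + 1)) 0 : ℤ) : ℝ)) = cR g n j := by
        intro j
        rw [if_neg (Fin.castSucc_lt_last j).ne]
        rfl
      simp only [h4, if_true] at hx3
      have h5 : cR g n ⬝ᵥ x' = ∑ j : Fin n, cR g n j * x j.castSucc := rfl
      rw [h5]
      linarith
    rcases ht0.lt_or_eq with ht1 | ht1
    · have h4 := hb (t⁻¹ • x') ⟨fun i hi => ?_, fun i hi => ?_⟩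
      · rw [dotProduct_smul, smul_eq_mul, inv_mul_eq_div, div_le_iff₀ ht1] at h4
        linarith
      · rw [dotProduct_smul, smul_eq_mul, inv_mul_eq_div, div_eq_iff ht1.ne']
        exact h1 i hi
      · rw [dotProduct_smul, smul_eq_mul, inv_mul_eq_div, div_le_iff₀ ht1]
        exact h2 i hi
    · obtain ⟨w, hw⟩ := hne
      rw [← ht1] at h1 h2 h3
      simp only [mul_zero, sub_zero] at h1 h2 h3
      set s : ℝ := (M - cR g n ⬝ᵥ w) / (cR g n ⬝ᵥ x') + 1 with hs
      have hs0 : 0 ≤ s := by
        have := div_nonneg (by linarith [hb w hw] : 0 ≤ M - cR g n ⬝ᵥ w) h3.le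
        linarith
      have h4 := hb (w + s • x') ⟨fun i hi => ?_, fun i hi => ?_⟩
      · rw [dotProduct_add, dotProduct_smul, smul_eq_mul, hs] at h4
        have h5 : ((M - cR g n ⬝ᵥ w) / (cR g n ⬝ᵥ x') + 1) * (cR g n ⬝ᵥ x') =
            (M - cR g n ⬝ᵥ w) + cR g n ⬝ᵥ x' := by
          field_simp
        rw [h5] at h4
        linarith
      · rw [dotProduct_add, dotProduct_smul, h1 i hi, hw.1 i hi]
        simp
      · rw [dotProduct_add, dotProduct_smul, smul_eq_mul]
        have := mul_nonpos_of_nonneg_of_nonpos hs0 (h2 i hi)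
        linarith [hw.2 i hi]
  obtain ⟨yE, zK, hzK, huv⟩ := Pool.Agent.W436.farkas A B u hnot
  set Y : List ℝ := List.ofFn yE ++ List.ofFn (fun l => zK (some l)) with hY
  have hcol : ∀ j : Fin (n + 1), col H (E ++ K) j Y =
      u j + (if j = Fin.last n then zK none else 0) := by
    intro j
    have h1 : col H (E ++ K) j Y = ∑ l, yE l * A l j + ∑ l, zK (some l) * B (some l) j := by
      unfold col
      rw [List.map_append, hY, dZ_append (by simp), dZ_fin (k := E.length) (by simp),
        dZ_fin (k := K.length) (by simp)]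
      congr 1
      · refine Finset.sum_congr rfl fun l _ => ?_
        simp [hA, List.getD_eq_getElem?_getD, mul_comm]
      · refine Finset.sum_congr rfl fun l _ => ?_
        simp [hB, List.getD_eq_getElem?_getD, mul_comm]
    have h2 : u j = ∑ l, yE l * A l j + (zK none * B none j + ∑ l, zK (some l) * B (some l) j) := by
      have := congrFun huv j
      rw [this]
      simp only [Pi.add_apply, Finset.sum_apply, Pi.smul_apply, smul_eq_mul]
      rw [Fintype.sum_option]
    have h3 : zK none * B none j = -(if j = Fin.last n then zK none else 0) := by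
      rw [hB]
      simp only
      split_ifs <;> simp
    rw [h1, h2, h3]
    ring
  rw [cmpHF_iff hy h hE' hK']
  have hgap : 0 < dZ g (lst z 1) + col H (E ++ K) n Y := by
    have h1 := hcol (Fin.last n)
    rw [if_pos rfl] at h1
    simp only [Fin.val_last] at h1
    rw [h1, hu, dZ_g h]
    simp only [if_true]
    linarith [hzK none]
  refine ⟨lst z 1, Y, ⟨length_lst _ _, by simp [hY], fun i hi => ?_, fun q hq => ?_, ?_,
    hgap.le, fun i hi => ?_, fun l hl => ?_⟩, ?_⟩
  · rw [dZ_row h (hE' i hi), hz.1 i hi]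
    ring
  · have h1 := hcol ⟨q, by omega⟩
    have h2 : (⟨q, by omega⟩ : Fin (n + 1)) ≠ Fin.last n := by
      intro h3
      have := congrArg Fin.val h3
      simp at this
      omega
    rw [if_neg h2, add_zero] at h1
    simp only at h1
    rw [h1, hu, lst_getD_last]
    simp only [h2, if_false, mul_one]
  · rw [lst_getD_last]
    exact zero_le_one
  · rw [dZ_row h (hK' i hi)]
    linarith [hz.2 i hi]
  · have : Y.getD (E.length + l) 0 = zK (some ⟨l, hl⟩) := by
      rw [hY, List.getD_eq_getElem?_getD, List.getElem?_append_right (by simp)]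
      simp [hl]
    rw [this]
    exact hzK _
  · cases b
    · simpa using hgap
    · simp only [if_true]
      rw [lst_getD_last]
      exact one_pos

theorem val_empty {a : ℕ → Fin n → ℝ} {b : ℕ → ℝ} {c : Fin n → ℝ} {E K : List ℕ}
    (h : ¬ (Q a b E K).Nonempty) : val a b c E K = ⊥ := by
  unfold val
  rw [Set.not_nonempty_iff_eq_empty.1 h]
  simp

theorem lessF_iff (hy : Hyp) (h : WF H g n) {E K E' K' : List ℕ}
    (hE : ∀ i ∈ E, i < H.length) (hK : ∀ i ∈ K, i < H.length)
    (hE' : ∀ i ∈ E', i < H.length) (hK' : ∀ i ∈ K', i < H.length) :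
    lessF H g E K E' K' = true ↔
      val (aR H n) (bR H n) (cR g n) E K < val (aR H n) (bR H n) (cR g n) E' K' := by
  unfold lessF
  rw [Bool.and_eq_true, Bool.or_eq_true, Bool.and_eq_true, Bool.not_eq_true',
    feasF_iff hy h hE' hK', Bool.eq_false_iff, Ne, feasF_iff hy h hE hK]
  constructor
  · rintro ⟨hne', h1 | ⟨h1, h2⟩⟩
    · rw [val_empty h1]
      obtain ⟨x, hx⟩ := hne'
      exact lt_of_lt_of_le (EReal.bot_lt_coe _) (le_val hx)
    · obtain ⟨z, hz, M, hM, hb⟩ := cmp_sound hy h hE' hK' h1 h2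
      refine lt_of_le_of_lt (iSup₂_le fun x hx => ?_ : _ ≤ ((M : ℝ) : EReal))
        (lt_of_lt_of_le (EReal.coe_lt_coe_iff.2 hM) (le_val hz))
      exact EReal.coe_le_coe_iff.2 (hb x hx)
  · intro hlt
    have hne' : (Q (aR H n) (bR H n) E' K').Nonempty := by
      by_contra hc
      rw [val_empty hc] at hlt
      exact absurd hlt (not_lt_bot)
    refine ⟨hne', ?_⟩
    by_cases hne : (Q (aR H n) (bR H n) E K).Nonempty
    · right
      have hlt2 := hlt
      conv_rhs at hlt2 => unfold val
      rw [lt_iSup_iff] at hlt2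
      obtain ⟨z, hz⟩ := hlt2
      rw [lt_iSup_iff] at hz
      obtain ⟨hz1, hz2⟩ := hz
      obtain ⟨M, hM1, hM2⟩ := EReal.lt_iff_exists_real_btwn.1 hz2
      have hb : ∀ x ∈ Q (aR H n) (bR H n) E K, cR g n ⬝ᵥ x ≤ M := by
        intro x hx
        exact EReal.coe_le_coe_iff.1 ((le_val hx).trans hM1.le)
      have hM : M < cR g n ⬝ᵥ z := EReal.coe_lt_coe_iff.1 hM2
      exact ⟨cmp_complete hy h hE hK hE' hK' hne hz1 hM hb true,
        cmp_complete hy h hE hK hE' hK' hne hz1 hM hb false⟩
    · exact Or.inl hne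

/-- The functions satisfy the specification. -/
theorem spec_fns (hy : Hyp) (h : WF H g n) :
    Spec (fns H g) (pos n) (ok n) (aR H n) (bR H n) (cR g n) H.length where
  tight := fun p i hp hi => tightF_iff h hi hp
  top := fun E K p hp hE hK hv => topF_iff hy h hp hE hK hv.1
  lt := fun E K i j hE hK hi hj => lessF_iff hy h
    (fun l hl => by
      rcases List.mem_cons.1 hl with rfl | hl
      · exact hK _ hi
      · exact hE l hl)
    (fun l hl => hK l (List.mem_filter.1 hl).1)
    (fun l hl => by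
      rcases List.mem_cons.1 hl with rfl | hl
      · exact hK _ hj
      · exact hE l hl)
    (fun l hl => hK l (List.mem_filter.1 hl).1)
  move_none := fun E K W p hp hE hK hW hv hst hnt hn =>
    (moveF_none hy h hp hE hK hW hv hst hnt).1 hn
  move_some := fun E K W p p' hp hE hK hW hv hst hnt hs =>
    (moveF_none hy h hp hE hK hW hv hst hnt).2 p' hs

end

end Pool.Agent.W960
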