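import Pool.Agent.W960.Conv

set_option autoImplicit false

/-!
# The states of the machine stay small
-/

namespace Pool.Agent.W960

open Pool.Agent.NPC Pool.Agent.H670R2

/-- items with small entries -/
structure IOk (N : ℕ) (it : Item) : Prop where
  kind : it.1 ≤ 2
  e : ∀ i ∈ it.2.1, i < N
  k : ∀ i ∈ it.2.2.1, i < N
  w : ∀ i ∈ it.2.2.2.1, i < N
  len : it.2.1.length + it.2.2.1.length + it.2.2.2.1.length ≤ N
  last : it.2.2.2.2 ≤ N

/-- the invariant -/
structure SInv (N B m : ℕ) (s : List (List ℤ) × List Item) : Prop where
  pts : ∀ p ∈ s.1, sz p ≤ B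
  lp : s.1.length ≤ m + 1
  items : ∀ it ∈ s.2, IOk N it
  ls : s.2.length ≤ m + 1

theorem filter_split {α : Type} (l : List α) (p : α → Bool) :
    (l.filter fun x => !p x).length + (l.filter p).length = l.length := by
  induction l with
  | nil => simp
  | cons x l ih =>
    cases h : p x <;> simp [h] <;> omega

theorem filter_ne_length {l : List ℕ} {i : ℕ} (hi : i ∈ l) :
    (l.filter fun j => decide (j ≠ i)).length + 1 ≤ l.length := by
  induction l with
  | nil => simp at hi
  | cons x l ih =>
    by_cases h : x = i
    · subst h
      have := List.length_filter_le (fun j => decide (j ≠ x)) l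
      simp at this ⊢
      omega
    · have hi' : i ∈ l := by
        rcases List.mem_cons.1 hi with h1 | h1
        · exact absurd h1.symm h
        · exact h1
      have := ih hi'
      simp [h] at this ⊢
      omega

section

variable {F : Fns (List ℤ)} {N B m : ℕ}

theorem SInv.mk' {p : List ℤ} {ps : List (List ℤ)} {r : List Item}
    (h1 : ∀ q ∈ p :: ps, sz q ≤ B) (h2 : (p :: ps).length ≤ m + 1) (h3 : ∀ it ∈ r, IOk N it)
    (h4 : r.length ≤ m) (new : List Item) (h5 : ∀ it ∈ new, IOk N it) (h6 : new.length ≤ 2) :
    SInv N B (m + 1) (p :: ps, new ++ r) :=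
  ⟨h1, by simp at h2 ⊢; omega, fun it hit => by
    rcases List.mem_append.1 hit with h | h
    · exact h5 it h
    · exact h3 it h, by rw [List.length_append]; omega⟩

theorem SInv.step (hF : ∀ E K W p p', F.move E K W p = some p' → sz p' ≤ B)
    {s : List (List ℤ) × List Item} (h : SInv N B m s) : SInv N B (m + 1) (step F s) := by
  obtain ⟨l, st⟩ := s
  cases st with
  | nil =>
    have : W960.step F (l, []) = (l, []) := rfl
    rw [this]
    exact ⟨h.pts, by have := h.lp; simp at this ⊢; omega, h.items,
      by have := h.ls; simp at this ⊢⟩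
  | cons it r =>
    cases l with
    | nil =>
      have : W960.step F ([], it :: r) = ([], it :: r) := rfl
      rw [this]
      exact ⟨h.pts, by simp, h.items, by have := h.ls; simp at this ⊢; omega⟩
    | cons p ps =>
      have hit : IOk N it := h.items it List.mem_cons_self
      have h1 := h.pts
      have h2 := h.lp
      have h3 : ∀ it ∈ r, IOk N it := fun it' h' => h.items it' (List.mem_cons_of_mem _ h')
      have h4 : r.length ≤ m := by
        have := h.ls
        simpa using this
      simp only at h1 h2
      obtain ⟨kd, E, K, W, i0⟩ := it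
      obtain ⟨a1, a2, a3, a4, a5, a6⟩ := hit
      simp only at a1 a2 a3 a4 a5 a6
      have key := fun new h5 h6 => SInv.mk' (N := N) (B := B) (m := m) (p := p) (ps := ps)
        (r := r) h1 h2 h3 h4 new h5 h6
      have hI1 : ∀ kd' ≤ 2, ∀ i' ≤ N, IOk N (kd', E, K, W, i') := fun kd' hk i' hi' =>
        ⟨hk, a2, a3, a4, a5, hi'⟩
      have hstep : W960.step F (p :: ps, (kd, E, K, W, i0) :: r) =
          if kd = 0 then callStep F p ps E K W r
          else if kd = 1 then midStep F p ps E K W r
          else endStep F p ps E K W i0 r := rfl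
      rw [hstep]
      split_ifs
      · unfold callStep
        split_ifs
        · exact key [] (by simp) (by simp)
        · refine key [(1, E, K, W, 0)] ?_ (by simp)
          intro it hit
          rw [List.mem_singleton] at hit
          subst hit
          exact hI1 1 (by norm_num) 0 (by omega)
        · refine key [(0, E, K.filter (fun i => !isUp F E K i), W ++ K.filter (isUp F E K), 0),
            (1, E, K, W, 0)] ?_ (by simp)
          intro it hit
          rcases List.mem_cons.1 hit with rfl | hit
          · refine ⟨by simp, a2, fun i hi => a3 i (List.mem_filter.1 hi).1, fun i hi => ?_, ?_,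
              by simp⟩
            · rcases List.mem_append.1 hi with hi | hi
              · exact a4 i hi
              · exact a3 i (List.mem_filter.1 hi).1
            · have := filter_split K (isUp F E K)
              simp only [List.length_append]
              omega
          · rw [List.mem_singleton] at hit
            subst hit
            exact hI1 1 (by norm_num) 0 (by omega)
      · unfold midStep
        split_ifs
        · exact key [] (by simp) (by simp)
        · split
          · exact key [] (by simp) (by simp)
          · rename_i i hi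
            have hiK : i ∈ K := (List.mem_filter.1 (List.mem_of_find?_eq_some hi)).1
            refine key [(0, i :: E, K.filter (fun j => decide (j ≠ i)), W, 0),
              (2, E, K, W, i)] ?_ (by simp)
            intro it hit
            rcases List.mem_cons.1 hit with rfl | hit
            · refine ⟨by simp, fun j hj => ?_, fun j hj => a3 j (List.mem_filter.1 hj).1, a4, ?_,
                by simp⟩
              · rcases List.mem_cons.1 hj with rfl | hj
                · exact a3 _ hiK
                · exact a2 j hj
              · have := filter_ne_length hiK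
                simp only [List.length_cons]
                omega
            · rw [List.mem_singleton] at hit
              subst hit
              exact hI1 2 (by norm_num) i (a3 i hiK).le
      · unfold endStep
        split_ifs
        · exact key [] (by simp) (by simp)
        · exact key [] (by simp) (by simp)
        · split
          · exact ⟨h1, by simp at h2 ⊢; omega, by simp, by simp⟩
          · rename_i p' hp'
            have hp2 := hF _ _ _ _ _ hp'
            have hpts : ∀ q ∈ p' :: p :: ps, sz q ≤ B := by
              intro q hq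
              rcases List.mem_cons.1 hq with rfl | hq
              · exact hp2
              · exact h1 q hq
            have hl : (p' :: p :: ps).length ≤ m + 1 + 1 := by
              simp at h2 ⊢
              omega
            split_ifs
            · exact ⟨hpts, hl, h3, by simp only; omega⟩
            · refine ⟨hpts, hl, fun it hit => ?_, by simp; omega⟩
              rcases List.mem_cons.1 hit with rfl | hit
              · refine ⟨by simp, a2, fun j hj => a3 j (List.mem_filter.1 hj).1, a4, ?_, by simp⟩
                have := List.length_filter_le (fun j => F.lt E K i0 j) K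
                simp only
                omega
              · exact h3 it hit

end

/-- numbers below `N` are short -/
theorem sz_le_of_le {n N : ℕ} (h : n ≤ N) : sz n ≤ 4 * N + 1 := by
  have h1 := sz_nat_le n
  have h2 : n.size ≤ n := Nat.size_le.2 Nat.lt_two_pow_self
  omega

theorem sz_list_of_lt {l : List ℕ} {N : ℕ} (h : ∀ i ∈ l, i < N) (hl : l.length ≤ N) :
    sz l ≤ N * (4 * N + 2) + 1 := by
  have h1 := sz_le_length_mul l (4 * N + 1) fun i hi => sz_le_of_le (h i hi).le
  have h2 : l.length * (4 * N + 1 + 1) ≤ N * (4 * N + 2) := Nat.mul_le_mul hl (by omega)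
  omega

theorem sz_item {N : ℕ} {it : Item} (h : IOk N it) :
    sz it ≤ 3 * (N * (4 * N + 2) + 1) + 4 * N + 20 := by
  obtain ⟨kd, E, K, W, i0⟩ := it
  obtain ⟨a1, a2, a3, a4, a5, a6⟩ := h
  simp only at a1 a2 a3 a4 a5 a6
  rw [sz_pair, sz_pair, sz_pair, sz_pair]
  have h1 := sz_le_of_le a1
  have h2 := sz_list_of_lt a2 (by omega)
  have h3 := sz_list_of_lt a3 (by omega)
  have h4 := sz_list_of_lt a4 (by omega)
  have h5 := sz_le_of_le a6
  omega

theorem sz_sinv {N B m : ℕ} {s : List (List ℤ) × List Item} (h : SInv N B m s) :
    sz s ≤ (m + 1) * (B + 1 + (3 * (N * (4 * N + 2) + 1) + 4 * N + 21)) + 3 := by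
  obtain ⟨ps, st⟩ := s
  rw [sz_pair]
  have h1 := sz_le_length_mul ps B h.pts
  have h2 := sz_le_length_mul st (3 * (N * (4 * N + 2) + 1) + 4 * N + 20) fun it hit =>
    sz_item (h.items it hit)
  have h3 : ps.length * (B + 1) ≤ (m + 1) * (B + 1) := Nat.mul_le_mul h.lp le_rfl
  have h4 : st.length * (3 * (N * (4 * N + 2) + 1) + 4 * N + 20 + 1) ≤
      (m + 1) * (3 * (N * (4 * N + 2) + 1) + 4 * N + 21) := Nat.mul_le_mul h.ls (by omega)
  rw [mul_add]
  omega

/-- canonical points are short -/
def CanonStmt : Prop := ∀ (α : Type) [TEnc α] (H : α → List (List ℤ)) (g : α → List ℤ)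
  (T : α → List ℕ), Poly H → Poly g → Poly T →
    Poly (fun a => HF ((T a).map (row (H a))) [] (eT (g a)))

theorem sz_some_le {α : Type} [TEnc α] (v : α) : sz v ≤ sz (some v) := by
  rw [sz_some]
  omega

theorem canon_size (hc : CanonStmt) : ∃ q : Polynomial ℕ, ∀ H g p v, canon H g p = some v →
    sz v ≤ q.eval (sz (H, g)) := by
  have h1 : Poly (fun a : (List (List ℤ) × List ℤ) × List ℕ =>
      HF (a.2.map (row a.1.1)) [] (eT a.1.2)) :=
    hc _ _ _ _ (Poly.fst (Poly.fst Poly.id)) (Poly.snd (Poly.fst Poly.id)) (Poly.snd Poly.id)
  obtain ⟨q, hq⟩ := h1.sz_le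
  refine ⟨q.comp (Polynomial.X + (Polynomial.X * (Polynomial.C 4 * Polynomial.X +
    Polynomial.C 2) + Polynomial.C 1) + Polynomial.C 1), fun H g p v hv => ?_⟩
  have h2 := hq ((H, g), (List.range H.length).filter (tightF H p))
  have h3 : HF (((List.range H.length).filter (tightF H p)).map (row H)) [] (eT g) = some v := hv
  simp only [h3] at h2
  have h4 := sz_some_le v
  have hN : H.length ≤ sz (H, g) := by
    rw [sz_pair]
    have := length_lt_sz H
    omega
  have h5 : sz ((List.range H.length).filter (tightF H p)) ≤
      sz (H, g) * (4 * sz (H, g) + 2) + 1 :=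
    sz_list_of_lt (fun i hi => lt_of_lt_of_le (List.mem_range.1 (List.mem_filter.1 hi).1) hN)
      ((List.length_filter_le _ _).trans (by simpa using hN))
  have h6 : sz ((H, g), (List.range H.length).filter (tightF H p)) ≤
      sz (H, g) + (sz (H, g) * (4 * sz (H, g) + 2) + 1) + 1 := by
    rw [sz_pair]
    omega
  refine h4.trans (h2.trans ?_)
  rw [Polynomial.eval_comp]
  simp only [Polynomial.eval_add, Polynomial.eval_mul, Polynomial.eval_X, Polynomial.eval_C]
  exact eval_mono _ h6

theorem moveF_canon {H : List (List ℤ)} {g : List ℤ} {E K W : List ℕ} {p p' : List ℤ}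
    (h : moveF H g E K W p = some p') : ∃ r, canon H g r = some p' := by
  unfold moveF at h
  split at h
  · exact absurd h (by simp)
  · split at h
    · exact absurd h (by simp)
    · exact ⟨_, h⟩

theorem stepS_iter (x : QData) (k : ℕ) : stepS^[k] (initS x) = ((rowsH x, objG x),
    (step (fns (rowsH x) (objG x)))^[k] (initS x).2) := by
  induction k with
  | zero => rfl
  | succ k ih =>
    rw [Function.iterate_succ_apply', ih, Function.iterate_succ_apply']
    rfl

/-- The size bound. -/
theorem size_states (hc : CanonStmt) (hr : Poly rowsH) (hg : Poly objG) :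
    ∃ q : Polynomial ℕ, ∀ (x : QData) (k : ℕ),
      sz (stepS^[k] (initS x)) ≤ (k + 1) * q.eval (sz x) := by
  obtain ⟨q1, h1⟩ := canon_size hc
  obtain ⟨q2, h2⟩ := (Poly.pair hr hg).sz_le
  refine ⟨q2 + (q1.comp q2 + Polynomial.C 2 + (Polynomial.C 3 * (q2 * (Polynomial.C 4 * q2 +
    Polynomial.C 2) + Polynomial.C 1) + Polynomial.C 4 * q2 + Polynomial.C 21)) +
    Polynomial.C 4, fun x k => ?_⟩
  set S := q2.eval (sz x) with hS
  have hN : (rowsH x).length ≤ S := by
    have h3 := h2 x
    rw [sz_pair] at h3
    have := length_lt_sz (rowsH x)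
    omega
  set B := q1.eval S + 1 with hB
  have hmono : ∀ H g p v, canon H g p = some v → sz (H, g) ≤ S → sz v ≤ B := by
    intro H g p v hv hle
    have h3 := h1 H g p v hv
    have h4 : q1.eval (sz (H, g)) ≤ q1.eval S := eval_mono _ hle
    omega
  have hinit : SInv S B 0 (initS x).2 := by
    refine ⟨fun p hp => ?_, by simp [initS], fun it hit => ?_, by simp [initS]⟩
    · simp only [initS, List.mem_singleton] at hp
      subst hp
      unfold start
      cases hcn : canon (rowsH x) (objG x) (W960.clr (x.2.2 ++ [1])) with
      | none =>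
        have : sz ([] : List ℤ) = 1 := rfl
        simp only [Option.getD_none]
        rw [this]
        omega
      | some v =>
        simp only [Option.getD_some]
        exact hmono _ _ _ _ hcn (h2 x)
    · simp only [initS, List.mem_singleton] at hit
      subst hit
      exact ⟨by simp, by simp, fun i hi => lt_of_lt_of_le (List.mem_range.1 hi) hN, by simp,
        by simpa using hN, by simp⟩
  have hk : SInv S B k ((step (fns (rowsH x) (objG x)))^[k] (initS x).2) := by
    induction k with
    | zero => exact hinit
    | succ k ih =>
      rw [Function.iterate_succ_apply']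
      refine SInv.step ?_ ih
      intro E K W p p' hp'
      obtain ⟨r, hr⟩ := moveF_canon hp'
      exact hmono _ _ _ _ hr (h2 x)
  rw [stepS_iter, sz_pair]
  have h5 := sz_sinv hk
  have h6 := h2 x
  simp only [Polynomial.eval_add, Polynomial.eval_mul, Polynomial.eval_comp, Polynomial.eval_C]
  rw [← hS]
  have h7 : (k + 1) * (S + (q1.eval S + 2 + (3 * (S * (4 * S + 2) + 1) + 4 * S + 21)) + 4) =
      (k + 1) * (B + 1 + (3 * (S * (4 * S + 2) + 1) + 4 * S + 21)) + (k + 1) * (S + 4) := by
    rw [hB]
    ring
  rw [h7]
  have h8 : S + 4 ≤ (k + 1) * (S + 4) := Nat.le_mul_of_pos_left _ (by omega)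
  omega

end Pool.Agent.W960
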