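import Pool.Agent.W960.Sim2
import Pool.Agent.W960.Lt
import Pool.Agent.W960.Size

set_option autoImplicit false

/-!
# The run of the machine on an integral instance
-/

namespace Pool.Agent.W960

open Pool.Agent.NPC Pool.Agent.H670R2 Matrix Relation

section

variable {H : List (List ℤ)} {g : List ℤ} {n : ℕ}

/-- the final property of a point -/
def Done (H : List (List ℤ)) (g : List ℤ) (n : ℕ) (u : Fin n → ℝ) : Prop :=
  (∀ x ∈ PP (aR H n) (bR H n) H.length, cR g n ⬝ᵥ x ≤ cR g n ⬝ᵥ u) ∨
    Unb (aR H n) (bR H n) (cR g n) H.length u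

theorem ext_chain {p0 : List ℤ} (h0 : pos n p0 ∈ (PP (aR H n) (bR H n) H.length).extremePoints ℝ)
    {l : List (List ℤ)} (h : ReflTransGen (Ext (aR H n) (bR H n) (cR g n) H.length (pos n)) [p0] l) :
    l.IsChain (fun q p => Adj (aR H n) (bR H n) (cR g n) H.length (pos n p) (pos n q)) ∧
      l.getLast? = some p0 ∧
      ∀ q ∈ l, pos n q ∈ (PP (aR H n) (bR H n) H.length).extremePoints ℝ := by
  induction h with
  | refl => exact ⟨List.isChain_singleton _, rfl, by simpa using h0⟩
  | tail _ hab ih =>
    obtain ⟨p, p', t, rfl, rfl, hadj⟩ := hab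
    obtain ⟨h1, h2, h3⟩ := ih
    refine ⟨List.isChain_cons_cons.2 ⟨hadj, h1⟩, by rw [List.getLast?_cons_cons, h2], ?_⟩
    intro q hq
    rcases List.mem_cons.1 hq with rfl | hq
    · exact hadj.2.1
    · exact h3 q hq

theorem step_length {Pt : Type} (F : Fns Pt) (s : List Pt × List Item) :
    (step F s).1.length ≤ s.1.length + 1 := by
  obtain ⟨l, st⟩ := s
  cases st with
  | nil => exact Nat.le_succ _
  | cons it r =>
    cases l with
    | nil => exact Nat.le_succ _
    | cons p ps =>
      obtain ⟨kd, E, K, W, i0⟩ := it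
      have hstep : step F (p :: ps, (kd, E, K, W, i0) :: r) =
          if kd = 0 then callStep F p ps E K W r
          else if kd = 1 then midStep F p ps E K W r
          else endStep F p ps E K W i0 r := rfl
      rw [hstep]
      split_ifs
      · unfold callStep
        split_ifs <;> simp
      · unfold midStep
        split_ifs
        · simp
        · split <;> simp
      · unfold endStep
        split_ifs
        · simp
        · simp
        · split
          · simp
          · split_ifs <;> simp

theorem iter_length {Pt : Type} (F : Fns Pt) (s : List Pt × List Item) (k : ℕ) :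
    ((step F)^[k] s).1.length ≤ s.1.length + k := by
  induction k with
  | zero => simp
  | succ k ih =>
    rw [Function.iterate_succ_apply']
    have := step_length F ((step F)^[k] s)
    omega

theorem iter_stop {Pt : Type} (F : Fns Pt) (l : List Pt) (k : ℕ) :
    (step F)^[k] (l, []) = (l, []) := by
  induction k with
  | zero => rfl
  | succ k ih =>
    rw [Function.iterate_succ_apply', ih]
    cases l <;> rfl

/-- The run of the machine. -/
theorem run_spec (hy : Hyp) (h : WF H g n) {p0 : List ℤ} (hp : ok n p0)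
    (hv : pos n p0 ∈ (PP (aR H n) (bR H n) H.length).extremePoints ℝ) (M : ℕ)
    (hM : T H.length ≤ M) :
    ∃ p ps, (step (fns H g))^[M] ([p0], [(0, [], List.range H.length, [], 0)]) = (p :: ps, []) ∧
      (p :: ps).length ≤ T H.length + 1 ∧
      (p :: ps).IsChain (fun q p => Adj (aR H n) (bR H n) (cR g n) H.length (pos n p) (pos n q)) ∧
      (p :: ps).getLast? = some p0 ∧
      (∀ q ∈ p :: ps, pos n q ∈ (PP (aR H n) (bR H n) H.length).extremePoints ℝ) ∧
      Done H g n (pos n p) := by
  have hV : Vtx (aR H n) (bR H n) [] (List.range H.length) (pos n p0) :=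
    vtx_of_mem_extremePoints hv
  have hpre : Pre (ok n) (pos n) (aR H n) (bR H n) (cR g n) H.length [] (List.range H.length) []
      p0 := by
    refine ⟨hp, by simp, fun i hi => List.mem_range.1 hi, by simp, hV, by simp, fun x hx _ => ?_⟩
    simpa [PP] using hx
  obtain ⟨k, hk, p, ps, h1, -, h3, h4⟩ := sim (fns H g) (spec_fns hy h) (List.range H.length).length
    [] (List.range H.length) [] p0 [] [] 0 le_rfl hpre
  rw [List.length_range] at hk
  obtain ⟨c1, c2, c3⟩ := ext_chain hv h1
  have hend : (step (fns H g))^[k] ([p0], [(0, [], List.range H.length, [], 0)]) = (p :: ps, []) ∧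
      Done H g n (pos n p) := by
    rcases h4 with ⟨h5, h6⟩ | ⟨h5, h6⟩
    · refine ⟨h5, Or.inl ?_⟩
      obtain ⟨-, -, h7⟩ := h6
      rcases h7 with ⟨i, hi, -⟩ | h7
      · exact absurd hi List.not_mem_nil
      · exact h7
    · exact ⟨h5, Or.inr h6⟩
  refine ⟨p, ps, ?_, ?_, c1, c2, c3, hend.2⟩
  · obtain ⟨r, rfl⟩ : ∃ r, M = r + k := ⟨M - k, by omega⟩
    rw [Function.iterate_add_apply, hend.1, iter_stop]
  · have h8 := iter_length (fns H g) ([p0], [(0, [], List.range H.length, [], 0)]) k
    rw [hend.1] at h8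
    simp only [List.length_cons, List.length_nil] at h8 ⊢
    omega

end

/-- the bound for the number of steps in terms of the input size -/
theorem T_bound {N s : ℕ} (hN : N < s) : T N ≤ 2 ^ (4 * (Nat.log 2 s + 1) ^ 2) := by
  refine (T_le N).trans ?_
  have h1 : 5 * (N + 1) ≤ 2 ^ (Nat.log 2 s + 4) := by
    have h2 : s < 2 ^ (Nat.log 2 s + 1) := Nat.lt_pow_succ_log_self (by norm_num) s
    have h3 : 2 ^ (Nat.log 2 s + 4) = 8 * 2 ^ (Nat.log 2 s + 1) := by
      rw [pow_add, pow_add]
      ring
    omega
  have h4 : Nat.log 2 N ≤ Nat.log 2 s := Nat.log_mono_right hN.le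
  calc (5 * (N + 1)) ^ (Nat.log 2 N + 1) ≤ (2 ^ (Nat.log 2 s + 4)) ^ (Nat.log 2 N + 1) :=
        Nat.pow_le_pow_left h1 _
    _ = 2 ^ ((Nat.log 2 s + 4) * (Nat.log 2 N + 1)) := by rw [← pow_mul]
    _ ≤ 2 ^ (4 * (Nat.log 2 s + 1) ^ 2) := by
        refine Nat.pow_le_pow_right (by norm_num) ?_
        calc (Nat.log 2 s + 4) * (Nat.log 2 N + 1) ≤
              (4 * (Nat.log 2 s + 1)) * (Nat.log 2 s + 1) :=
              Nat.mul_le_mul (by omega) (by omega)
          _ = _ := by ring

end Pool.Agent.W960
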