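import Pool.Agent.W960.Hf

set_option autoImplicit false

/-!
# Integral instances as polyhedra, optimality test
-/

namespace Pool.Agent.W960

open Pool.Agent.NPC Pool.Agent.H670R2 Matrix

/-- the normals -/
def aR (H : List (List ℤ)) (n : ℕ) (i : ℕ) : Fin n → ℝ := fun j => (((row H i).getD j 0 : ℤ) : ℝ)

/-- the right-hand sides -/
def bR (H : List (List ℤ)) (n : ℕ) (i : ℕ) : ℝ := -(((row H i).getD n 0 : ℤ) : ℝ)

/-- the objective function -/
def cR (g : List ℤ) (n : ℕ) : Fin n → ℝ := fun j => ((g.getD j 0 : ℤ) : ℝ)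

/-- well-formed instances -/
structure WF (H : List (List ℤ)) (g : List ℤ) (n : ℕ) : Prop where
  g_len : g.length = n + 1
  H_len : ∀ i < H.length, (row H i).length = n + 1
  g_last : g.getD n 0 = 0

/-- the position of a point -/
noncomputable def pos (n : ℕ) (p : List ℤ) : Fin n → ℝ :=
  fun j => ((p.getD j 0 : ℤ) : ℝ) / ((p.getD n 0 : ℤ) : ℝ)

/-- valid points -/
def ok (n : ℕ) (p : List ℤ) : Prop := p.length = n + 1 ∧ 0 < p.getD n 0

/-- the hypotheses on the solver -/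
structure Hyp : Prop where
  hP : ProjStmt
  hSel : SelStmt
  hSm : SmallStmt

/-- the list with given entries -/
def lst {n : ℕ} (x : Fin n → ℝ) (t : ℝ) : List ℝ := List.ofFn x ++ [t]

section

variable {H : List (List ℤ)} {g : List ℤ} {n : ℕ}

@[simp] theorem length_lst (x : Fin n → ℝ) (t : ℝ) : (lst x t).length = n + 1 := by simp [lst]

theorem lst_getD (x : Fin n → ℝ) (t : ℝ) (j : Fin n) : (lst x t).getD j 0 = x j := by
  unfold lst
  rw [List.getD_eq_getElem?_getD, List.getElem?_append_left (by simp)]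
  simp

theorem lst_getD_last (x : Fin n → ℝ) (t : ℝ) : (lst x t).getD n 0 = t := by
  unfold lst
  rw [List.getD_eq_getElem?_getD, List.getElem?_append_right (by simp)]
  simp

theorem dZ_split {r : List ℤ} {y : List ℝ} (hr : r.length = n + 1) :
    dZ r y = (fun j : Fin n => ((r.getD j 0 : ℤ) : ℝ)) ⬝ᵥ (fun j : Fin n => y.getD j 0) +
      ((r.getD n 0 : ℤ) : ℝ) * y.getD n 0 := by
  rw [dZ_fin hr, Fin.sum_univ_castSucc]
  simp only [dotProduct, Fin.val_castSucc, Fin.val_last]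

theorem dZ_lst {r : List ℤ} (hr : r.length = n + 1) (x : Fin n → ℝ) (t : ℝ) :
    dZ r (lst x t) = (fun j : Fin n => ((r.getD j 0 : ℤ) : ℝ)) ⬝ᵥ x +
      ((r.getD n 0 : ℤ) : ℝ) * t := by
  rw [dZ_split hr, lst_getD_last]
  simp only [lst_getD]

theorem dZ_row (h : WF H g n) {i : ℕ} (hi : i < H.length) (x : Fin n → ℝ) (t : ℝ) :
    dZ (row H i) (lst x t) = aR H n i ⬝ᵥ x - bR H n i * t := by
  rw [dZ_lst (h.H_len i hi)]
  unfold aR bR
  ring

theorem dZ_g (h : WF H g n) (x : Fin n → ℝ) (t : ℝ) : dZ g (lst x t) = cR g n ⬝ᵥ x := by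
  rw [dZ_lst h.g_len, h.g_last]
  unfold cR
  simp

theorem length_eT (g : List ℤ) : (eT g).length = g.length := by simp [eT]

theorem dZ_eT {𝕜 : Type} [CommRing 𝕜] (h : WF H g n) (y : List 𝕜) : dZ (eT g) y = y.getD n 0 := by
  unfold eT
  rw [h.g_len, dZ_eL (by omega)]
  rfl

theorem dotL_eT (h : WF H g n) (y : List ℤ) : dotL (eT g) y = y.getD n 0 := by
  rw [← dZ_int, dZ_eT h]

/-- a list as a vector -/
theorem dZ_row' (h : WF H g n) {i : ℕ} (hi : i < H.length) (y : List ℝ) :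
    dZ (row H i) y = aR H n i ⬝ᵥ (fun j : Fin n => y.getD j 0) - bR H n i * y.getD n 0 := by
  rw [dZ_split (h.H_len i hi)]
  unfold aR bR
  ring

theorem dZ_g' (h : WF H g n) (y : List ℝ) : dZ g y = cR g n ⬝ᵥ (fun j : Fin n => y.getD j 0) := by
  rw [dZ_split h.g_len, h.g_last]
  unfold cR
  simp

/-- the real list of an integral list -/
def rl (p : List ℤ) : List ℝ := p.map fun x : ℤ => (x : ℝ)

theorem getD_rl (p : List ℤ) (j : ℕ) : (rl p).getD j 0 = ((p.getD j 0 : ℤ) : ℝ) := by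
  unfold rl
  simp only [List.getD_eq_getElem?_getD, List.getElem?_map]
  cases p[j]? <;> simp

theorem dZ_rl (u v : List ℤ) : dZ u (rl v) = ((dotL u v : ℤ) : ℝ) := dZ_cast u v

/-- the vector of the first `n` entries -/
def vc (n : ℕ) (p : List ℤ) : Fin n → ℝ := fun j => ((p.getD j 0 : ℤ) : ℝ)

theorem dotL_row (h : WF H g n) {i : ℕ} (hi : i < H.length) (p : List ℤ) :
    ((dotL (row H i) p : ℤ) : ℝ) = aR H n i ⬝ᵥ vc n p - bR H n i * ((p.getD n 0 : ℤ) : ℝ) := by
  rw [← dZ_rl, dZ_row' h hi, getD_rl]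
  simp only [getD_rl]
  rfl

theorem dotL_g (h : WF H g n) (p : List ℤ) : ((dotL g p : ℤ) : ℝ) = cR g n ⬝ᵥ vc n p := by
  rw [← dZ_rl, dZ_g' h]
  simp only [getD_rl]
  rfl

theorem vc_eq {p : List ℤ} (hp : ok n p) : vc n p = ((p.getD n 0 : ℤ) : ℝ) • pos n p := by
  have h1 : ((p.getD n 0 : ℤ) : ℝ) ≠ 0 := by
    have := hp.2
    exact_mod_cast this.ne'
  ext j
  simp only [vc, pos, Pi.smul_apply, smul_eq_mul]
  field_simp

theorem dotL_row_pos (h : WF H g n) {i : ℕ} (hi : i < H.length) {p : List ℤ} (hp : ok n p) :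
    ((dotL (row H i) p : ℤ) : ℝ) =
      ((p.getD n 0 : ℤ) : ℝ) * (aR H n i ⬝ᵥ pos n p - bR H n i) := by
  rw [dotL_row h hi, vc_eq hp, dotProduct_smul, smul_eq_mul]
  ring

theorem tightF_iff (h : WF H g n) {i : ℕ} (hi : i < H.length) {p : List ℤ} (hp : ok n p) :
    tightF H p i = true ↔ aR H n i ⬝ᵥ pos n p = bR H n i := by
  unfold tightF
  rw [decide_eq_true_iff]
  have h1 : (0 : ℝ) < ((p.getD n 0 : ℤ) : ℝ) := by exact_mod_cast hp.2
  have h2 := dotL_row_pos h hi hp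
  constructor
  · intro h3
    rw [h3] at h2
    push_cast at h2
    have := (mul_eq_zero.1 h2.symm).resolve_left h1.ne'
    linarith
  · intro h3
    rw [h3, sub_self, mul_zero] at h2
    exact_mod_cast h2

/-- Feasibility over the reals. -/
theorem HF_iff (hy : Hyp) {E K : List (List ℤ)} {u : List ℤ} (hE : ∀ a ∈ E, a.length = u.length)
    (hK : ∀ a ∈ K, a.length = u.length) : (HF E K u).isSome = true ↔
      ∃ x : List ℝ, x.length = u.length ∧ (∀ a ∈ E, dZ a x = 0) ∧ (∀ a ∈ K, dZ a x ≤ 0) ∧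
        0 < dZ u x := by
  constructor
  · intro h
    obtain ⟨x, hx⟩ := Option.isSome_iff_exists.1 h
    obtain ⟨h1, h2, h3, h4⟩ := HF_sound hE hK hx
    refine ⟨rl x, by simp [rl, h1], fun a ha => ?_, fun a ha => ?_, ?_⟩
    · rw [dZ_rl, h2 a ha]; simp
    · rw [dZ_rl]; exact_mod_cast h3 a ha
    · rw [dZ_rl]; exact_mod_cast h4
  · rintro ⟨x, h1, h2, h3, h4⟩
    exact HF_complete hy.hP hy.hSel hy.hSm hE hK x h1 h2 h3 h4

theorem map_row_length (h : WF H g n) {T : List ℕ} (hT : ∀ i ∈ T, i < H.length) :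
    ∀ a ∈ T.map (row H), a.length = g.length := by
  intro a ha
  obtain ⟨i, hi, rfl⟩ := List.mem_map.1 ha
  rw [h.H_len i (hT i hi), h.g_len]

theorem dirT_len1 (h : WF H g n) {T : List ℕ} (hT : ∀ i ∈ T, i < H.length) :
    ∀ a ∈ eT g :: T.map (row H), a.length = g.length := by
  intro a ha
  rcases List.mem_cons.1 ha with rfl | ha
  · exact length_eT g
  · exact map_row_length h hT a ha

theorem dirT_len2 (h : WF H g n) {K : List ℕ} {p : List ℤ} (hK : ∀ i ∈ K, i < H.length) :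
    ∀ a ∈ (K.filter (tightF H p)).map (row H), a.length = g.length :=
  map_row_length h fun i hi => hK i (List.mem_filter.1 hi).1

/-- The improving directions which keep `T` tight. -/
def ImpDir (H : List (List ℤ)) (g : List ℤ) (n : ℕ) (T K : List ℕ) (p : List ℤ)
    (d : Fin n → ℝ) : Prop :=
  (∀ i ∈ T, aR H n i ⬝ᵥ d = 0) ∧
    (∀ i ∈ K, aR H n i ⬝ᵥ pos n p = bR H n i → aR H n i ⬝ᵥ d ≤ 0) ∧ 0 < cR g n ⬝ᵥ d

theorem dirT_iff (hy : Hyp) (h : WF H g n) {T K : List ℕ} {p : List ℤ} (hp : ok n p)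
    (hT : ∀ i ∈ T, i < H.length) (hK : ∀ i ∈ K, i < H.length) :
    (dirT H g T K p).isSome = true ↔ ∃ d : Fin n → ℝ, ImpDir H g n T K p d := by
  unfold dirT
  rw [HF_iff hy (dirT_len1 h hT) (dirT_len2 h hK)]
  constructor
  · rintro ⟨x, h1, h2, h3, h4⟩
    have h0 : x.getD n 0 = 0 := by
      rw [← dZ_eT h]
      exact h2 _ List.mem_cons_self
    refine ⟨fun j => x.getD j 0, fun i hi => ?_, fun i hi ht => ?_, ?_⟩
    · have := h2 _ (List.mem_cons_of_mem _ (List.mem_map_of_mem hi))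
      rw [dZ_row' h (hT i hi), h0] at this
      linarith
    · have := h3 (row H i) (List.mem_map_of_mem (List.mem_filter.2
        ⟨hi, (tightF_iff h (hK i hi) hp).2 ht⟩))
      rw [dZ_row' h (hK i hi), h0] at this
      linarith
    · rwa [dZ_g' h] at h4
  · rintro ⟨d, h1, h2, h3⟩
    refine ⟨lst d 0, by simp [h.g_len], fun a ha => ?_, fun a ha => ?_, ?_⟩
    · rcases List.mem_cons.1 ha with rfl | ha
      · rw [dZ_eT h, lst_getD_last]
      · obtain ⟨i, hi, rfl⟩ := List.mem_map.1 ha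
        rw [dZ_row h (hT i hi), h1 i hi]
        ring
    · obtain ⟨i, hi, rfl⟩ := List.mem_map.1 ha
      obtain ⟨hi1, hi2⟩ := List.mem_filter.1 hi
      rw [dZ_row h (hK i hi1)]
      have := h2 i hi1 ((tightF_iff h (hK i hi1) hp).1 hi2)
      linarith
    · rwa [dZ_g h]

/-- an integral improving direction -/
theorem dirT_some (h : WF H g n) {T K : List ℕ} {p d : List ℤ} (hp : ok n p)
    (hT : ∀ i ∈ T, i < H.length) (hK : ∀ i ∈ K, i < H.length) (hd : dirT H g T K p = some d) :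
    d.length = n + 1 ∧ d.getD n 0 = 0 ∧ ImpDir H g n T K p (vc n d) := by
  unfold dirT at hd
  obtain ⟨h1, h2, h3, h4⟩ := HF_sound (dirT_len1 h hT) (dirT_len2 h hK) hd
  have h0 : d.getD n 0 = 0 := by
    rw [← dotL_eT h]
    exact h2 _ List.mem_cons_self
  refine ⟨by rw [h1, h.g_len], h0, fun i hi => ?_, fun i hi ht => ?_, ?_⟩
  · have := h2 _ (List.mem_cons_of_mem _ (List.mem_map_of_mem hi))
    have h5 := dotL_row h (hT i hi) d
    rw [this, h0] at h5
    push_cast at h5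
    linarith
  · have := h3 (row H i) (List.mem_map_of_mem (List.mem_filter.2
      ⟨hi, (tightF_iff h (hK i hi) hp).2 ht⟩))
    have h5 := dotL_row h (hK i hi) d
    rw [h0] at h5
    have h6 : ((dotL (row H i) d : ℤ) : ℝ) ≤ 0 := by exact_mod_cast this
    push_cast at h5
    linarith
  · rw [← dotL_g h]
    exact_mod_cast h4

end

/-- small steps along a direction which does not leave the tight constraints -/
theorem small_step {n : ℕ} {a : ℕ → Fin n → ℝ} {b : ℕ → ℝ} {K : List ℕ} {p d : Fin n → ℝ}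
    (hp : ∀ i ∈ K, a i ⬝ᵥ p ≤ b i) (hd : ∀ i ∈ K, a i ⬝ᵥ p = b i → a i ⬝ᵥ d ≤ 0) :
    ∃ s : ℝ, 0 < s ∧ ∀ i ∈ K, a i ⬝ᵥ (p + s • d) ≤ b i := by
  induction K with
  | nil => exact ⟨1, one_pos, by simp⟩
  | cons i K ih =>
    obtain ⟨s, hs, h1⟩ := ih (fun j hj => hp j (List.mem_cons_of_mem _ hj))
      (fun j hj => hd j (List.mem_cons_of_mem _ hj))
    have hpi := hp i List.mem_cons_self
    have hdi := hd i List.mem_cons_self
    obtain ⟨s', hs', h2⟩ : ∃ s' : ℝ, 0 < s' ∧ s' * (a i ⬝ᵥ d) ≤ b i - a i ⬝ᵥ p := by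
      rcases hpi.lt_or_eq with h3 | h3
      · refine ⟨(b i - a i ⬝ᵥ p) / (|a i ⬝ᵥ d| + 1), by
          have := abs_nonneg (a i ⬝ᵥ d)
          apply div_pos <;> linarith, ?_⟩
        rw [div_mul_eq_mul_div, div_le_iff₀ (by positivity)]
        have := le_abs_self (a i ⬝ᵥ d)
        nlinarith
      · exact ⟨1, one_pos, by rw [h3]; simpa using hdi h3⟩
    refine ⟨min s s', lt_min hs hs', fun j hj => ?_⟩
    rw [dotProduct_add, dotProduct_smul, smul_eq_mul]
    have key : ∀ (x y z m : ℝ), 0 < m → m ≤ z → x ≤ y → z * (a j ⬝ᵥ d) ≤ y - x →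
        x + m * (a j ⬝ᵥ d) ≤ y := by
      intro x y z m hm hmz hxy hz
      rcases le_total (a j ⬝ᵥ d) 0 with h | h
      · have := mul_nonpos_of_nonneg_of_nonpos hm.le h
        linarith
      · have := mul_le_mul_of_nonneg_right hmz h
        linarith
    rcases List.mem_cons.1 hj with rfl | hj
    · exact key _ _ s' _ (lt_min hs hs') (min_le_right _ _) hpi h2
    · have h4 := h1 j hj
      rw [dotProduct_add, dotProduct_smul, smul_eq_mul] at h4
      exact key _ _ s _ (lt_min hs hs') (min_le_left _ _) (hp j (List.mem_cons_of_mem _ hj))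
        (by linarith)

theorem not_top_iff {n : ℕ} {a : ℕ → Fin n → ℝ} {b : ℕ → ℝ} {c : Fin n → ℝ} {E K : List ℕ}
    {p : Fin n → ℝ} (hp : p ∈ Q a b E K) : ¬ IsTop a b c E K p ↔
      ∃ d : Fin n → ℝ, (∀ i ∈ E, a i ⬝ᵥ d = 0) ∧ (∀ i ∈ K, a i ⬝ᵥ p = b i → a i ⬝ᵥ d ≤ 0) ∧
        0 < c ⬝ᵥ d := by
  constructor
  · intro h
    unfold IsTop at h
    push Not at h
    obtain ⟨x, hx, hlt⟩ := h
    refine ⟨x - p, fun i hi => ?_, fun i hi ht => ?_, ?_⟩
    · rw [dotProduct_sub, hx.1 i hi, hp.1 i hi, sub_self]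
    · rw [dotProduct_sub, ht]
      have := hx.2 i hi
      linarith
    · rw [dotProduct_sub]
      linarith
  · rintro ⟨d, h1, h2, h3⟩ htop
    obtain ⟨s, hs, h4⟩ := small_step hp.2 h2
    have h5 := htop (p + s • d) ⟨fun i hi => by
      rw [dotProduct_add, dotProduct_smul, h1 i hi, hp.1 i hi]; simp, h4⟩
    rw [dotProduct_add, dotProduct_smul, smul_eq_mul] at h5
    nlinarith

theorem topF_iff {H : List (List ℤ)} {g : List ℤ} {n : ℕ} (hy : Hyp) (h : WF H g n)
    {E K : List ℕ} {p : List ℤ} (hp : ok n p)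
    (hE : ∀ i ∈ E, i < H.length) (hK : ∀ i ∈ K, i < H.length)
    (hv : pos n p ∈ Q (aR H n) (bR H n) E K) :
    topF H g E K p = true ↔ IsTop (aR H n) (bR H n) (cR g n) E K (pos n p) := by
  unfold topF
  have h1 := dirT_iff hy h hp hE hK
  have h2 := not_top_iff (c := cR g n) hv
  rw [Option.isNone_iff_eq_none]
  by_cases h3 : IsTop (aR H n) (bR H n) (cR g n) E K (pos n p)
  · simp only [h3, iff_true]
    by_contra hc
    exact (h2.2 (h1.1 (by
      cases hd : dirT H g E K p with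
      | none => exact absurd hd hc
      | some _ => rfl))) h3
  · simp only [h3, iff_false]
    intro hc
    have := h1.2 (h2.1 h3)
    rw [hc] at this
    exact absurd this (by simp)

end Pool.Agent.W960
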