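import Pool.Agent.W960.Edge

set_option autoImplicit false

/-!
# The stack machine and its simulation lemma
-/

namespace Pool.Agent.W960

open Matrix

/-- A stack entry: kind, equations, inequalities, watched inequalities, last face. -/
abbrev Item := ℕ × List ℕ × List ℕ × List ℕ × ℕ

/-- The functions used by the machine. -/
structure Fns (Pt : Type) where
  /-- is the constraint tight at the point? -/
  tight : Pt → ℕ → Bool
  /-- is the point optimal? -/
  top : List ℕ → List ℕ → Pt → Bool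
  /-- comparison of the optimal values on two faces -/
  lt : List ℕ → List ℕ → ℕ → ℕ → Bool
  /-- one step along an improving edge -/
  move : List ℕ → List ℕ → List ℕ → Pt → Option Pt

variable {Pt : Type}

/-- the constraints with the large optimal values -/
def isUp (F : Fns Pt) (E K : List ℕ) (i : ℕ) : Bool :=
  decide (2 * (K.filter fun j => F.lt E K i j).length ≤ K.length)

/-- Start of a call. -/
def callStep (F : Fns Pt) (p : Pt) (ps : List Pt) (E K W : List ℕ) (s : List Item) :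
    List Pt × List Item :=
  if F.top E K p then (p :: ps, s)
  else if (K.filter (isUp F E K)).any (F.tight p) then (p :: ps, (1, E, K, W, 0) :: s)
  else (p :: ps, (0, E, K.filter (fun i => !isUp F E K i), W ++ K.filter (isUp F E K), 0) ::
    (1, E, K, W, 0) :: s)

/-- After the relaxed call. -/
def midStep (F : Fns Pt) (p : Pt) (ps : List Pt) (E K W : List ℕ) (s : List Item) :
    List Pt × List Item :=
  if W.any (F.tight p) then (p :: ps, s)
  else match (K.filter (isUp F E K)).find? (F.tight p) with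
    | none => (p :: ps, s)
    | some i => (p :: ps, (0, i :: E, K.filter (fun j => decide (j ≠ i)), W, 0) ::
        (2, E, K, W, i) :: s)

/-- After the call on the face. -/
def endStep (F : Fns Pt) (p : Pt) (ps : List Pt) (E K W : List ℕ) (i : ℕ) (s : List Item) :
    List Pt × List Item :=
  if W.any (F.tight p) then (p :: ps, s)
  else if F.top E K p then (p :: ps, s)
  else match F.move E K W p with
    | none => (p :: ps, [])
    | some p' => if W.any (F.tight p') then (p' :: p :: ps, s)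
        else (p' :: p :: ps, (0, E, K.filter (fun j => F.lt E K i j), W, 0) :: s)

/-- One step of the machine. -/
def step (F : Fns Pt) (s : List Pt × List Item) : List Pt × List Item :=
  match s.1, s.2 with
  | _, [] => s
  | [], _ :: _ => s
  | p :: ps, it :: r =>
    if it.1 = 0 then callStep F p ps it.2.1 it.2.2.1 it.2.2.2.1 r
    else if it.1 = 1 then midStep F p ps it.2.1 it.2.2.1 it.2.2.2.1 r
    else endStep F p ps it.2.1 it.2.2.1 it.2.2.2.1 it.2.2.2.2 r

variable {n : ℕ} {a : ℕ → Fin n → ℝ} {b : ℕ → ℝ} {c : Fin n → ℝ} {N : ℕ}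

/-- all constraints -/
def PP (a : ℕ → Fin n → ℝ) (b : ℕ → ℝ) (N : ℕ) : Set (Fin n → ℝ) := Q a b [] (List.range N)

/-- an improving edge -/
def Adj (a : ℕ → Fin n → ℝ) (b : ℕ → ℝ) (c : Fin n → ℝ) (N : ℕ) (u w : Fin n → ℝ) : Prop :=
  u ∈ (PP a b N).extremePoints ℝ ∧ w ∈ (PP a b N).extremePoints ℝ ∧ c ⬝ᵥ u < c ⬝ᵥ w ∧
    IsExtreme ℝ (PP a b N) (segment ℝ u w)

/-- there is an improving unbounded edge -/
def Unb (a : ℕ → Fin n → ℝ) (b : ℕ → ℝ) (c : Fin n → ℝ) (N : ℕ) (u : Fin n → ℝ) : Prop :=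
  ∃ d : Fin n → ℝ, 0 < c ⬝ᵥ d ∧ IsExtreme ℝ (PP a b N) {x | ∃ t : ℝ, 0 ≤ t ∧ x = u + t • d}

/-- the path is extended by an improving edge -/
def Ext (a : ℕ → Fin n → ℝ) (b : ℕ → ℝ) (c : Fin n → ℝ) (N : ℕ) (pos : Pt → Fin n → ℝ)
    (l l' : List Pt) : Prop :=
  ∃ p p' t, l = p :: t ∧ l' = p' :: p :: t ∧ Adj a b c N (pos p) (pos p')

/-- The specification of the functions. -/
structure Spec (F : Fns Pt) (pos : Pt → Fin n → ℝ) (ok : Pt → Prop) (a : ℕ → Fin n → ℝ)
    (b : ℕ → ℝ) (c : Fin n → ℝ) (N : ℕ) : Prop where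
  tight : ∀ p i, ok p → i < N → (F.tight p i = true ↔ a i ⬝ᵥ pos p = b i)
  top : ∀ E K p, ok p → (∀ i ∈ E, i < N) → (∀ i ∈ K, i < N) → Vtx a b E K (pos p) →
    (F.top E K p = true ↔ IsTop a b c E K (pos p))
  lt : ∀ E K i j, (∀ i ∈ E, i < N) → (∀ i ∈ K, i < N) → i ∈ K → j ∈ K →
    (F.lt E K i j = true ↔ val a b c (i :: E) (K.filter (fun l => decide (l ≠ i))) <
      val a b c (j :: E) (K.filter (fun l => decide (l ≠ j))))
  move_none : ∀ E K W p, ok p → (∀ i ∈ E, i < N) → (∀ i ∈ K, i < N) → (∀ i ∈ W, i < N) →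
    Vtx a b E K (pos p) → (∀ i ∈ W, a i ⬝ᵥ pos p < b i) → ¬ IsTop a b c E K (pos p) →
    F.move E K W p = none → ∃ d, EdgeDir a b c E K (pos p) d ∧ ∀ i ∈ K ++ W, a i ⬝ᵥ d ≤ 0
  move_some : ∀ E K W p p', ok p → (∀ i ∈ E, i < N) → (∀ i ∈ K, i < N) → (∀ i ∈ W, i < N) →
    Vtx a b E K (pos p) → (∀ i ∈ W, a i ⬝ᵥ pos p < b i) → ¬ IsTop a b c E K (pos p) →
    F.move E K W p = some p' → ok p' ∧ ∃ (d : Fin n → ℝ) (l : ℝ), EdgeDir a b c E K (pos p) d ∧
      0 < l ∧ pos p' = pos p + l • d ∧ pos p' ∈ Q a b E (K ++ W) ∧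
      ∃ j ∈ K ++ W, a j ⬝ᵥ pos p' = b j ∧ 0 < a j ⬝ᵥ d

/-- The bound for the number of steps. -/
def T : ℕ → ℕ
  | 0 => 1
  | k + 1 => T k + 2 * T ((k + 1) / 2) + 3
  decreasing_by all_goals omega

theorem T_zero : T 0 = 1 := by rw [T]

theorem T_succ (k : ℕ) : T (k + 1) = T k + 2 * T ((k + 1) / 2) + 3 := by rw [T]

theorem T_pos (k : ℕ) : 1 ≤ T k := by
  cases k with
  | zero => rw [T_zero]
  | succ k => rw [T_succ]; omega

theorem T_mono {k l : ℕ} (h : k ≤ l) : T k ≤ T l := by
  induction h with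
  | refl => exact le_rfl
  | step _ ih => rw [T_succ]; omega

theorem T_le (k : ℕ) : T k ≤ (5 * (k + 1)) ^ (Nat.log 2 k + 1) := by
  have h1 : ∀ k, ∀ j ≤ k, T j ≤ 1 + j * (2 * T (k / 2) + 3) := by
    intro k j
    induction j with
    | zero => intro _; rw [T_zero]; omega
    | succ j ih =>
      intro hj
      have h2 := ih (by omega)
      have h3 : T ((j + 1) / 2) ≤ T (k / 2) := T_mono (by omega)
      rw [T_succ]
      nlinarith
  induction k using Nat.strong_induction_on with
  | _ k ih =>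
    rcases Nat.lt_or_ge k 2 with hk | hk
    · interval_cases k
      · rw [T_zero]; norm_num
      · rw [T_succ, T_zero]; norm_num [T_zero]
    · have h2 := h1 k k le_rfl
      have h3 := ih (k / 2) (by omega)
      have h4 : Nat.log 2 k = Nat.log 2 (k / 2) + 1 := by
        rw [Nat.log_of_one_lt_of_le (by norm_num) hk]
      have h5 : (5 * (k / 2 + 1)) ^ (Nat.log 2 (k / 2) + 1) ≤
          (5 * (k + 1)) ^ (Nat.log 2 (k / 2) + 1) := Nat.pow_le_pow_left (by omega) _
      have h6 := T_pos (k / 2)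
      rw [h4, pow_succ]
      have h7 : T k ≤ (5 * (k + 1)) * T (k / 2) := by nlinarith
      calc T k ≤ (5 * (k + 1)) * T (k / 2) := h7
        _ ≤ (5 * (k + 1)) * (5 * (k + 1)) ^ (Nat.log 2 (k / 2) + 1) :=
          Nat.mul_le_mul_left _ (h3.trans h5)
        _ = _ := by ring

theorem filter_disj {α : Type} (l : List α) (p q : α → Bool)
    (h : ∀ x ∈ l, ¬ (p x = true ∧ q x = true)) :
    (l.filter p).length + (l.filter q).length ≤ l.length := by
  induction l with
  | nil => simp
  | cons x l ih =>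
    have h1 := ih fun y hy => h y (List.mem_cons_of_mem _ hy)
    have h2 := h x List.mem_cons_self
    cases hp : p x <;> cases hq : q x <;> simp_all <;> omega

end Pool.Agent.W960
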