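import Pool.Agent.H670R2.GramPoly
import Pool.Agent.W960.Sim

set_option autoImplicit false

/-!
# The algorithms

`ks` looks for a nonnegative solution of a homogeneous system with a prescribed positive
coordinate, `HF` for a solution of homogeneous equations and inequalities with one strict
inequality, and `fns` are the functions used by the stack machine.
-/

namespace Pool.Agent.W960

open Pool.Agent.NPC Pool.Agent.H670R2

/-! ## Lists of integers -/

/-- pointwise sum -/
def addL (u v : List ℤ) : List ℤ := List.zipWith (fun x y => x + y) u v

/-- pointwise product -/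
def mulL (u v : List ℤ) : List ℤ := List.zipWith (fun x y => x * y) u v

/-- multiples -/
def smulL (a : ℤ) (u : List ℤ) : List ℤ := u.map fun x => a * x

/-- the `j`-th unit vector of length `k` -/
def eL (k j : ℕ) : List ℤ := (List.range k).map fun i => if i = j then (1 : ℤ) else 0

/-! ## Projections -/

/-- one step in the selection of a maximal independent family -/
def selStep (s : List (List ℤ)) (r : List ℤ) : List (List ℤ) :=
  if gdet (s ++ [r]) = 0 then s else s ++ [r]

/-- a maximal independent family of vectors -/
def sel (R : List (List ℤ)) : List (List ℤ) := R.foldl selStep []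

/-- a positive multiple of the projection of `y` to the orthogonal complement of `S` -/
def projL (S : List (List ℤ)) (k : ℕ) (y : List ℤ) : List ℤ :=
  (List.range k).map fun j =>
    (gdet (S ++ [addL y (eL k j)]) : ℤ) - (gdet (S ++ [y]) : ℤ) - (gdet (S ++ [eL k j]) : ℤ)

/-! ## Nonnegative solutions -/

/-- the rows of the scaled system with the weights `w` -/
def rowsW (R : List (List ℤ)) (k : ℕ) (w : List ℤ) : List (List ℤ) :=
  R.map (fun r => mulL r w) ++
    ((List.range k).filter fun j => decide (w.getD j 0 = 0)).map fun j => eL k j

/-- the `j`-th coordinate of `z` is not positive although its weight is nonzero -/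
def badj (w z : List ℤ) (j : ℕ) : Bool := decide (w.getD j 0 ≠ 0) && decide (z.getD j 0 ≤ 0)

/-- one step of the perceptron -/
def pstep (S : List (List ℤ)) (k : ℕ) (w y : List ℤ) : List ℤ :=
  match (List.range k).find? (badj w (projL S k y)) with
  | none => y
  | some j => addL y (eL k j)

/-- `4 k³` steps of the perceptron -/
def prun (S : List (List ℤ)) (k : ℕ) (w : List ℤ) : List ℤ :=
  (pstep S k w)^[4 * k ^ 3] (List.replicate k 0)

/-- halve the `j`-th weight -/
def halve (k : ℕ) (w : List ℤ) (j : ℕ) : List ℤ :=
  (List.range k).map fun i => if i = j then w.getD i 0 / 2 else w.getD i 0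

/-- one round -/
def rnd (R : List (List ℤ)) (k : ℕ) (w : List ℤ) : List ℤ :=
  let S := sel (rowsW R k w)
  let y := prun S k w
  if (List.range k).any (badj w (projL S k y)) then
    match (List.range k).find? (fun j => decide (4 * (k : ℤ) ^ 2 ≤ y.getD j 0)) with
    | none => w
    | some j => halve k w j
  else w

/-- a bound for the encoding length -/
def ell (R : List (List ℤ)) (k : ℕ) : ℕ := 10 * (sz R + k + 1) ^ 2

/-- the exponent of the first weights -/
def bet (R : List (List ℤ)) (k : ℕ) : ℕ := 30 * ell R k ^ 2

/-- the final weights -/
def wfin (R : List (List ℤ)) (k : ℕ) : List ℤ :=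
  (rnd R k)^[k * (bet R k + 1)] (List.replicate k (2 ^ bet R k))

/-- the candidate for a solution -/
def kcand (R : List (List ℤ)) (k : ℕ) : List ℤ :=
  let w := wfin R k
  let S := sel (rowsW R k w)
  mulL w (projL S k (prun S k w))

/-- test of a solution -/
def ktest (R : List (List ℤ)) (k i : ℕ) (x : List ℤ) : Bool :=
  decide (x.length = k) && (x.all fun a => decide (0 ≤ a)) &&
    (R.all fun r => decide (dotL r x = 0)) && decide (0 < x.getD i 0)

/-- a nonnegative solution of `R x = 0` with `0 < x i`, if there is one -/
def ks (R : List (List ℤ)) (k i : ℕ) : Option (List ℤ) :=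
  if ktest R k i (kcand R k) then some (kcand R k) else none

/-! ## Homogeneous feasibility -/

/-- negative of a vector -/
def negL (a : List ℤ) : List ℤ := a.map fun x => -x

/-- the row of an equation -/
def rowE (L : ℕ) (a : List ℤ) : List ℤ := a ++ (negL a ++ (List.replicate L 0 ++ [0]))

/-- the row of an inequality -/
def rowI (L : ℕ) (a : List ℤ) (i : ℕ) : List ℤ := a ++ (negL a ++ (eL L i ++ [0]))

/-- the row of the strict inequality -/
def rowG (L : ℕ) (g : List ℤ) : List ℤ := g ++ (negL g ++ (List.replicate L 0 ++ [-1]))

/-- the system in standard form -/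
def hfRows (E K : List (List ℤ)) (g : List ℤ) : List (List ℤ) :=
  E.map (fun a => rowE K.length a) ++ (K.zipIdx.map (fun p => rowI K.length p.1 p.2) ++
    [rowG K.length g])

/-- the difference of the first two blocks of length `n` -/
def diffL (n : ℕ) (x : List ℤ) : List ℤ :=
  (List.range n).map fun j => x.getD j 0 - x.getD (n + j) 0

/-- a solution of `a x = 0` for `a ∈ E`, `a x ≤ 0` for `a ∈ K` and `0 < g x`, if there is one -/
def HF (E K : List (List ℤ)) (g : List ℤ) : Option (List ℤ) :=
  (ks (hfRows E K g) (2 * g.length + K.length + 1) (2 * g.length + K.length)).map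
    fun x => diffL g.length x

/-! ## The functions for the stack machine

An instance is the list `H` of the rows `(a_i, -b_i)` of length `n + 1`, and the row `g = (c, 0)`.
Points are lists `(x, t)` of length `n + 1`, for the point `x / t`.
-/

/-- the `i`-th row -/
def row (H : List (List ℤ)) (i : ℕ) : List ℤ := H.getD i []

/-- the last unit vector -/
def eT (g : List ℤ) : List ℤ := eL g.length (g.length - 1)

/-- is the constraint tight? -/
def tightF (H : List (List ℤ)) (p : List ℤ) (i : ℕ) : Bool := decide (dotL (row H i) p = 0)

/-- is there a point on the face? -/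
def feasF (H : List (List ℤ)) (g : List ℤ) (E K : List ℕ) : Bool :=
  (HF (E.map (row H)) (K.map (row H)) (eT g)).isSome

/-- an improving direction in which the constraints `T` stay tight -/
def dirT (H : List (List ℤ)) (g : List ℤ) (T K : List ℕ) (p : List ℤ) : Option (List ℤ) :=
  HF (eT g :: T.map (row H)) ((K.filter (tightF H p)).map (row H)) g

/-- is the point optimal? -/
def topF (H : List (List ℤ)) (g : List ℤ) (E K : List ℕ) (p : List ℤ) : Bool :=
  (dirT H g E K p).isNone

/-- the equations which say that the multipliers `y` (for the rows `R`) combine to `t` times the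
objective function; variables `(x, t, y)` -/
def dualRows (R : List (List ℤ)) (g : List ℤ) : List (List ℤ) :=
  (List.range (g.length - 1)).map fun q =>
    smulL (-(g.getD q 0)) (eT g) ++ R.map fun r => r.getD q 0

/-- the inequalities `0 ≤ y_l` for `e ≤ l < e + k` -/
def posRows (n e k : ℕ) : List (List ℤ) :=
  (List.range k).map fun l => List.replicate n 0 ++ smulL (-1) (eL (e + k) (e + l))

/-- the difference of the primal and the dual values -/
def gapRow (R : List (List ℤ)) (g : List ℤ) : List ℤ :=
  g ++ R.map fun r => r.getD (g.length - 1) 0

/-- extend a row by zeros -/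
def ext0 (L : ℕ) (r : List ℤ) : List ℤ := r ++ List.replicate L 0

/-- there are a point of the face `E', K'` and multipliers for the face `E, K` which show that
the objective function is smaller on the latter face; `b` says which strict inequality is used -/
def cmpHF (H : List (List ℤ)) (g : List ℤ) (E K E' K' : List ℕ) (b : Bool) : Bool :=
  let R := (E ++ K).map (row H)
  (HF (E'.map (fun i => ext0 R.length (row H i)) ++ dualRows R g)
    (smulL (-1) (ext0 R.length (eT g)) :: smulL (-1) (gapRow R g) ::
      (K'.map (fun i => ext0 R.length (row H i)) ++ posRows g.length E.length K.length))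
    (if b then ext0 R.length (eT g) else gapRow R g)).isSome

/-- is the optimal value on the first face smaller? -/
def lessF (H : List (List ℤ)) (g : List ℤ) (E K E' K' : List ℕ) : Bool :=
  feasF H g E' K' && (!(feasF H g E K) ||
    (cmpHF H g E K E' K' true && cmpHF H g E K E' K' false))

/-- comparison of the optimal values on two faces -/
def ltF (H : List (List ℤ)) (g : List ℤ) (E K : List ℕ) (i j : ℕ) : Bool :=
  lessF H g (i :: E) (K.filter fun l => decide (l ≠ i)) (j :: E) (K.filter fun l => decide (l ≠ j))

/-- greedy choice of constraints which stay tight along an edge -/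
def greedy (H : List (List ℤ)) (g : List ℤ) (E K : List ℕ) (p : List ℤ) : List ℕ :=
  (K.filter (tightF H p)).foldl (fun T i => if (dirT H g (i :: T) K p).isSome then i :: T else T) E

/-- the constraints which limit the step -/
def limF (H : List (List ℤ)) (d : List ℤ) (M : List ℕ) : List ℕ :=
  M.filter fun j => decide (0 < dotL (row H j) d)

/-- the first constraint which limits the step -/
def argm (H : List (List ℤ)) (p d : List ℤ) (M : List ℕ) : Option ℕ :=
  (limF H d M).find? fun j => (limF H d M).all fun l =>
    decide (-(dotL (row H j) p) * dotL (row H l) d ≤ -(dotL (row H l) p) * dotL (row H j) d)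

/-- canonical coordinates -/
def canon (H : List (List ℤ)) (g p : List ℤ) : Option (List ℤ) :=
  HF (((List.range H.length).filter (tightF H p)).map (row H)) [] (eT g)

/-- one step along an improving edge -/
def moveF (H : List (List ℤ)) (g : List ℤ) (E K W : List ℕ) (p : List ℤ) : Option (List ℤ) :=
  match dirT H g (greedy H g E K p) K p with
  | none => none
  | some d =>
    match argm H p d (K ++ W) with
    | none => none
    | some j => canon H g (addL (smulL (dotL (row H j) d) p) (smulL (-(dotL (row H j) p)) d))

/-- the functions used by the machine -/
def fns (H : List (List ℤ)) (g : List ℤ) : Fns (List ℤ) where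
  tight := tightF H
  top := topF H g
  lt := ltF H g
  move := moveF H g

end Pool.Agent.W960
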