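import Pool.Agent.W960.Alg

set_option autoImplicit false

/-!
# Conversion between rational and integral data
-/

namespace Pool.Agent.W960

open Pool.Agent.NPC Pool.Agent.H670R2

/-- the product of the denominators -/
def dens (l : List ℚ) : ℕ := l.foldl (fun s q => s * q.den) 1

/-- multiply by the product of the denominators -/
def clr (l : List ℚ) : List ℤ := l.map fun q => q.num * ((dens l / q.den : ℕ) : ℤ)

/-- The data `(A, b), (c, v)` of a linear program with a starting vertex. -/
abbrev QData := (List (List ℚ) × List ℚ) × (List ℚ × List ℚ)

/-- the integral rows `(a_i, -b_i)` -/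
def rowsH (x : QData) : List (List ℤ) :=
  (List.zipWith (fun r β => clr (r ++ [-β])) x.1.1 x.1.2) ++
    (List.range x.2.1.length).map fun j => smulL (-1) (eL (x.2.1.length + 1) j)

/-- the integral objective function `(c, 0)` -/
def objG (x : QData) : List ℤ := clr (x.2.1 ++ [0])

/-- the first point -/
def start (x : QData) : List ℤ := (canon (rowsH x) (objG x) (clr (x.2.2 ++ [1]))).getD []

/-- The states of the machine. -/
abbrev State := (List (List ℤ) × List ℤ) × (List (List ℤ) × List Item)

/-- the initial state -/
def initS (x : QData) : State :=
  ((rowsH x, objG x), ([start x], [(0, [], List.range (rowsH x).length, [], 0)]))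

/-- one step of the machine -/
def stepS (s : State) : State := (s.1, step (fns s.1.1 s.1.2) s.2)

/-- the rational coordinates of a point -/
def toQ (n : ℕ) (p : List ℤ) : List ℚ :=
  (List.range n).map fun j => (p.getD j 0 : ℚ) / (p.getD n 0 : ℚ)

/-- the output -/
def outS (s : State) : List (List ℚ) := s.2.1.reverse.map (toQ (s.1.2.length - 1))

end Pool.Agent.W960
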