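import Pool.Agent.W960.Geo

set_option autoImplicit false

/-!
# Edges of polyhedra
-/

namespace Pool.Agent.W960

open Matrix

section Edge

variable {n : ℕ} (a : ℕ → Fin n → ℝ) (b : ℕ → ℝ) (c : Fin n → ℝ)

/-- `d` is the direction of an edge at `p` along which the objective function increases. -/
def EdgeDir (E M : List ℕ) (p d : Fin n → ℝ) : Prop :=
  (∀ i ∈ E, a i ⬝ᵥ d = 0) ∧ (∀ i ∈ M, a i ⬝ᵥ p = b i → a i ⬝ᵥ d ≤ 0) ∧ 0 < c ⬝ᵥ d ∧
    ∀ d' : Fin n → ℝ, (∀ i ∈ E, a i ⬝ᵥ d' = 0) →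
      (∀ i ∈ M, a i ⬝ᵥ p = b i → a i ⬝ᵥ d = 0 → a i ⬝ᵥ d' = 0) → ∃ t : ℝ, d' = t • d

variable {a b c}

theorem isExtreme_face {A : Set (Fin n → ℝ)} {T : Set ℕ}
    (hA : ∀ x ∈ A, ∀ i ∈ T, a i ⬝ᵥ x ≤ b i) :
    IsExtreme ℝ A {x | x ∈ A ∧ ∀ i ∈ T, a i ⬝ᵥ x = b i} := by
  refine ⟨fun x hx => hx.1, fun x hx y hy z hz hzxy => ⟨hx, fun i hi => ?_⟩⟩
  obtain ⟨s, t, hs, ht, hst, rfl⟩ := hzxy
  have h1 := hz.2 i hi
  rw [dotProduct_add, dotProduct_smul, dotProduct_smul, smul_eq_mul, smul_eq_mul] at h1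
  have h2 := hA x hx i hi
  have h3 := hA y hy i hi
  by_contra hne
  have h4 : a i ⬝ᵥ x < b i := lt_of_le_of_ne h2 hne
  have h5 : s * (a i ⬝ᵥ x) < s * b i := mul_lt_mul_of_pos_left h4 hs
  have h6 : t * (a i ⬝ᵥ y) ≤ t * b i := mul_le_mul_of_nonneg_left h3 ht.le
  have h7 : s * b i + t * b i = b i := by rw [← add_mul, hst, one_mul]
  linarith

/-- The face cut out by the constraints which stay tight along an edge direction. -/
theorem face_eq {E M : List ℕ} {p d : Fin n → ℝ} (hp : Vtx a b E M p)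
    (hd : EdgeDir a b c E M p d) {x : Fin n → ℝ} (hx : x ∈ Q a b E M)
    (hT : ∀ i ∈ M, a i ⬝ᵥ p = b i → a i ⬝ᵥ d = 0 → a i ⬝ᵥ x = b i) :
    ∃ t : ℝ, 0 ≤ t ∧ x = p + t • d := by
  obtain ⟨h1, h2, h3, h4⟩ := hd
  obtain ⟨t, ht⟩ := h4 (x - p) (fun i hi => by
      rw [dotProduct_sub, hx.1 i hi, hp.1.1 i hi, sub_self])
    (fun i hi h5 h6 => by rw [dotProduct_sub, hT i hi h5 h6, h5, sub_self])
  refine ⟨t, ?_, by rw [← ht]; abel⟩
  have hd0 : d ≠ 0 := by
    rintro rfl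
    simp at h3
  have : ∃ i ∈ M, a i ⬝ᵥ p = b i ∧ a i ⬝ᵥ d ≠ 0 := by
    by_contra hcon
    push Not at hcon
    exact hd0 (hp.2 d h1 hcon)
  obtain ⟨i, hi, h5, h6⟩ := this
  have h7 : a i ⬝ᵥ d < 0 := lt_of_le_of_ne (h2 i hi h5) h6
  have h8 := hx.2 i hi
  have h9 : x = p + t • d := by rw [← ht]; abel
  rw [h9, dotProduct_add, dotProduct_smul, h5, smul_eq_mul] at h8
  by_contra hneg
  push Not at hneg
  nlinarith [mul_pos_of_neg_of_neg hneg h7]

/-- An unbounded edge. -/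
theorem ray_extreme {E M : List ℕ} {p d : Fin n → ℝ} (hp : Vtx a b E M p)
    (hd : EdgeDir a b c E M p d) (hno : ∀ i ∈ M, a i ⬝ᵥ d ≤ 0) :
    IsExtreme ℝ (Q a b E M) {x | ∃ t : ℝ, 0 ≤ t ∧ x = p + t • d} := by
  have h1 := isExtreme_face (a := a) (b := b) (A := Q a b E M)
    (T := {i | i ∈ M ∧ a i ⬝ᵥ p = b i ∧ a i ⬝ᵥ d = 0}) (fun x hx i hi => hx.2 i hi.1)
  convert h1 using 1
  ext x
  constructor
  · rintro ⟨t, ht, rfl⟩
    refine ⟨⟨fun i hi => ?_, fun i hi => ?_⟩, ?_⟩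
    · rw [dotProduct_add, dotProduct_smul, hd.1 i hi, hp.1.1 i hi]; simp
    · rw [dotProduct_add, dotProduct_smul, smul_eq_mul]
      have h2 := hp.1.2 i hi
      have h3 := mul_nonneg ht (neg_nonneg.2 (hno i hi))
      linarith
    · rintro i ⟨_, h2, h3⟩
      rw [dotProduct_add, dotProduct_smul, h2, h3]; simp
  · rintro ⟨hx, hT⟩
    exact face_eq hp hd hx fun i hi h2 h3 => hT i ⟨hi, h2, h3⟩

/-- A bounded edge. -/
theorem seg_extreme {E M : List ℕ} {p d : Fin n → ℝ} (hp : Vtx a b E M p)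
    (hd : EdgeDir a b c E M p d) {l : ℝ} (hl : 0 ≤ l) (hw : p + l • d ∈ Q a b E M)
    {j : ℕ} (hj : j ∈ M) (hjw : a j ⬝ᵥ (p + l • d) = b j) (hjd : 0 < a j ⬝ᵥ d) :
    IsExtreme ℝ (Q a b E M) (segment ℝ p (p + l • d)) := by
  have h1 := isExtreme_face (a := a) (b := b) (A := Q a b E M)
    (T := {i | i ∈ M ∧ a i ⬝ᵥ p = b i ∧ a i ⬝ᵥ d = 0}) (fun x hx i hi => hx.2 i hi.1)
  have hconv : Convex ℝ (Q a b E M) := by
    intro x hx y hy s t hs ht hst
    refine ⟨fun i hi => ?_, fun i hi => ?_⟩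
    · rw [dotProduct_add, dotProduct_smul, dotProduct_smul, hx.1 i hi, hy.1 i hi, smul_eq_mul,
        smul_eq_mul, ← add_mul, hst, one_mul]
    · rw [dotProduct_add, dotProduct_smul, dotProduct_smul, smul_eq_mul, smul_eq_mul]
      have h2 := mul_le_mul_of_nonneg_left (hx.2 i hi) hs
      have h3 := mul_le_mul_of_nonneg_left (hy.2 i hi) ht
      have h4 : s * b i + t * b i = b i := by rw [← add_mul, hst, one_mul]
      linarith
  convert h1 using 1
  ext x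
  constructor
  · intro hx
    refine ⟨hconv.segment_subset hp.1 hw hx, ?_⟩
    obtain ⟨s, t, hs, ht, hst, rfl⟩ := hx
    rintro i ⟨_, h2, h3⟩
    have h4 : a i ⬝ᵥ (p + l • d) = b i := by
      rw [dotProduct_add, dotProduct_smul, h2, h3]; simp
    rw [dotProduct_add, dotProduct_smul, dotProduct_smul, h2, h4, smul_eq_mul,
        smul_eq_mul, ← add_mul, hst, one_mul]
  · rintro ⟨hx, hT⟩
    obtain ⟨t, ht, rfl⟩ := face_eq hp hd hx fun i hi h2 h3 => hT i ⟨hi, h2, h3⟩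
    have htl : t ≤ l := by
      have h2 := hx.2 j hj
      rw [dotProduct_add, dotProduct_smul, smul_eq_mul] at h2 hjw
      by_contra hcon
      push Not at hcon
      nlinarith [mul_pos (sub_pos.2 hcon) hjd]
    rcases eq_or_lt_of_le hl with h0 | h0
    · have : t = 0 := le_antisymm (by rw [h0]; exact htl) ht
      rw [this, ← h0]
      simp
    · rw [segment_eq_image']
      refine ⟨t / l, ⟨by positivity, (div_le_one h0).2 htl⟩, ?_⟩
      simp only [add_sub_cancel_left, smul_smul]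
      rw [div_mul_cancel₀ _ h0.ne']

/-- The end of a bounded edge is a vertex. -/
theorem vtx_end {E M : List ℕ} {p d : Fin n → ℝ}
    (hd : EdgeDir a b c E M p d) {l : ℝ} (hw : p + l • d ∈ Q a b E M)
    {j : ℕ} (hj : j ∈ M) (hjw : a j ⬝ᵥ (p + l • d) = b j) (hjd : 0 < a j ⬝ᵥ d) :
    Vtx a b E M (p + l • d) := by
  refine ⟨hw, fun d' h1 h2 => ?_⟩
  obtain ⟨t, rfl⟩ := hd.2.2.2 d' h1 (fun i hi h3 h4 => h2 i hi (by
    rw [dotProduct_add, dotProduct_smul, h3, h4]; simp))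
  have h5 := h2 j hj hjw
  rw [dotProduct_smul, smul_eq_mul] at h5
  rcases mul_eq_zero.1 h5 with h | h
  · rw [h, zero_smul]
  · exact absurd h hjd.ne'

/-- The vertices are extreme points. -/
theorem Vtx.mem_extremePoints {E M : List ℕ} {p : Fin n → ℝ} (hp : Vtx a b E M p) :
    p ∈ (Q a b E M).extremePoints ℝ := by
  rw [← isExtreme_singleton]
  have h1 := isExtreme_face (a := a) (b := b) (A := Q a b E M)
    (T := {i | i ∈ M ∧ a i ⬝ᵥ p = b i}) (fun x hx i hi => hx.2 i hi.1)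
  convert h1 using 1
  ext x
  constructor
  · rintro rfl
    exact ⟨hp.1, fun i hi => hi.2⟩
  · rintro ⟨hx, hT⟩
    have := hp.2 (x - p) (fun i hi => by
      rw [dotProduct_sub, hx.1 i hi, hp.1.1 i hi, sub_self])
      (fun i hi h5 => by rw [dotProduct_sub, hT i ⟨hi, h5⟩, h5, sub_self])
    exact sub_eq_zero.1 this

/-- Conversely, extreme points are vertices. -/
theorem vtx_of_mem_extremePoints {M : List ℕ} {p : Fin n → ℝ}
    (hp : p ∈ (Q a b [] M).extremePoints ℝ) : Vtx a b [] M p := by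
  refine ⟨hp.1, fun d _ h2 => ?_⟩
  by_contra hd
  -- a small step in the directions `d` and `-d` is possible
  have key : ∀ M' : List ℕ, (∀ i ∈ M', i ∈ M) → ∃ e : ℝ, 0 < e ∧ ∀ s : ℝ, |s| ≤ e →
      ∀ i ∈ M', a i ⬝ᵥ (p + s • d) ≤ b i := by
    intro M'
    induction M' with
    | nil => exact fun _ => ⟨1, one_pos, fun _ _ i hi => absurd hi (List.not_mem_nil)⟩
    | cons i M' ih =>
      intro hM
      obtain ⟨e, he, h⟩ := ih fun j hj => hM j (List.mem_cons_of_mem _ hj)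
      have hi := hp.1.2 i (hM i List.mem_cons_self)
      rcases eq_or_lt_of_le hi with h3 | h3
      · refine ⟨e, he, fun s hs j hj => ?_⟩
        rcases List.mem_cons.1 hj with rfl | hj
        · rw [dotProduct_add, dotProduct_smul, h2 j (hM j List.mem_cons_self) h3, h3]; simp
        · exact h s hs j hj
      · obtain ⟨e', he', h'⟩ : ∃ e' : ℝ, 0 < e' ∧ e' * |a i ⬝ᵥ d| ≤ b i - a i ⬝ᵥ p := by
          refine ⟨(b i - a i ⬝ᵥ p) / (|a i ⬝ᵥ d| + 1), div_pos (by linarith) (by positivity), ?_⟩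
          rw [div_mul_eq_mul_div, div_le_iff₀ (by positivity)]
          have : 0 ≤ |a i ⬝ᵥ d| := abs_nonneg _
          nlinarith
        refine ⟨min e e', lt_min he he', fun s hs j hj => ?_⟩
        rcases List.mem_cons.1 hj with rfl | hj
        · rw [dotProduct_add, dotProduct_smul, smul_eq_mul]
          have h4 : s * (a j ⬝ᵥ d) ≤ |s| * |a j ⬝ᵥ d| := by
            rw [← abs_mul]; exact le_abs_self _
          have h5 : |s| * |a j ⬝ᵥ d| ≤ e' * |a j ⬝ᵥ d| :=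
            mul_le_mul_of_nonneg_right (hs.trans (min_le_right _ _)) (abs_nonneg _)
          linarith
        · exact h s (hs.trans (min_le_left _ _)) j hj
  obtain ⟨e, he, h⟩ := key M fun _ hi => hi
  have hp1 : p + e • d ∈ Q a b [] M := ⟨fun i hi => absurd hi List.not_mem_nil,
    h e (by rw [abs_of_pos he])⟩
  have hp2 : p + (-e) • d ∈ Q a b [] M := ⟨fun i hi => absurd hi List.not_mem_nil,
    h (-e) (by rw [abs_neg, abs_of_pos he])⟩
  have h3 : p ∈ openSegment ℝ (p + e • d) (p + (-e) • d) := by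
    refine ⟨1 / 2, 1 / 2, by norm_num, by norm_num, by norm_num, ?_⟩
    module
  have h4 := hp.2 hp1 hp2 h3
  have h5 : e • d = 0 := by simpa using h4
  rcases smul_eq_zero.1 h5 with h6 | h6
  · exact he.ne' h6
  · exact hd h6

end Edge

end Pool.Agent.W960
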