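import Mathlib

set_option autoImplicit false

/-!
# Polyhedra given by lists of equations and inequalities
-/

namespace Pool.Agent.W960

open Matrix

section Geo

variable {n : ℕ} (a : ℕ → Fin n → ℝ) (b : ℕ → ℝ) (c : Fin n → ℝ)

/-- The polyhedron with the equations `E` and the inequalities `K`. -/
def Q (E K : List ℕ) : Set (Fin n → ℝ) :=
  {x | (∀ i ∈ E, a i ⬝ᵥ x = b i) ∧ ∀ i ∈ K, a i ⬝ᵥ x ≤ b i}

/-- `v` is a vertex of the polyhedron with the equations `E` and the inequalities `K`: it lies in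
it, and the tight constraints determine it. -/
def Vtx (E K : List ℕ) (v : Fin n → ℝ) : Prop :=
  v ∈ Q a b E K ∧ ∀ d : Fin n → ℝ, (∀ i ∈ E, a i ⬝ᵥ d = 0) →
    (∀ i ∈ K, a i ⬝ᵥ v = b i → a i ⬝ᵥ d = 0) → d = 0

/-- The supremum of the objective function. -/
noncomputable def val (E K : List ℕ) : EReal := ⨆ x ∈ Q a b E K, ((c ⬝ᵥ x : ℝ) : EReal)

/-- `v` maximises the objective function. -/
def IsTop (E K : List ℕ) (v : Fin n → ℝ) : Prop := ∀ x ∈ Q a b E K, c ⬝ᵥ x ≤ c ⬝ᵥ v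

variable {a b c}

theorem le_val {E K : List ℕ} {x : Fin n → ℝ} (hx : x ∈ Q a b E K) :
    ((c ⬝ᵥ x : ℝ) : EReal) ≤ val a b c E K := le_iSup₂_of_le x hx le_rfl

theorem val_eq_of_top {E K : List ℕ} {v : Fin n → ℝ} (hv : v ∈ Q a b E K)
    (h : IsTop a b c E K v) : val a b c E K = ((c ⬝ᵥ v : ℝ) : EReal) := by
  refine le_antisymm (iSup₂_le fun x hx => ?_) (le_val hv)
  exact_mod_cast h x hx

theorem Q_mono {E E' K K' : List ℕ} (hE : ∀ i ∈ E', i ∈ E) (hK : ∀ i ∈ K', i ∈ K) :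
    Q a b E K ⊆ Q a b E' K' := fun _ hx =>
  ⟨fun i hi => hx.1 i (hE i hi), fun i hi => hx.2 i (hK i hi)⟩

/-- Dropping inequalities which are not tight above the level of `w` does not change the
polyhedron above this level. -/
theorem region {E K K' : List ℕ} {w x : Fin n → ℝ} (hw : w ∈ Q a b E K)
    (hx : x ∈ Q a b E K') (hle : c ⬝ᵥ w ≤ c ⬝ᵥ x)
    (hK : ∀ j ∈ K, j ∉ K' → ∀ z ∈ Q a b E K, a j ⬝ᵥ z = b j → c ⬝ᵥ z < c ⬝ᵥ w) :
    x ∈ Q a b E K := by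
  classical
  by_contra hcon
  have hviol : ∃ j ∈ K, b j < a j ⬝ᵥ x := by
    by_contra h
    push Not at h
    exact hcon ⟨hx.1, h⟩
  set V : Finset ℕ := K.toFinset.filter fun j => b j < a j ⬝ᵥ x with hV
  have hVne : V.Nonempty := by
    obtain ⟨j, hj, h⟩ := hviol
    exact ⟨j, by simp [hV, hj, h]⟩
  obtain ⟨j, hjV, hmin⟩ := V.exists_min_image
    (fun j => (b j - a j ⬝ᵥ w) / (a j ⬝ᵥ x - a j ⬝ᵥ w)) hVne
  have hj : j ∈ K ∧ b j < a j ⬝ᵥ x := by simpa [hV] using hjV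
  set s : ℝ := (b j - a j ⬝ᵥ w) / (a j ⬝ᵥ x - a j ⬝ᵥ w) with hs
  have hjw : a j ⬝ᵥ w ≤ b j := hw.2 j hj.1
  have hden : 0 < a j ⬝ᵥ x - a j ⬝ᵥ w := by linarith [hj.2]
  have hs0 : 0 ≤ s := div_nonneg (by linarith) hden.le
  have hs1 : s ≤ 1 := by
    rw [hs, div_le_one hden]
    linarith [hj.2]
  set z : Fin n → ℝ := w + s • (x - w) with hz
  have hdot : ∀ u : Fin n → ℝ, u ⬝ᵥ z = u ⬝ᵥ w + s * (u ⬝ᵥ x - u ⬝ᵥ w) := by
    intro u
    rw [hz, dotProduct_add, dotProduct_smul, dotProduct_sub, smul_eq_mul]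
  have hzQ : z ∈ Q a b E K := by
    refine ⟨fun i hi => ?_, fun i hi => ?_⟩
    · rw [hdot, hw.1 i hi, hx.1 i hi]
      ring
    · rw [hdot]
      have hiw := hw.2 i hi
      by_cases hv : b i < a i ⬝ᵥ x
      · have h1 := hmin i (by simp [hV, hi, hv])
        have hd : 0 < a i ⬝ᵥ x - a i ⬝ᵥ w := by linarith
        rw [le_div_iff₀ hd] at h1
        linarith
      · push Not at hv
        nlinarith
  have hzj : a j ⬝ᵥ z = b j := by
    rw [hdot, hs]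
    field_simp
    ring
  have hjK' : j ∉ K' := fun h => absurd (hx.2 j h) (not_le.2 hj.2)
  have h2 := hK j hj.1 hjK' z hzQ hzj
  rw [hdot] at h2
  nlinarith

end Geo

end Pool.Agent.W960
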