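import Pool.Agent.W960.Ks2

set_option autoImplicit false

/-!
# Correctness of homogeneous feasibility
-/

namespace Pool.Agent.W960

open Pool.Agent.NPC Pool.Agent.H670R2

section Dot

variable {𝕜 : Type} [CommRing 𝕜]

/-- scalar product of an integral list with a list over a ring -/
def dZ (u : List ℤ) (v : List 𝕜) : 𝕜 := (List.zipWith (fun (a : ℤ) b => (a : 𝕜) * b) u v).sum

@[simp] theorem dZ_nil (v : List 𝕜) : dZ [] v = 0 := by simp [dZ]

@[simp] theorem dZ_nil' (u : List ℤ) : dZ u ([] : List 𝕜) = 0 := by simp [dZ]

theorem dZ_cons (a : ℤ) (u : List ℤ) (b : 𝕜) (v : List 𝕜) :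
    dZ (a :: u) (b :: v) = (a : 𝕜) * b + dZ u v := by simp [dZ]

theorem dZ_int (u v : List ℤ) : dZ u v = dotL u v := by
  unfold dZ dotL
  simp

theorem dZ_append {a b : List ℤ} {c d : List 𝕜} (h : a.length = c.length) :
    dZ (a ++ b) (c ++ d) = dZ a c + dZ b d := by
  unfold dZ
  rw [List.zipWith_append h, List.sum_append]

theorem dZ_append_nil {a b : List ℤ} {c : List 𝕜} (h : a.length = c.length) :
    dZ (a ++ b) c = dZ a c := by
  have := dZ_append (b := b) (d := []) h
  rw [List.append_nil] at this
  rw [this, dZ_nil', add_zero]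

theorem dZ_negL (a : List ℤ) (v : List 𝕜) : dZ (negL a) v = -dZ a v := by
  induction a generalizing v with
  | nil => simp [negL]
  | cons x a ih =>
    cases v with
    | nil => simp
    | cons y v =>
      have : negL (x :: a) = -x :: negL a := rfl
      rw [this, dZ_cons, dZ_cons, ih]
      push_cast
      ring

theorem dZ_smulL (t : ℤ) (a : List ℤ) (v : List 𝕜) : dZ (smulL t a) v = (t : 𝕜) * dZ a v := by
  induction a generalizing v with
  | nil => simp [smulL]
  | cons x a ih =>
    cases v with
    | nil => simp
    | cons y v =>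
      have : smulL t (x :: a) = t * x :: smulL t a := rfl
      rw [this, dZ_cons, dZ_cons, ih]
      push_cast
      ring

theorem dZ_zero (L : ℕ) (v : List 𝕜) : dZ (List.replicate L 0) v = 0 := by
  induction L generalizing v with
  | zero => simp
  | succ L ih =>
    cases v with
    | nil => simp
    | cons y v =>
      rw [List.replicate_succ, dZ_cons, ih]
      simp

theorem dZ_fin {u : List ℤ} {v : List 𝕜} {k : ℕ} (hu : u.length = k) :
    dZ u v = ∑ j : Fin k, (u.getD j 0 : 𝕜) * v.getD j 0 := by
  induction u generalizing v k with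
  | nil =>
    subst hu
    simp
  | cons x u ih =>
    subst hu
    rw [List.length_cons, Fin.sum_univ_succ]
    cases v with
    | nil => simp
    | cons y v =>
      rw [dZ_cons, ih rfl]
      simp

theorem dZ_fin' {u : List ℤ} {v : List 𝕜} {k : ℕ} (hv : v.length = k) :
    dZ u v = ∑ j : Fin k, (u.getD j 0 : 𝕜) * v.getD j 0 := by
  induction v generalizing u k with
  | nil =>
    subst hv
    simp
  | cons y v ih =>
    subst hv
    rw [List.length_cons, Fin.sum_univ_succ]
    cases u with
    | nil => simp
    | cons x u =>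
      rw [dZ_cons, ih rfl]
      simp

theorem dZ_eL {L i : ℕ} (hi : i < L) (v : List 𝕜) : dZ (eL L i) v = v.getD i 0 := by
  rw [dZ_fin (length_eL L i), Finset.sum_eq_single ⟨i, hi⟩]
  · rw [getD_eL, if_pos ⟨hi, rfl⟩]
    simp
  · intro j _ hj
    rw [getD_eL, if_neg]
    · simp
    · rintro ⟨-, h2⟩
      exact hj (Fin.ext h2)
  · simp

theorem dZ_sub (a : List ℤ) {y z : List 𝕜} (h : y.length = z.length) :
    dZ a (List.zipWith (fun s t => s - t) y z) = dZ a y - dZ a z := by
  induction a generalizing y z with
  | nil => simp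
  | cons x a ih =>
    cases y with
    | nil =>
      cases z with
      | nil => simp
      | cons _ _ => simp at h
    | cons s y =>
      cases z with
      | nil => simp at h
      | cons t z =>
        rw [List.zipWith_cons_cons, dZ_cons, dZ_cons, dZ_cons, ih (by simpa using h)]
        ring

theorem dZ_add (a : List ℤ) {y z : List 𝕜} (h : y.length = z.length) :
    dZ a (List.zipWith (fun s t => s + t) y z) = dZ a y + dZ a z := by
  induction a generalizing y z with
  | nil => simp
  | cons x a ih =>
    cases y with
    | nil =>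
      cases z with
      | nil => simp
      | cons _ _ => simp at h
    | cons s y =>
      cases z with
      | nil => simp at h
      | cons t z =>
        rw [List.zipWith_cons_cons, dZ_cons, dZ_cons, dZ_cons, ih (by simpa using h)]
        ring

theorem dZ_smul (a : List ℤ) (c : 𝕜) (y : List 𝕜) : dZ a (y.map fun s => c * s) = c * dZ a y := by
  induction a generalizing y with
  | nil => simp
  | cons x a ih =>
    cases y with
    | nil => simp
    | cons s y =>
      rw [List.map_cons, dZ_cons, dZ_cons, ih]
      ring

end Dot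

theorem dZ_cast (u v : List ℤ) : dZ u (v.map fun x : ℤ => (x : ℝ)) = ((dotL u v : ℤ) : ℝ) := by
  induction u generalizing v with
  | nil => simp [dotL]
  | cons x u ih =>
    cases v with
    | nil => simp [dotL]
    | cons y v =>
      rw [List.map_cons, dZ_cons, dotL_cons, ih]
      push_cast
      ring

section Rows

variable {𝕜 : Type} [CommRing 𝕜]

theorem dZ_rowE {L n : ℕ} {a : List ℤ} {y1 y2 y3 : List 𝕜} {c : 𝕜} (ha : a.length = n)
    (h1 : y1.length = n) (h2 : y2.length = n) (h3 : y3.length = L) :
    dZ (rowE L a) (y1 ++ (y2 ++ (y3 ++ [c]))) =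
      dZ a (List.zipWith (fun s t => s - t) y1 y2) := by
  unfold rowE
  rw [dZ_append (by omega), dZ_append (by simp [ha, h2]), dZ_append (by simp [h3]), dZ_negL,
    dZ_zero, dZ_cons, dZ_sub _ (by omega)]
  simp
  ring

theorem dZ_rowI {L n i : ℕ} {a : List ℤ} {y1 y2 y3 : List 𝕜} {c : 𝕜} (ha : a.length = n)
    (h1 : y1.length = n) (h2 : y2.length = n) (h3 : y3.length = L) (hi : i < L) :
    dZ (rowI L a i) (y1 ++ (y2 ++ (y3 ++ [c]))) =
      dZ a (List.zipWith (fun s t => s - t) y1 y2) + y3.getD i 0 := by
  unfold rowI
  rw [dZ_append (by omega), dZ_append (by simp [ha, h2]), dZ_append (by simp [h3]), dZ_negL,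
    dZ_eL hi, dZ_cons, dZ_sub _ (by omega)]
  simp
  ring

theorem dZ_rowG {L n : ℕ} {g : List ℤ} {y1 y2 y3 : List 𝕜} {c : 𝕜} (ha : g.length = n)
    (h1 : y1.length = n) (h2 : y2.length = n) (h3 : y3.length = L) :
    dZ (rowG L g) (y1 ++ (y2 ++ (y3 ++ [c]))) =
      dZ g (List.zipWith (fun s t => s - t) y1 y2) - c := by
  unfold rowG
  rw [dZ_append (by omega), dZ_append (by simp [ha, h2]), dZ_append (by simp [h3]), dZ_negL,
    dZ_zero, dZ_cons, dZ_sub _ (by omega)]
  simp
  ring

end Rows

theorem exists_split {α : Type} {y : List α} {n L : ℕ} (h : y.length = 2 * n + L + 1) :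
    ∃ (y1 y2 y3 : List α) (c : α), y = y1 ++ (y2 ++ (y3 ++ [c])) ∧ y1.length = n ∧
      y2.length = n ∧ y3.length = L := by
  refine ⟨y.take n, (y.drop n).take n, ((y.drop n).drop n).take L,
    y[2 * n + L]'(by omega), ?_, by simp; omega, by simp; omega, by simp; omega⟩
  have h1 : ((y.drop n).drop n).drop L = [y[2 * n + L]'(by omega)] := by
    rw [List.drop_drop, List.drop_drop]
    rw [show n + (n + L) = 2 * n + L by omega]
    rw [List.drop_eq_getElem_cons (by omega), List.drop_eq_nil_of_le (by omega)]
  rw [← h1, List.take_append_drop, List.take_append_drop, List.take_append_drop]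

theorem diffL_eq {n : ℕ} {y1 y2 z : List ℤ} (h1 : y1.length = n) (h2 : y2.length = n) :
    diffL n (y1 ++ (y2 ++ z)) = List.zipWith (fun s t => s - t) y1 y2 := by
  unfold diffL
  refine List.ext_getElem (by simp [h1, h2]) fun i hi1 hi2 => ?_
  have hi : i < n := by simpa using hi1
  simp only [List.getElem_map, List.getElem_range, List.getElem_zipWith]
  rw [List.getD_eq_getElem?_getD, List.getD_eq_getElem?_getD,
    List.getElem?_append_left (by omega), List.getElem?_append_right (by omega),
    List.getElem?_append_left (by omega)]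
  rw [List.getElem?_eq_getElem (by omega), List.getElem?_eq_getElem (by omega)]
  simp [h1]

variable {E K : List (List ℤ)} {g : List ℤ}

theorem hfRows_length (hE : ∀ a ∈ E, a.length = g.length) (hK : ∀ a ∈ K, a.length = g.length) :
    ∀ r ∈ hfRows E K g, r.length = 2 * g.length + K.length + 1 := by
  intro r hr
  unfold hfRows at hr
  rcases List.mem_append.1 hr with hr | hr
  · obtain ⟨a, ha, rfl⟩ := List.mem_map.1 hr
    simp [rowE, hE a ha]
    omega
  · rcases List.mem_append.1 hr with hr | hr
    · obtain ⟨⟨a, i⟩, ha, rfl⟩ := List.mem_map.1 hr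
      have : a ∈ K := by
        have := List.mem_zipIdx' ha
        rw [this.2]
        exact List.getElem_mem _
      simp [rowI, hK a this]
      omega
    · rw [List.mem_singleton] at hr
      subst hr
      simp [rowG]
      omega

/-- Soundness. -/
theorem HF_sound (hE : ∀ a ∈ E, a.length = g.length) (hK : ∀ a ∈ K, a.length = g.length)
    {x : List ℤ} (h : HF E K g = some x) : x.length = g.length ∧ (∀ a ∈ E, dotL a x = 0) ∧
      (∀ a ∈ K, dotL a x ≤ 0) ∧ 0 < dotL g x := by
  unfold HF at h
  rw [Option.map_eq_some_iff] at h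
  obtain ⟨y, hy, rfl⟩ := h
  obtain ⟨h1, h2, h3, h4⟩ := ks_sound hy
  obtain ⟨y1, y2, y3, c, rfl, l1, l2, l3⟩ := exists_split h1
  rw [diffL_eq l1 l2]
  refine ⟨by simp [l1, l2], fun a ha => ?_, fun a ha => ?_, ?_⟩
  · have h5 := h3 (rowE K.length a) (List.mem_append_left _ (List.mem_map_of_mem ha))
    rw [← dZ_int, dZ_rowE (hE a ha) l1 l2 l3, dZ_int] at h5
    exact h5
  · obtain ⟨i, hi, rfl⟩ := List.getElem_of_mem ha
    have h5 := h3 (rowI K.length K[i] i) (List.mem_append_right _ (List.mem_append_left _
      (List.mem_map.2 ⟨(K[i], i), List.mk_mem_zipIdx_iff_getElem?.2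
        (List.getElem?_eq_getElem hi), rfl⟩)))
    rw [← dZ_int, dZ_rowI (hK _ ha) l1 l2 l3 hi, dZ_int] at h5
    have h6 : 0 ≤ y3.getD i 0 := by
      rw [List.getD_eq_getElem?_getD, List.getElem?_eq_getElem (by omega)]
      exact h2 _ (by
        refine List.mem_append_right _ (List.mem_append_right _ (List.mem_append_left _ ?_))
        exact List.getElem_mem _)
    omega
  · have h5 := h3 (rowG K.length g) (List.mem_append_right _ (List.mem_append_right _
      (List.mem_singleton.2 rfl)))
    rw [← dZ_int, dZ_rowG rfl l1 l2 l3, dZ_int] at h5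
    have h6 : (y1 ++ (y2 ++ (y3 ++ [c]))).getD (2 * g.length + K.length) 0 = c := by
      rw [List.getD_eq_getElem?_getD, List.getElem?_append_right (by omega),
        List.getElem?_append_right (by omega), List.getElem?_append_right (by omega)]
      have : 2 * g.length + K.length - y1.length - y2.length - y3.length = 0 := by omega
      rw [this]
      simp
    rw [h6] at h4
    omega

theorem zipWith_map_sub (x : List ℝ) :
    List.zipWith (fun s t => s - t) (x.map fun s => max s 0) (x.map fun s => max (-s) 0) = x := by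
  induction x with
  | nil => simp
  | cons s x ih =>
    rw [List.map_cons, List.map_cons, List.zipWith_cons_cons, ih]
    congr 1
    rcases le_total s 0 with h | h
    · rw [max_eq_right h, max_eq_left (by linarith)]
      ring
    · rw [max_eq_left h, max_eq_right (by linarith)]
      ring

/-- Completeness. -/
theorem HF_complete (hP : ProjStmt) (hSel : SelStmt) (hSm : SmallStmt)
    (hE : ∀ a ∈ E, a.length = g.length) (hK : ∀ a ∈ K, a.length = g.length)
    (x : List ℝ) (hx : x.length = g.length) (h1 : ∀ a ∈ E, dZ a x = 0)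
    (h2 : ∀ a ∈ K, dZ a x ≤ 0) (h3 : 0 < dZ g x) : (HF E K g).isSome = true := by
  unfold HF
  rw [Option.isSome_map]
  set y1 := x.map fun s => max s 0 with hy1
  set y2 := x.map fun s => max (-s) 0 with hy2
  set y3 := K.map fun a => -dZ a x with hy3
  set Y := y1 ++ (y2 ++ (y3 ++ [dZ g x])) with hY
  have l1 : y1.length = g.length := by simp [hy1, hx]
  have l2 : y2.length = g.length := by simp [hy2, hx]
  have l3 : y3.length = K.length := by simp [hy3]
  have lY : Y.length = 2 * g.length + K.length + 1 := by
    simp [hY, l1, l2, l3]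
    omega
  have hz : List.zipWith (fun s t => s - t) y1 y2 = x := zipWith_map_sub x
  have hYn : ∀ s ∈ Y, 0 ≤ s := by
    intro s hs
    rw [hY] at hs
    simp only [List.mem_append, List.mem_singleton] at hs
    rcases hs with hs | hs | hs | hs
    · obtain ⟨t, -, rfl⟩ := List.mem_map.1 hs
      exact le_max_right _ _
    · obtain ⟨t, -, rfl⟩ := List.mem_map.1 hs
      exact le_max_right _ _
    · obtain ⟨a, ha, rfl⟩ := List.mem_map.1 hs
      have := h2 a ha
      linarith
    · rw [hs]
      exact h3.le
  have hi : 2 * g.length + K.length < 2 * g.length + K.length + 1 := by omega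
  refine ks_complete hP hSel hSm (hfRows_length hE hK) hi
    (fun j => Y.getD j 0) (fun j => ?_) (fun r hr => ?_) ?_
  · rw [List.getD_eq_getElem?_getD, List.getElem?_eq_getElem (by omega)]
    exact hYn _ (List.getElem_mem _)
  · rw [← dZ_fin (hfRows_length hE hK r hr)]
    unfold hfRows at hr
    rcases List.mem_append.1 hr with hr | hr
    · obtain ⟨a, ha, rfl⟩ := List.mem_map.1 hr
      rw [hY, dZ_rowE (hE a ha) l1 l2 l3, hz, h1 a ha]
    · rcases List.mem_append.1 hr with hr | hr
      · obtain ⟨⟨a, i⟩, ha, rfl⟩ := List.mem_map.1 hr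
        have h4 := List.mk_mem_zipIdx_iff_getElem?.1 ha
        obtain ⟨hi, h5⟩ := List.getElem?_eq_some_iff.1 h4
        have h6 : a ∈ K := by
          rw [← h5]
          exact List.getElem_mem _
        rw [hY, dZ_rowI (hK a h6) l1 l2 l3 hi, hz]
        have h7 : y3.getD i 0 = -dZ a x := by
          rw [List.getD_eq_getElem?_getD, hy3, List.getElem?_map, h4]
          simp
        rw [h7]
        ring
      · rw [List.mem_singleton] at hr
        subst hr
        rw [hY, dZ_rowG rfl l1 l2 l3, hz]
        ring
  · have h6 : Y.getD (2 * g.length + K.length) 0 = dZ g x := by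
      rw [hY, List.getD_eq_getElem?_getD, List.getElem?_append_right (by omega),
        List.getElem?_append_right (by omega), List.getElem?_append_right (by omega)]
      have : 2 * g.length + K.length - y1.length - y2.length - y3.length = 0 := by omega
      rw [this]
      simp
    simp only
    rw [h6]
    exact h3

end Pool.Agent.W960
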