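import Pool.Agent.W960.Lists

set_option autoImplicit false

/-!
# Correctness of the solver
-/

namespace Pool.Agent.W960

open Pool.Agent.NPC Pool.Agent.H670R2

/-- a list as a vector of the Euclidean space -/
noncomputable def vE (k : ℕ) (u : List ℤ) : EuclideanSpace ℝ (Fin k) :=
  WithLp.toLp 2 (fun i : Fin k => ((u.getD i 0 : ℤ) : ℝ))

/-- the span of a family -/
noncomputable def spn (k : ℕ) (S : List (List ℤ)) : Submodule ℝ (EuclideanSpace ℝ (Fin k)) :=
  Submodule.span ℝ {x | ∃ s ∈ S, x = vE k s}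

def SelStmt : Prop := ∀ (k : ℕ) (R : List (List ℤ)), (∀ r ∈ R, r.length = k) →
    gdet (sel R) ≠ 0 ∧ (∀ s ∈ sel R, s.length = k) ∧ spn k (sel R) = spn k R

def ProjStmt : Prop := ∀ (k : ℕ) (S : List (List ℤ)), (∀ s ∈ S, s.length = k) → gdet S ≠ 0 →
    ∀ (y : List ℤ), y.length = k → ∀ (j : ℕ) (hj : j < k),
    (((projL S k y).getD j 0 : ℤ) : ℝ) =
      2 * gdet S * (((spn k S)ᗮ).starProjection (vE k y)) ⟨j, hj⟩

def SmallStmt : Prop := ∀ (R : List (List ℤ)) (k i : ℕ), (∀ r ∈ R, r.length = k) →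
    ∀ (hi : i < k) (x : Fin k → ℝ), (∀ j, 0 ≤ x j) →
    (∀ r ∈ R, ∑ j : Fin k, ((r.getD j 0 : ℤ) : ℝ) * x j = 0) → 0 < x ⟨i, hi⟩ →
    ∃ y : Fin k → ℝ, (∀ j, 0 ≤ y j ∧ y j ≤ 1) ∧
      (∀ r ∈ R, ∑ j : Fin k, ((r.getD j 0 : ℤ) : ℝ) * y j = 0) ∧
      1 ≤ 2 ^ bet R k * y ⟨i, hi⟩

variable {k : ℕ}

theorem vE_addL {u v : List ℤ} (h : u.length = v.length) : vE k (addL u v) = vE k u + vE k v := by
  ext i
  change (((addL u v).getD i 0 : ℤ) : ℝ) = ((u.getD i 0 : ℤ) : ℝ) + ((v.getD i 0 : ℤ) : ℝ)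
  rw [getD_addL h]
  push_cast
  ring

theorem inner_vE (u : List ℤ) (x : EuclideanSpace ℝ (Fin k)) :
    inner ℝ (vE k u) x = ∑ j : Fin k, ((u.getD j 0 : ℤ) : ℝ) * x j := by
  rw [PiLp.inner_apply]
  exact Finset.sum_congr rfl fun j _ => by
    simp [vE, mul_comm]

theorem mem_spn_orth {S : List (List ℤ)} {x : EuclideanSpace ℝ (Fin k)} :
    x ∈ (spn k S)ᗮ ↔ ∀ s ∈ S, ∑ j : Fin k, ((s.getD j 0 : ℤ) : ℝ) * x j = 0 := by
  rw [Submodule.mem_orthogonal]
  constructor
  · intro h s hs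
    rw [← inner_vE]
    exact h _ (Submodule.subset_span ⟨s, hs, rfl⟩)
  · intro h u hu
    unfold spn at hu
    induction hu using Submodule.span_induction with
    | mem y hy =>
      obtain ⟨s, hs, rfl⟩ := hy
      rw [inner_vE]
      exact h s hs
    | zero => simp
    | add a b _ _ ha hb => rw [inner_add_left, ha, hb, add_zero]
    | smul c a _ ha => rw [inner_smul_left, ha, mul_zero]

/-- a solution with entries between `0` and `1` -/
def Box (R : List (List ℤ)) (x : Fin k → ℝ) : Prop :=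
  (∀ j, 0 ≤ x j ∧ x j ≤ 1) ∧ ∀ r ∈ R, ∑ j : Fin k, ((r.getD j 0 : ℤ) : ℝ) * x j = 0

theorem rowsW_length {R : List (List ℤ)} {w : List ℤ} (hR : ∀ r ∈ R, r.length = k)
    (hw : w.length = k) : ∀ s ∈ rowsW R k w, s.length = k := by
  intro s hs
  unfold rowsW at hs
  rcases List.mem_append.1 hs with hs | hs
  · obtain ⟨r, hr, rfl⟩ := List.mem_map.1 hs
    rw [length_mulL, hR r hr, hw, min_self]
  · obtain ⟨j, -, rfl⟩ := List.mem_map.1 hs
    simp

theorem mem_rowsW {R : List (List ℤ)} {w : List ℤ} {x : EuclideanSpace ℝ (Fin k)} :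
    x ∈ (spn k (rowsW R k w))ᗮ ↔
      (∀ r ∈ R, ∑ j : Fin k, ((r.getD j 0 : ℤ) : ℝ) * (((w.getD j 0 : ℤ) : ℝ) * x j) = 0) ∧
      ∀ j : Fin k, w.getD j 0 = 0 → x j = 0 := by
  rw [mem_spn_orth]
  unfold rowsW
  constructor
  · intro h
    refine ⟨fun r hr => ?_, fun j hj => ?_⟩
    · rw [← h (mulL r w) (List.mem_append_left _ (List.mem_map_of_mem hr))]
      refine Finset.sum_congr rfl fun j _ => ?_
      rw [getD_mulL]
      push_cast
      ring
    · have := h (eL k j) (List.mem_append_right _ (List.mem_map_of_mem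
        (List.mem_filter.2 ⟨List.mem_range.2 j.2, by simpa using hj⟩)))
      rw [Finset.sum_eq_single j] at this
      · rw [getD_eL, if_pos ⟨j.2, rfl⟩] at this
        simpa using this
      · intro i _ hij
        rw [getD_eL, if_neg]
        · simp
        · rintro ⟨-, h2⟩
          exact hij (Fin.ext h2)
      · simp
  · rintro ⟨h1, h2⟩ s hs
    rcases List.mem_append.1 hs with hs | hs
    · obtain ⟨r, hr, rfl⟩ := List.mem_map.1 hs
      rw [← h1 r hr]
      refine Finset.sum_congr rfl fun j _ => ?_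
      rw [getD_mulL]
      push_cast
      ring
    · obtain ⟨j, hj, rfl⟩ := List.mem_map.1 hs
      obtain ⟨hj1, hj2⟩ := List.mem_filter.1 hj
      have hjk := List.mem_range.1 hj1
      rw [Finset.sum_eq_single ⟨j, hjk⟩]
      · rw [h2 ⟨j, hjk⟩ (by simpa using hj2), mul_zero]
      · intro i _ hij
        rw [getD_eL, if_neg]
        · simp
        · rintro ⟨-, h2⟩
          exact hij (Fin.ext h2)
      · simp

/-- the scaled solution -/
noncomputable def scl (B : ℝ) (w : List ℤ) (x : Fin k → ℝ) : EuclideanSpace ℝ (Fin k) :=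
  WithLp.toLp 2 fun j => B * x j / ((w.getD j 0 : ℤ) : ℝ)

theorem scl_mem {R : List (List ℤ)} {w : List ℤ} {B : ℝ} {x : Fin k → ℝ} (hB : 0 < B)
    (hx : Box R x) (hw : ∀ j : Fin k, 0 ≤ w.getD j 0)
    (hinv : ∀ j : Fin k, B * x j ≤ ((w.getD j 0 : ℤ) : ℝ)) :
    scl B w x ∈ (spn k (rowsW R k w))ᗮ ∧ ∀ j, 0 ≤ scl B w x j ∧ scl B w x j ≤ 1 := by
  have hw' : ∀ j : Fin k, (0 : ℝ) ≤ ((w.getD j 0 : ℤ) : ℝ) := fun j => by exact_mod_cast hw j
  have key : ∀ j : Fin k, ((w.getD j 0 : ℤ) : ℝ) * scl B w x j = B * x j := by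
    intro j
    simp only [scl]
    by_cases h0 : w.getD j 0 = 0
    · have h1 := hinv j
      rw [h0] at h1 ⊢
      have h2 := mul_nonneg hB.le (hx.1 j).1
      push_cast at h1
      simp only [Int.cast_zero, zero_mul]
      linarith
    · have h1 : ((w.getD j 0 : ℤ) : ℝ) ≠ 0 := by exact_mod_cast h0
      field_simp
  refine ⟨mem_rowsW.2 ⟨fun r hr => ?_, fun j hj => ?_⟩, fun j => ⟨?_, ?_⟩⟩
  · simp only [key]
    calc _ = B * ∑ j : Fin k, ((r.getD j 0 : ℤ) : ℝ) * x j := by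
          rw [Finset.mul_sum]
          exact Finset.sum_congr rfl fun j _ => by ring
      _ = 0 := by rw [hx.2 r hr, mul_zero]
  · simp only [scl, hj]
    simp
  · exact div_nonneg (mul_nonneg hB.le (hx.1 j).1) (hw' j)
  · exact div_le_one_of_le₀ (hinv j) (hw' j)

/-- The data of one round. -/
structure RD (S : List (List ℤ)) (k : ℕ) (w : List ℤ) : Prop where
  len : ∀ s ∈ S, s.length = k
  det : gdet S ≠ 0
  kill : ∀ j : Fin k, w.getD j 0 = 0 → ∀ x ∈ (spn k S)ᗮ, x j = 0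

theorem badj_iff {S : List (List ℤ)} {w y : List ℤ} (hP : ProjStmt) (hS : RD S k w)
    (hy : y.length = k) (j : Fin k) : badj w (projL S k y) j = true ↔
      w.getD j 0 ≠ 0 ∧ (((spn k S)ᗮ).starProjection (vE k y)) j ≤ 0 := by
  unfold badj
  rw [Bool.and_eq_true, decide_eq_true_iff, decide_eq_true_iff]
  refine and_congr_right fun _ => ?_
  have h1 := hP k S hS.len hS.det y hy j j.2
  have h2 : (0 : ℝ) < 2 * gdet S := by
    have := Nat.pos_of_ne_zero hS.det
    positivity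
  have h3 : (projL S k y).getD (↑j) 0 ≤ 0 ↔ (((projL S k y).getD (↑j) 0 : ℤ) : ℝ) ≤ 0 := by
    exact_mod_cast Iff.rfl
  rw [h3, h1]
  constructor
  · intro h
    by_contra hc
    push Not at hc
    have := mul_pos h2 hc
    linarith
  · intro h
    exact mul_nonpos_of_nonneg_of_nonpos h2.le h

/-- invariant of the perceptron -/
structure PI (S : List (List ℤ)) (k : ℕ) (w y : List ℤ) (t : ℕ) : Prop where
  len : y.length = k
  pos : ∀ j, 0 ≤ y.getD j 0
  zero : ∀ j, w.getD j 0 = 0 → y.getD j 0 = 0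
  alt : (∀ j : Fin k, badj w (projL S k y) j = false) ∨
    (∑ j : Fin k, y.getD j 0 = (t : ℤ) ∧ ‖((spn k S)ᗮ).starProjection (vE k y)‖ ^ 2 ≤ t)

theorem norm_e_le (j : Fin k) : ‖vE k (eL k j)‖ ≤ 1 := by
  have : vE k (eL k j) = EuclideanSpace.single j (1 : ℝ) := by
    ext i
    simp only [vE, getD_eL, PiLp.single_apply]
    by_cases h : i = j
    · simp [h]
    · have h' : (i : ℕ) ≠ j := fun h2 => h (Fin.ext h2)
      simp [h, h']
  rw [this]
  simp

theorem inner_e (j : Fin k) (x : EuclideanSpace ℝ (Fin k)) : inner ℝ x (vE k (eL k j)) = x j := by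
  rw [real_inner_comm, inner_vE, Finset.sum_eq_single j]
  · rw [getD_eL, if_pos ⟨j.2, rfl⟩]
    simp
  · intro i _ hij
    rw [getD_eL, if_neg]
    · simp
    · rintro ⟨-, h2⟩
      exact hij (Fin.ext h2)
  · simp

theorem PI.step {S : List (List ℤ)} {w y : List ℤ} {t : ℕ} (hP : ProjStmt) (hS : RD S k w)
    (h : PI S k w y t) : PI S k w (pstep S k w y) (t + 1) := by
  unfold pstep
  split
  · rename_i hn
    refine ⟨h.len, h.pos, h.zero, Or.inl fun j => ?_⟩
    have := List.find?_eq_none.1 hn j (List.mem_range.2 j.2)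
    simpa using this
  · rename_i j hj
    have hj1 := List.find?_some hj
    have hjk : j < k := List.mem_range.1 (List.mem_of_find?_eq_some hj)
    have hlen : y.length = (eL k j).length := by simp [h.len]
    obtain ⟨hb1, hb2⟩ := (badj_iff hP hS h.len ⟨j, hjk⟩).1 hj1
    have halt : ∑ j : Fin k, y.getD j 0 = (t : ℤ) ∧
        ‖((spn k S)ᗮ).starProjection (vE k y)‖ ^ 2 ≤ t := by
      rcases h.alt with h1 | h1
      · have := h1 ⟨j, hjk⟩
        simp only at this
        rw [hj1] at this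
        exact absurd this (by simp)
      · exact h1
    refine ⟨by rw [length_addL, h.len]; simp, fun i => ?_, fun i hi => ?_, Or.inr ⟨?_, ?_⟩⟩
    · rw [getD_addL hlen, getD_eL]
      have := h.pos i
      split_ifs <;> omega
    · rw [getD_addL hlen, getD_eL, h.zero i hi, if_neg]
      · simp
      · rintro ⟨-, rfl⟩
        exact hb1 hi
    · simp only [getD_addL hlen, Finset.sum_add_distrib, halt.1]
      rw [Finset.sum_eq_single ⟨j, hjk⟩]
      · rw [getD_eL, if_pos ⟨hjk, rfl⟩]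
        simp
      · intro i _ hij
        rw [getD_eL, if_neg]
        rintro ⟨-, h2⟩
        exact hij (Fin.ext h2)
      · simp
    · rw [vE_addL hlen, map_add]
      set P := ((spn k S)ᗮ).starProjection with hPdef
      have h1 : ‖P (vE k y) + P (vE k (eL k j))‖ ^ 2 = ‖P (vE k y)‖ ^ 2 +
          2 * inner ℝ (P (vE k y)) (P (vE k (eL k j))) + ‖P (vE k (eL k j))‖ ^ 2 :=
        norm_add_sq_real _ _
      have h2 : inner ℝ (P (vE k y)) (P (vE k (eL k j))) = (P (vE k y)) ⟨j, hjk⟩ := by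
        rw [← inner_e ⟨j, hjk⟩ (P (vE k y)), hPdef,
          ← Submodule.inner_starProjection_left_eq_right]
        congr 1
        exact Submodule.starProjection_eq_self_iff.2 (Submodule.starProjection_apply_mem _ _)
      have h3 : ‖P (vE k (eL k j))‖ ≤ 1 :=
        (Submodule.norm_starProjection_apply_le _ _).trans (norm_e_le ⟨j, hjk⟩)
      have h4 : ‖P (vE k (eL k j))‖ ^ 2 ≤ 1 := by
        have := norm_nonneg (P (vE k (eL k j)))
        nlinarith
      rw [h1, h2]
      push_cast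
      linarith [halt.2]

theorem PI.init (S : List (List ℤ)) (w : List ℤ) : PI S k w (List.replicate k 0) 0 := by
  refine ⟨by simp, fun j => by rw [getD_replicate_zero], fun j _ => by rw [getD_replicate_zero],
    Or.inr ⟨?_, ?_⟩⟩
  · simp only [getD_replicate_zero]
    simp
  · have : vE k (List.replicate k 0) = 0 := by
      ext i
      simp only [vE, getD_replicate_zero]
      simp
    rw [this]
    simp

theorem PI.run {S : List (List ℤ)} {w : List ℤ} (hP : ProjStmt) (hS : RD S k w) (t : ℕ) :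
    PI S k w ((pstep S k w)^[t] (List.replicate k 0)) t := by
  induction t with
  | zero => exact PI.init S w
  | succ t ih =>
    rw [Function.iterate_succ_apply']
    exact ih.step hP hS

/-- The end of the perceptron phase. -/
theorem prun_spec {S : List (List ℤ)} {w : List ℤ} (hP : ProjStmt) (hS : RD S k w) :
    (prun S k w).length = k ∧ (∀ j, w.getD j 0 = 0 → (prun S k w).getD j 0 = 0) ∧
    ((∃ j : Fin k, badj w (projL S k (prun S k w)) j = true) →
      (∃ j : Fin k, 4 * (k : ℤ) ^ 2 ≤ (prun S k w).getD j 0) ∧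
      ∀ j : Fin k, 4 * (k : ℤ) ^ 2 ≤ (prun S k w).getD j 0 →
        ∀ x ∈ (spn k S)ᗮ, (∀ i, 0 ≤ x i ∧ x i ≤ 1) → x j ≤ 1 / 2) := by
  have h := PI.run (k := k) hP hS (4 * k ^ 3)
  rw [show (pstep S k w)^[4 * k ^ 3] (List.replicate k 0) = prun S k w from rfl] at h
  refine ⟨h.len, h.zero, ?_⟩
  rintro ⟨j0, hj0⟩
  have halt := h.alt.resolve_left (by
    push Not
    exact ⟨j0, by rw [hj0]; simp⟩)
  have hk : 0 < k := j0.pos
  refine ⟨?_, fun j hj x hx hx01 => ?_⟩
  · by_contra hcon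
    push Not at hcon
    have h1 : ∑ j : Fin k, (prun S k w).getD j 0 < ∑ j : Fin k, 4 * (k : ℤ) ^ 2 :=
      Finset.sum_lt_sum_of_nonempty ⟨j0, Finset.mem_univ _⟩ fun j _ => hcon j
    rw [halt.1] at h1
    simp only [Finset.sum_const, Finset.card_univ, Fintype.card_fin, nsmul_eq_mul] at h1
    push_cast at h1
    have : (k : ℤ) * (4 * (k : ℤ) ^ 2) = 4 * (k : ℤ) ^ 3 := by ring
    omega
  · set y := prun S k w with hy
    have h1 : inner ℝ (vE k y) x = inner ℝ (((spn k S)ᗮ).starProjection (vE k y)) x := by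
      rw [Submodule.inner_starProjection_left_eq_right]
      congr 1
      exact (Submodule.starProjection_eq_self_iff.2 hx).symm
    have h2 : ((y.getD j 0 : ℤ) : ℝ) * x j ≤ inner ℝ (vE k y) x := by
      rw [inner_vE]
      refine Finset.single_le_sum (f := fun i : Fin k => ((y.getD i 0 : ℤ) : ℝ) * x i)
        (fun i _ => mul_nonneg (by exact_mod_cast h.pos i) (hx01 i).1) (Finset.mem_univ j)
    have h3 : inner ℝ (((spn k S)ᗮ).starProjection (vE k y)) x ≤
        ‖((spn k S)ᗮ).starProjection (vE k y)‖ * ‖x‖ := real_inner_le_norm _ _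
    have h4 : ‖x‖ ^ 2 ≤ k := by
      rw [EuclideanSpace.norm_sq_eq]
      calc ∑ i, ‖x i‖ ^ 2 ≤ ∑ _i : Fin k, (1 : ℝ) := Finset.sum_le_sum fun i _ => by
            rw [Real.norm_eq_abs, sq_abs]
            have := hx01 i
            nlinarith
        _ = k := by simp
    have h5 : (4 * (k : ℝ) ^ 2) * x j ≤ ((y.getD j 0 : ℤ) : ℝ) * x j := by
      refine mul_le_mul_of_nonneg_right ?_ (hx01 j).1
      exact_mod_cast hj
    have h6 : (4 * (k : ℝ) ^ 2) * x j ≤ ‖((spn k S)ᗮ).starProjection (vE k y)‖ * ‖x‖ :=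
      h5.trans (h2.trans (h1.le.trans h3))
    have h7 : ((4 * (k : ℝ) ^ 2) * x j) ^ 2 ≤ (4 * (k : ℝ) ^ 3) * k := by
      calc ((4 * (k : ℝ) ^ 2) * x j) ^ 2
          ≤ (‖((spn k S)ᗮ).starProjection (vE k y)‖ * ‖x‖) ^ 2 :=
            pow_le_pow_left₀ (mul_nonneg (by positivity) (hx01 j).1) h6 2
        _ = ‖((spn k S)ᗮ).starProjection (vE k y)‖ ^ 2 * ‖x‖ ^ 2 := by ring
        _ ≤ (4 * (k : ℝ) ^ 3) * k := by
            refine mul_le_mul ?_ h4 (by positivity) (by positivity)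
            have := halt.2
            push_cast at this
            exact this
    have hk' : (0 : ℝ) < (k : ℝ) ^ 4 := by positivity
    have h8 : (k : ℝ) ^ 4 * (16 * x j ^ 2) ≤ (k : ℝ) ^ 4 * 4 := by
      calc (k : ℝ) ^ 4 * (16 * x j ^ 2) = ((4 * (k : ℝ) ^ 2) * x j) ^ 2 := by ring
        _ ≤ (4 * (k : ℝ) ^ 3) * k := h7
        _ = _ := by ring
    have h9 : 16 * x j ^ 2 ≤ 4 := le_of_mul_le_mul_left h8 hk'
    nlinarith [(hx01 j).1]

end Pool.Agent.W960
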