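import Pool.Agent.W960.Ks

set_option autoImplicit false

/-!
# Correctness of the solver: the rounds
-/

namespace Pool.Agent.W960

open Pool.Agent.NPC Pool.Agent.H670R2

variable {k : ℕ}

theorem rd_of {R : List (List ℤ)} {w : List ℤ} (hSel : SelStmt) (hR : ∀ r ∈ R, r.length = k)
    (hw : w.length = k) : RD (sel (rowsW R k w)) k w ∧
      (spn k (sel (rowsW R k w)))ᗮ = (spn k (rowsW R k w))ᗮ := by
  obtain ⟨h1, h2, h3⟩ := hSel k (rowsW R k w) (rowsW_length hR hw)
  refine ⟨⟨h2, h1, fun j hj x hx => ?_⟩, by rw [h3]⟩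
  rw [h3] at hx
  exact (mem_rowsW.1 hx).2 j hj

/-- the coordinates of the projection at the end of the perceptron phase -/
def zz (R : List (List ℤ)) (k : ℕ) (w : List ℤ) : List ℤ :=
  projL (sel (rowsW R k w)) k (prun (sel (rowsW R k w)) k w)

/-- invariant of the rounds -/
structure WI (R : List (List ℤ)) (k : ℕ) (w : List ℤ) : Prop where
  len : w.length = k
  two : ∀ j : Fin k, w.getD j 0 = 0 ∨ ∃ e : ℕ, w.getD j 0 = 2 ^ e
  inv : ∀ x : Fin k → ℝ, Box R x → ∀ j : Fin k, 2 ^ bet R k * x j ≤ ((w.getD j 0 : ℤ) : ℝ)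

/-- the potential -/
def pot (k : ℕ) (w : List ℤ) : ℕ := ∑ j : Fin k, (w.getD j 0).natAbs.size

theorem WI.nonneg {R : List (List ℤ)} {w : List ℤ} (h : WI R k w) (j : Fin k) :
    0 ≤ w.getD j 0 := by
  rcases h.two j with h1 | ⟨e, h1⟩
  · omega
  · rw [h1]; positivity

theorem getD_halve (w : List ℤ) (j i : ℕ) (hi : i < k) :
    (halve k w j).getD i 0 = if i = j then w.getD i 0 / 2 else w.getD i 0 := by
  unfold halve
  rw [getD_map_range, if_pos hi]

theorem rnd_eq (R : List (List ℤ)) (w : List ℤ) : rnd R k w =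
    if (List.range k).any (badj w (zz R k w)) then
      match (List.range k).find?
        (fun j => decide (4 * (k : ℤ) ^ 2 ≤ (prun (sel (rowsW R k w)) k w).getD j 0)) with
      | none => w
      | some j => halve k w j
    else w := rfl

theorem rnd_good {R : List (List ℤ)} {w : List ℤ} (h : ∀ j : Fin k, badj w (zz R k w) j = false) :
    rnd R k w = w := by
  rw [rnd_eq, if_neg]
  rw [List.any_eq_true]
  rintro ⟨j, hj, h1⟩
  have := h ⟨j, List.mem_range.1 hj⟩
  simp only at this
  rw [this] at h1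
  exact absurd h1 (by simp)

theorem size_half {n : ℕ} (h : 0 < n) : (n / 2).size + 1 ≤ n.size := by
  rcases Nat.eq_zero_or_pos (n / 2) with h0 | h0
  · rw [h0, Nat.size_zero]
    exact Nat.size_pos.2 h
  · obtain ⟨s, hs⟩ : ∃ s, (n / 2).size = s + 1 := ⟨(n / 2).size - 1, by
      have := Nat.size_pos.2 h0
      omega⟩
    have h1 : 2 ^ s ≤ n / 2 := Nat.lt_size.1 (by omega)
    have h2 : s + 1 < n.size := by
      rw [Nat.lt_size, pow_succ]
      omega
    omega

theorem rnd_bad {R : List (List ℤ)} {w : List ℤ} (hP : ProjStmt) (hSel : SelStmt)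
    (hSm : SmallStmt) (hR : ∀ r ∈ R, r.length = k) (hw : WI R k w)
    (hb : ∃ j : Fin k, badj w (zz R k w) j = true) :
    WI R k (rnd R k w) ∧ pot k (rnd R k w) + 1 ≤ pot k w := by
  obtain ⟨hrd, hspn⟩ := rd_of hSel hR hw.len
  obtain ⟨h1, h2, h3⟩ := prun_spec hP hrd
  obtain ⟨h4, h5⟩ := h3 hb
  have hany : (List.range k).any (badj w (zz R k w)) = true := by
    obtain ⟨j, hj⟩ := hb
    exact List.any_eq_true.2 ⟨j, List.mem_range.2 j.2, hj⟩
  rw [rnd_eq, if_pos hany]
  split
  · rename_i hn
    obtain ⟨j, hj⟩ := h4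
    have := List.find?_eq_none.1 hn j (List.mem_range.2 j.2)
    simp only [decide_eq_true_eq] at this
    exact absurd hj this
  · rename_i j hj
    have hj1 := List.find?_some hj
    rw [decide_eq_true_iff] at hj1
    have hjk : j < k := List.mem_range.1 (List.mem_of_find?_eq_some hj)
    have hwj : w.getD j 0 ≠ 0 := by
      intro h0
      rw [h2 j h0] at hj1
      have : (0 : ℤ) < (k : ℤ) ^ 2 := by
        have : (0 : ℤ) < k := by omega
        positivity
      omega
    obtain ⟨e, he⟩ := (hw.two ⟨j, hjk⟩).resolve_left hwj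
    simp only at he
    have hhalf : ∀ x : Fin k → ℝ, Box R x →
        2 ^ bet R k * x ⟨j, hjk⟩ ≤ ((w.getD j 0 : ℤ) : ℝ) / 2 := by
      intro x hx
      have h6 := scl_mem (B := 2 ^ bet R k) (by positivity) hx hw.nonneg (hw.inv x hx)
      have h7 := h5 ⟨j, hjk⟩ hj1 (scl (2 ^ bet R k) w x) (by rw [hspn]; exact h6.1) h6.2
      simp only [scl] at h7
      have h8 : (0 : ℝ) < ((w.getD j 0 : ℤ) : ℝ) := by
        rw [he]
        positivity
      rw [div_le_iff₀ h8] at h7
      linarith
    refine ⟨⟨by simp [halve], fun i => ?_, fun x hx i => ?_⟩, ?_⟩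
    · rw [getD_halve _ _ _ i.2]
      split_ifs with hij
      · rw [hij, he]
        rcases Nat.eq_zero_or_pos e with h0 | h0
        · left
          rw [h0]
          norm_num
        · right
          obtain ⟨e', rfl⟩ : ∃ e', e = e' + 1 := ⟨e - 1, by omega⟩
          exact ⟨e', by rw [pow_succ]; omega⟩
      · exact hw.two i
    · rw [getD_halve _ _ _ i.2]
      split_ifs with hij
      · have hi : i = ⟨j, hjk⟩ := Fin.ext hij
        subst hi
        simp only
        rw [he]
        have h7 := hhalf x hx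
        rw [he] at h7
        rcases Nat.eq_zero_or_pos e with h0 | h0
        · rw [h0] at h7 ⊢
          norm_num at h7 ⊢
          by_contra hcon
          push Not at hcon
          have hxj : 0 < x ⟨j, hjk⟩ := by
            by_contra hc
            push Not at hc
            have : 2 ^ bet R k * x ⟨j, hjk⟩ ≤ 0 :=
              mul_nonpos_of_nonneg_of_nonpos (by positivity) hc
            linarith
          obtain ⟨y, hy1, hy2, hy3⟩ := hSm R k j hR hjk x (fun i => (hx.1 i).1) hx.2 hxj
          have h8 := hhalf y ⟨hy1, hy2⟩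
          rw [he, h0] at h8
          norm_num at h8
          linarith
        · obtain ⟨e', rfl⟩ : ∃ e', e = e' + 1 := ⟨e - 1, by omega⟩
          have h8 : (2 : ℤ) ^ (e' + 1) / 2 = 2 ^ e' := by rw [pow_succ]; omega
          rw [h8]
          push_cast at h7 ⊢
          rw [pow_succ] at h7
          linarith
      · exact hw.inv x hx i
    · unfold pot
      have h9 : ∑ i : Fin k, ((halve k w j).getD i 0).natAbs.size +
          ∑ i : Fin k, (if i = ⟨j, hjk⟩ then 1 else 0) ≤
          ∑ i : Fin k, (w.getD i 0).natAbs.size := by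
        rw [← Finset.sum_add_distrib]
        refine Finset.sum_le_sum fun i _ => ?_
        rw [getD_halve _ _ _ i.2]
        by_cases hij : (i : ℕ) = j
        · have hi : i = ⟨j, hjk⟩ := Fin.ext hij
          rw [if_pos hij, if_pos hi, hij, he]
          have h10 : ((2 : ℤ) ^ e / 2).natAbs = 2 ^ e / 2 := by
            have : ((2 : ℤ) ^ e / 2) = ((2 ^ e / 2 : ℕ) : ℤ) := by push_cast; rfl
            rw [this, Int.natAbs_natCast]
          have h11 : ((2 : ℤ) ^ e).natAbs = 2 ^ e := by
            rw [Int.natAbs_pow]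
            rfl
          rw [h10, h11]
          exact size_half (by positivity)
        · have hi : i ≠ ⟨j, hjk⟩ := fun h => hij (by rw [h])
          rw [if_neg hij, if_neg hi, add_zero]
      simpa using h9

theorem rnd_spec {R : List (List ℤ)} (hP : ProjStmt) (hSel : SelStmt)
    (hSm : SmallStmt) (hR : ∀ r ∈ R, r.length = k) (t : ℕ) :
    WI R k ((rnd R k)^[t] (List.replicate k (2 ^ bet R k))) ∧
      ((∀ j : Fin k, badj ((rnd R k)^[t] (List.replicate k (2 ^ bet R k)))
        (zz R k ((rnd R k)^[t] (List.replicate k (2 ^ bet R k)))) j = false) ∨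
      pot k ((rnd R k)^[t] (List.replicate k (2 ^ bet R k))) + t ≤ k * (bet R k + 1)) := by
  induction t with
  | zero =>
    refine ⟨⟨by simp, fun j => ?_, fun x hx j => ?_⟩, Or.inr ?_⟩
    · rw [Function.iterate_zero_apply, getD_replicate _ _ _ j.2]
      exact Or.inr ⟨_, rfl⟩
    · rw [Function.iterate_zero_apply, getD_replicate _ _ _ j.2]
      push_cast
      have := (hx.1 j).2
      have h2 : (0 : ℝ) ≤ 2 ^ bet R k := by positivity
      nlinarith
    · rw [Function.iterate_zero_apply]
      unfold pot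
      have : ∀ j : Fin k, ((List.replicate k ((2 : ℤ) ^ bet R k)).getD j 0).natAbs.size =
          bet R k + 1 := by
        intro j
        rw [getD_replicate _ _ _ j.2, Int.natAbs_pow]
        exact Nat.size_pow
      simp only [this]
      simp
  | succ t ih =>
    rw [Function.iterate_succ_apply']
    set w := (rnd R k)^[t] (List.replicate k (2 ^ bet R k)) with hw
    obtain ⟨ih1, ih2⟩ := ih
    by_cases hg : ∀ j : Fin k, badj w (zz R k w) j = false
    · rw [rnd_good hg]
      exact ⟨ih1, Or.inl hg⟩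
    · have hb : ∃ j : Fin k, badj w (zz R k w) j = true := by
        push Not at hg
        obtain ⟨j, hj⟩ := hg
        exact ⟨j, by simpa using hj⟩
      obtain ⟨h1, h2⟩ := rnd_bad hP hSel hSm hR ih1 hb
      exact ⟨h1, Or.inr (by have := ih2.resolve_left hg; omega)⟩

theorem wfin_spec {R : List (List ℤ)} (hP : ProjStmt) (hSel : SelStmt)
    (hSm : SmallStmt) (hR : ∀ r ∈ R, r.length = k) :
    WI R k (wfin R k) ∧ ∀ j : Fin k, badj (wfin R k) (zz R k (wfin R k)) j = false := by
  obtain ⟨h1, h2⟩ := rnd_spec hP hSel hSm hR (k * (bet R k + 1))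
  refine ⟨h1, ?_⟩
  rcases h2 with h2 | h2
  · exact h2
  · intro j
    have h3 : pot k (wfin R k) = 0 := by
      unfold wfin
      omega
    unfold pot at h3
    rw [Finset.sum_eq_zero_iff] at h3
    have h4 := h3 j (Finset.mem_univ _)
    rw [Nat.size_eq_zero, Int.natAbs_eq_zero] at h4
    unfold badj
    rw [h4]
    simp

/-- Soundness of the solver. -/
theorem ks_sound {R : List (List ℤ)} {i : ℕ} {x : List ℤ} (h : ks R k i = some x) :
    x.length = k ∧ (∀ a ∈ x, 0 ≤ a) ∧ (∀ r ∈ R, dotL r x = 0) ∧ 0 < x.getD i 0 := by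
  unfold ks at h
  split_ifs at h with h1
  obtain rfl := Option.some.inj h
  unfold ktest at h1
  simpa [and_assoc] using h1

/-- Completeness of the solver. -/
theorem ks_complete {R : List (List ℤ)} {i : ℕ} (hP : ProjStmt) (hSel : SelStmt)
    (hSm : SmallStmt) (hR : ∀ r ∈ R, r.length = k) (hi : i < k) (x : Fin k → ℝ)
    (hx0 : ∀ j, 0 ≤ x j) (hx : ∀ r ∈ R, ∑ j : Fin k, ((r.getD j 0 : ℤ) : ℝ) * x j = 0)
    (hxi : 0 < x ⟨i, hi⟩) : (ks R k i).isSome = true := by
  obtain ⟨hW, hg⟩ := wfin_spec hP hSel hSm hR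
  set w := wfin R k with hw
  obtain ⟨hrd, hspn⟩ := rd_of hSel hR hW.len
  obtain ⟨h1, h2, -⟩ := prun_spec hP hrd
  obtain ⟨y, hy1, hy2, hy3⟩ := hSm R k i hR hi x hx0 hx hxi
  have hwi : w.getD i 0 ≠ 0 := by
    intro h0
    have := hW.inv y ⟨hy1, hy2⟩ ⟨i, hi⟩
    simp only [h0] at this
    push_cast at this
    linarith
  have hz : ∀ j : Fin k, w.getD j 0 ≠ 0 → 0 < (zz R k w).getD j 0 := by
    intro j hj
    have := hg j
    unfold badj at this
    rw [Bool.and_eq_false_iff, decide_eq_false_iff_not, decide_eq_false_iff_not] at this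
    rcases this with h3 | h3
    · exact absurd hj h3
    · omega
  have hcand : kcand R k = mulL w (zz R k w) := rfl
  have hlen : (kcand R k).length = k := by
    rw [hcand, length_mulL, hW.len]
    simp [zz, length_projL]
  have htest : ktest R k i (kcand R k) = true := by
    unfold ktest
    rw [Bool.and_eq_true, Bool.and_eq_true, Bool.and_eq_true, decide_eq_true_iff,
      decide_eq_true_iff, List.all_eq_true, List.all_eq_true]
    refine ⟨⟨⟨hlen, ?_⟩, ?_⟩, ?_⟩
    · simp only [decide_eq_true_eq]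
      rw [mem_of_getD hlen]
      intro j hj
      rw [hcand, getD_mulL]
      by_cases h0 : w.getD j 0 = 0
      · rw [h0, zero_mul]
      · exact mul_nonneg (hW.nonneg ⟨j, hj⟩) (hz ⟨j, hj⟩ h0).le
    · intro r hr
      rw [decide_eq_true_iff, dotL_fin (hR r hr)]
      have h3 : ((spn k (sel (rowsW R k w)))ᗮ).starProjection
          (vE k (prun (sel (rowsW R k w)) k w)) ∈ (spn k (rowsW R k w))ᗮ := by
        rw [← hspn]
        exact Submodule.starProjection_apply_mem _ _
      have h4 := (mem_rowsW.1 h3).1 r hr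
      have h5 : ((∑ j : Fin k, r.getD j 0 * (kcand R k).getD j 0 : ℤ) : ℝ) = 0 := by
        push_cast
        calc _ = ∑ j : Fin k, 2 * (gdet (sel (rowsW R k w)) : ℝ) * (((r.getD j 0 : ℤ) : ℝ) *
              (((w.getD j 0 : ℤ) : ℝ) * (((spn k (sel (rowsW R k w)))ᗮ).starProjection
                (vE k (prun (sel (rowsW R k w)) k w))) j)) := by
              refine Finset.sum_congr rfl fun j _ => ?_
              rw [hcand, getD_mulL]
              have := hP k _ hrd.len hrd.det _ h1 j j.2
              unfold zz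
              push_cast
              rw [this]
              ring
          _ = 0 := by rw [← Finset.mul_sum, h4, mul_zero]
      exact_mod_cast h5
    · rw [hcand, getD_mulL]
      have h3 := hW.nonneg ⟨i, hi⟩
      simp only at h3
      exact mul_pos (by omega) (hz ⟨i, hi⟩ hwi)
  unfold ks
  rw [if_pos htest]
  rfl

end Pool.Agent.W960
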