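import Pool.Agent.W960.Alg

set_option autoImplicit false

/-!
# Entries of lists
-/

namespace Pool.Agent.W960

open Pool.Agent.NPC Pool.Agent.H670R2

theorem getD_mulL (u v : List ℤ) (j : ℕ) : (mulL u v).getD j 0 = u.getD j 0 * v.getD j 0 := by
  unfold mulL
  simp only [List.getD_eq_getElem?_getD, List.getElem?_zipWith]
  cases u[j]? <;> cases v[j]? <;> simp

theorem getD_addL {u v : List ℤ} (h : u.length = v.length) (j : ℕ) :
    (addL u v).getD j 0 = u.getD j 0 + v.getD j 0 := by
  unfold addL
  simp only [List.getD_eq_getElem?_getD, List.getElem?_zipWith]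
  rcases Nat.lt_or_ge j u.length with hj | hj
  · rw [List.getElem?_eq_getElem hj, List.getElem?_eq_getElem (h ▸ hj)]
    simp
  · rw [List.getElem?_eq_none hj, List.getElem?_eq_none (h ▸ hj)]
    simp

theorem getD_smulL (a : ℤ) (u : List ℤ) (j : ℕ) : (smulL a u).getD j 0 = a * u.getD j 0 := by
  unfold smulL
  simp only [List.getD_eq_getElem?_getD, List.getElem?_map]
  cases u[j]? <;> simp

theorem getD_negL (u : List ℤ) (j : ℕ) : (negL u).getD j 0 = -u.getD j 0 := by
  unfold negL
  simp only [List.getD_eq_getElem?_getD, List.getElem?_map]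
  cases u[j]? <;> simp

theorem getD_map_range (k : ℕ) (f : ℕ → ℤ) (j : ℕ) :
    ((List.range k).map f).getD j 0 = if j < k then f j else 0 := by
  simp only [List.getD_eq_getElem?_getD, List.getElem?_map]
  split_ifs with h
  · rw [List.getElem?_range h]
    simp
  · rw [List.getElem?_eq_none (by simpa using h)]
    simp

theorem getD_eL (k j i : ℕ) : (eL k j).getD i 0 = if i < k ∧ i = j then 1 else 0 := by
  unfold eL
  rw [getD_map_range]
  split_ifs <;> first | rfl | omega

@[simp] theorem length_eL (k j : ℕ) : (eL k j).length = k := by simp [eL]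

@[simp] theorem length_negL (u : List ℤ) : (negL u).length = u.length := by simp [negL]

@[simp] theorem length_smulL (a : ℤ) (u : List ℤ) : (smulL a u).length = u.length := by
  simp [smulL]

theorem length_mulL (u v : List ℤ) : (mulL u v).length = min u.length v.length := by
  simp [mulL]

theorem length_addL (u v : List ℤ) : (addL u v).length = min u.length v.length := by
  simp [addL]

theorem length_projL (S : List (List ℤ)) (k : ℕ) (y : List ℤ) : (projL S k y).length = k := by
  simp [projL]

theorem getD_replicate (k : ℕ) (a : ℤ) (j : ℕ) (hj : j < k) : (List.replicate k a).getD j 0 = a := by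
  simp [List.getD_eq_getElem?_getD, hj]

theorem getD_replicate_zero (k : ℕ) (j : ℕ) : (List.replicate k (0 : ℤ)).getD j 0 = 0 := by
  simp only [List.getD_eq_getElem?_getD, List.getElem?_replicate]
  split_ifs <;> simp

theorem getD_of_ge {u : List ℤ} {j : ℕ} (h : u.length ≤ j) : u.getD j 0 = 0 := by
  simp [List.getD_eq_getElem?_getD, List.getElem?_eq_none h]

theorem dotL_fin {u v : List ℤ} {k : ℕ} (hu : u.length = k) :
    dotL u v = ∑ j : Fin k, u.getD j 0 * v.getD j 0 := by
  rw [dotL_eq_sum, hu, Finset.sum_range]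

theorem dotL_fin' {u v : List ℤ} {k : ℕ} (hv : v.length = k) :
    dotL u v = ∑ j : Fin k, u.getD j 0 * v.getD j 0 := by
  rw [dotL_comm, dotL_fin hv]
  exact Finset.sum_congr rfl fun j _ => mul_comm _ _

theorem mem_of_getD {u : List ℤ} {k : ℕ} (hu : u.length = k) {P : ℤ → Prop} :
    (∀ a ∈ u, P a) ↔ ∀ j < k, P (u.getD j 0) := by
  subst hu
  constructor
  · intro h j hj
    rw [List.getD_eq_getElem?_getD, List.getElem?_eq_getElem hj]
    exact h _ (List.getElem_mem hj)
  · intro h a ha
    obtain ⟨j, hj, rfl⟩ := List.getElem_of_mem ha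
    have := h j hj
    rwa [List.getD_eq_getElem?_getD, List.getElem?_eq_getElem hj] at this

end Pool.Agent.W960
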