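import Pool.Agent.W960.Re

set_option autoImplicit false

/-!
# Edges and steps
-/

namespace Pool.Agent.W960

open Pool.Agent.NPC Pool.Agent.H670R2 Matrix

section

variable {H : List (List ℤ)} {g : List ℤ} {n : ℕ}

/-- Canonical coordinates of a point which is determined by its tight constraints. -/
theorem canon_spec (hy : Hyp) (h : WF H g n) {p : List ℤ} (hp : ok n p)
    (hdet : ∀ x : Fin n → ℝ, (∀ i < H.length, aR H n i ⬝ᵥ pos n p = bR H n i →
      aR H n i ⬝ᵥ x = bR H n i) → x = pos n p) :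
    ∃ v, canon H g p = some v ∧ ok n v ∧ pos n v = pos n p := by
  have hlen : ∀ a ∈ ((List.range H.length).filter (tightF H p)).map (row H),
      a.length = (eT g).length := by
    intro a ha
    rw [length_eT]
    exact map_row_length h (fun i hi => List.mem_range.1 (List.mem_filter.1 hi).1) a ha
  have h1 : (canon H g p).isSome = true := by
    unfold canon
    rw [HF_iff hy hlen (by simp)]
    refine ⟨rl p, by simp [rl, length_eT, h.g_len, hp.1], fun a ha => ?_, by simp, ?_⟩
    · obtain ⟨i, hi, rfl⟩ := List.mem_map.1 ha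
      have h2 := (List.mem_filter.1 hi).2
      unfold tightF at h2
      rw [decide_eq_true_iff] at h2
      rw [dZ_rl, h2]
      simp
    · rw [dZ_eT h, getD_rl]
      exact_mod_cast hp.2
  obtain ⟨v, hv⟩ := Option.isSome_iff_exists.1 h1
  obtain ⟨h2, h3, -, h5⟩ := HF_sound hlen (by simp) hv
  rw [dotL_eT h] at h5
  have hok : ok n v := ⟨by rw [h2, length_eT, h.g_len], h5⟩
  refine ⟨v, hv, hok, hdet _ fun i hi ht => ?_⟩
  rw [← tightF_iff h hi hok]
  unfold tightF
  rw [decide_eq_true_iff]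
  exact h3 _ (List.mem_map_of_mem (List.mem_filter.2 ⟨List.mem_range.2 hi,
    (tightF_iff h hi hp).2 ht⟩))

/-- Invariant of the greedy choice. -/
theorem greedy_aux (hy : Hyp) (h : WF H g n) {K : List ℕ} {p : List ℤ} (hp : ok n p)
    (hK : ∀ i ∈ K, i < H.length) (l : List ℕ) (hl : ∀ i ∈ l, i ∈ K ∧ tightF H p i = true) :
    ∀ T : List ℕ, (∀ i ∈ T, i < H.length) → (∃ d, ImpDir H g n T K p d) →
    (∀ i ∈ T, i ∈ l.foldl (fun T i => if (dirT H g (i :: T) K p).isSome then i :: T else T) T) ∧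
    (∀ i ∈ l.foldl (fun T i => if (dirT H g (i :: T) K p).isSome then i :: T else T) T,
      i ∈ T ∨ i ∈ l) ∧
    (∃ d, ImpDir H g n
      (l.foldl (fun T i => if (dirT H g (i :: T) K p).isSome then i :: T else T) T) K p d) ∧
    ∀ i ∈ l, ∀ d, ImpDir H g n
      (l.foldl (fun T i => if (dirT H g (i :: T) K p).isSome then i :: T else T) T) K p d →
      aR H n i ⬝ᵥ d = 0 →
      i ∈ l.foldl (fun T i => if (dirT H g (i :: T) K p).isSome then i :: T else T) T := by
  induction l with
  | nil =>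
    intro T hT hd
    exact ⟨fun i hi => hi, fun i hi => Or.inl hi, hd, by simp⟩
  | cons j l ih =>
    intro T hT hd
    have hj := hl j List.mem_cons_self
    have hl' : ∀ i ∈ l, i ∈ K ∧ tightF H p i = true := fun i hi => hl i (List.mem_cons_of_mem _ hi)
    have hjT : ∀ i ∈ j :: T, i < H.length := by
      intro i hi
      rcases List.mem_cons.1 hi with rfl | hi
      · exact hK _ hj.1
      · exact hT i hi
    rw [List.foldl_cons]
    have hiff := dirT_iff hy h hp hjT hK
    by_cases hc : (dirT H g (j :: T) K p).isSome = true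
    · rw [if_pos hc]
      obtain ⟨h1, h2, h3, h4⟩ := ih hl' (j :: T) hjT (hiff.1 hc)
      refine ⟨fun i hi => h1 i (List.mem_cons_of_mem _ hi), fun i hi => ?_, h3, ?_⟩
      · rcases h2 i hi with h5 | h5
        · rcases List.mem_cons.1 h5 with rfl | h5
          · exact Or.inr List.mem_cons_self
          · exact Or.inl h5
        · exact Or.inr (List.mem_cons_of_mem _ h5)
      · intro i hi d hd' h0
        rcases List.mem_cons.1 hi with rfl | hi
        · exact h1 _ List.mem_cons_self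
        · exact h4 i hi d hd' h0
    · rw [if_neg hc]
      obtain ⟨h1, h2, h3, h4⟩ := ih hl' T hT hd
      refine ⟨h1, fun i hi => ?_, h3, ?_⟩
      · rcases h2 i hi with h5 | h5
        · exact Or.inl h5
        · exact Or.inr (List.mem_cons_of_mem _ h5)
      · intro i hi d hd' h0
        rcases List.mem_cons.1 hi with rfl | hi
        · exfalso
          refine hc (hiff.2 ⟨d, fun q hq => ?_, hd'.2.1, hd'.2.2⟩)
          rcases List.mem_cons.1 hq with rfl | hq
          · exact h0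
          · exact hd'.1 q (h1 q hq)
        · exact h4 i hi d hd' h0

theorem greedy_spec (hy : Hyp) (h : WF H g n) {E K : List ℕ} {p : List ℤ} (hp : ok n p)
    (hE : ∀ i ∈ E, i < H.length) (hK : ∀ i ∈ K, i < H.length)
    (hd : ∃ d, ImpDir H g n E K p d) :
    (∀ i ∈ E, i ∈ greedy H g E K p) ∧ (∀ i ∈ greedy H g E K p, i < H.length) ∧
    (∀ i ∈ greedy H g E K p, i ∈ E ∨ (i ∈ K ∧ aR H n i ⬝ᵥ pos n p = bR H n i)) ∧
    (∃ d, ImpDir H g n (greedy H g E K p) K p d) ∧
    ∀ i ∈ K, aR H n i ⬝ᵥ pos n p = bR H n i → ∀ d, ImpDir H g n (greedy H g E K p) K p d →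
      aR H n i ⬝ᵥ d = 0 → i ∈ greedy H g E K p := by
  have hl : ∀ i ∈ K.filter (tightF H p), i ∈ K ∧ tightF H p i = true :=
    fun i hi => List.mem_filter.1 hi
  obtain ⟨h1, h2, h3, h4⟩ := greedy_aux hy h hp hK (K.filter (tightF H p)) hl E hE hd
  refine ⟨h1, fun i hi => ?_, fun i hi => ?_, h3, fun i hi ht d hd' h0 =>
    h4 i (List.mem_filter.2 ⟨hi, (tightF_iff h (hK i hi) hp).2 ht⟩) d hd' h0⟩
  · rcases h2 i hi with h5 | h5
    · exact hE i h5
    · exact hK i (hl i h5).1
  · rcases h2 i hi with h5 | h5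
    · exact Or.inl h5
    · exact Or.inr ⟨(hl i h5).1, (tightF_iff h (hK i (hl i h5).1) hp).1 (hl i h5).2⟩

/-- A direction in which a maximal set of constraints stays tight is an edge direction. -/
theorem edge_of_greedy {a : ℕ → Fin n → ℝ} {b : ℕ → ℝ} {c : Fin n → ℝ} {E K T : List ℕ}
    {p d : Fin n → ℝ} (hv : Vtx a b E K p) (hET : ∀ i ∈ E, i ∈ T)
    (hT : ∀ i ∈ T, i ∈ E ∨ (i ∈ K ∧ a i ⬝ᵥ p = b i))
    (hd : (∀ i ∈ T, a i ⬝ᵥ d = 0) ∧ (∀ i ∈ K, a i ⬝ᵥ p = b i → a i ⬝ᵥ d ≤ 0) ∧ 0 < c ⬝ᵥ d)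
    (hmax : ∀ i ∈ K, a i ⬝ᵥ p = b i → ∀ d' : Fin n → ℝ, (∀ i ∈ T, a i ⬝ᵥ d' = 0) →
      (∀ i ∈ K, a i ⬝ᵥ p = b i → a i ⬝ᵥ d' ≤ 0) → 0 < c ⬝ᵥ d' → a i ⬝ᵥ d' = 0 → i ∈ T) :
    EdgeDir a b c E K p d := by
  classical
  obtain ⟨hd1, hd2, hd3⟩ := hd
  refine ⟨fun i hi => hd1 i (hET i hi), hd2, hd3, ?_⟩
  -- reduction to directions with `c d' = 0`
  have main : ∀ e : Fin n → ℝ, (∀ i ∈ T, a i ⬝ᵥ e = 0) → c ⬝ᵥ e = 0 → e = 0 := by
    intro e he hce
    by_contra hne
    have hex : ∃ i ∈ K, a i ⬝ᵥ p = b i ∧ a i ⬝ᵥ e ≠ 0 := by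
      by_contra hcon
      push Not at hcon
      exact hne (hv.2 e (fun i hi => he i (hET i hi)) hcon)
    -- WLOG the value is positive
    have step : ∀ e : Fin n → ℝ, (∀ i ∈ T, a i ⬝ᵥ e = 0) → c ⬝ᵥ e = 0 →
        (∃ i ∈ K, a i ⬝ᵥ p = b i ∧ 0 < a i ⬝ᵥ e) → False := by
      intro e he hce hex
      set V : Finset ℕ := K.toFinset.filter fun i => a i ⬝ᵥ p = b i ∧ 0 < a i ⬝ᵥ e with hV
      have hVne : V.Nonempty := by
        obtain ⟨i, hi, h1, h2⟩ := hex
        exact ⟨i, by simp [hV, hi, h1, h2]⟩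
      obtain ⟨j, hjV, hmin⟩ := V.exists_min_image (fun i => -(a i ⬝ᵥ d) / (a i ⬝ᵥ e)) hVne
      have hj : j ∈ K ∧ a j ⬝ᵥ p = b j ∧ 0 < a j ⬝ᵥ e := by
        have := hjV
        simp only [hV, Finset.mem_filter, List.mem_toFinset] at this
        exact this
      set s : ℝ := -(a j ⬝ᵥ d) / (a j ⬝ᵥ e) with hs
      have hs0 : 0 ≤ s := div_nonneg (by have := hd2 j hj.1 hj.2.1; linarith) hj.2.2.le
      have hdot : ∀ u : Fin n → ℝ, u ⬝ᵥ (d + s • e) = u ⬝ᵥ d + s * (u ⬝ᵥ e) := by
        intro u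
        rw [dotProduct_add, dotProduct_smul, smul_eq_mul]
      have hjT : j ∈ T := by
        refine hmax j hj.1 hj.2.1 (d + s • e) (fun i hi => ?_) (fun i hi ht => ?_) ?_ ?_
        · rw [hdot, hd1 i hi, he i hi]
          ring
        · rw [hdot]
          have h1 := hd2 i hi ht
          by_cases h2 : 0 < a i ⬝ᵥ e
          · have h3 := hmin i (by simp [hV, hi, ht, h2])
            rw [le_div_iff₀ h2] at h3
            linarith
          · push Not at h2
            have := mul_nonpos_of_nonneg_of_nonpos hs0 h2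
            linarith
        · rw [hdot, hce]
          linarith
        · rw [hdot, hs]
          have := hj.2.2.ne'
          field_simp
          ring
      have := he j hjT
      linarith [hj.2.2]
    obtain ⟨i, hi, h1, h2⟩ := hex
    rcases lt_or_gt_of_ne h2 with h3 | h3
    · refine step (-e) (fun i hi => by rw [dotProduct_neg, he i hi, neg_zero])
        (by rw [dotProduct_neg, hce, neg_zero]) ⟨i, hi, h1, ?_⟩
      rw [dotProduct_neg]
      linarith
    · exact step e he hce ⟨i, hi, h1, h3⟩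
  intro d' hd'E hd'K
  refine ⟨(c ⬝ᵥ d') / (c ⬝ᵥ d), ?_⟩
  have hzero := main (d' - ((c ⬝ᵥ d') / (c ⬝ᵥ d)) • d) (fun i hi => by
    rw [dotProduct_sub, dotProduct_smul, hd1 i hi, smul_zero, sub_zero]
    rcases hT i hi with h1 | h1
    · exact hd'E i h1
    · exact hd'K i h1.1 h1.2 (hd1 i hi)) (by
    rw [dotProduct_sub, dotProduct_smul, smul_eq_mul]
    field_simp
    ring)
  exact sub_eq_zero.1 hzero

/-- The limiting constraint. -/
theorem argm_none (M : List ℕ) (p d : List ℤ) (h : argm H p d M = none) :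
    ∀ j ∈ M, dotL (row H j) d ≤ 0 := by
  classical
  by_contra hcon
  push Not at hcon
  obtain ⟨j0, hj0, hpos⟩ := hcon
  have hne : (limF H d M).toFinset.Nonempty :=
    ⟨j0, List.mem_toFinset.2 (List.mem_filter.2 ⟨hj0, by simpa using hpos⟩)⟩
  obtain ⟨j, hj, hmin⟩ := (limF H d M).toFinset.exists_min_image
    (fun i => (-(dotL (row H i) p : ℚ)) / (dotL (row H i) d : ℚ)) hne
  rw [List.mem_toFinset] at hj
  unfold argm at h
  have h1 := List.find?_eq_none.1 h j hj
  refine h1 (List.all_eq_true.2 fun l hl => ?_)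
  rw [decide_eq_true_iff]
  have h2 := hmin l (List.mem_toFinset.2 hl)
  have hjd : 0 < dotL (row H j) d := by simpa using (List.mem_filter.1 hj).2
  have hld : 0 < dotL (row H l) d := by simpa using (List.mem_filter.1 hl).2
  rw [div_le_div_iff₀ (by exact_mod_cast hjd) (by exact_mod_cast hld)] at h2
  exact_mod_cast h2

theorem argm_some {M : List ℕ} {p d : List ℤ} {j : ℕ} (h : argm H p d M = some j) :
    j ∈ M ∧ 0 < dotL (row H j) d ∧ ∀ l ∈ M, 0 < dotL (row H l) d →
      -(dotL (row H j) p) * dotL (row H l) d ≤ -(dotL (row H l) p) * dotL (row H j) d := by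
  unfold argm at h
  have h1 := List.find?_some h
  have h2 := List.mem_filter.1 (List.mem_of_find?_eq_some h)
  refine ⟨h2.1, by simpa using h2.2, fun l hl h3 => ?_⟩
  rw [List.all_eq_true] at h1
  simpa using h1 l (List.mem_filter.2 ⟨hl, by simpa using h3⟩)

/-- The direction chosen by the machine. -/
theorem dir_spec (hy : Hyp) (h : WF H g n) {E K : List ℕ} {p : List ℤ} (hp : ok n p)
    (hE : ∀ i ∈ E, i < H.length) (hK : ∀ i ∈ K, i < H.length)
    (hv : Vtx (aR H n) (bR H n) E K (pos n p))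
    (hnt : ¬ IsTop (aR H n) (bR H n) (cR g n) E K (pos n p)) :
    ∃ d, dirT H g (greedy H g E K p) K p = some d ∧ d.length = n + 1 ∧ d.getD n 0 = 0 ∧
      EdgeDir (aR H n) (bR H n) (cR g n) E K (pos n p) (vc n d) := by
  obtain ⟨h1, h2, h3, h4, h5⟩ := greedy_spec hy h hp hE hK ((not_top_iff hv.1).1 hnt)
  obtain ⟨d, hd⟩ := Option.isSome_iff_exists.1 ((dirT_iff hy h hp h2 hK).2 h4)
  obtain ⟨h6, h7, h8⟩ := dirT_some h hp h2 hK hd
  exact ⟨d, hd, h6, h7, edge_of_greedy hv h1 h3 h8 fun i hi ht d' a1 a2 a3 a4 =>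
    h5 i hi ht d' ⟨a1, a2, a3⟩ a4⟩

theorem moveF_none (hy : Hyp) (h : WF H g n) {E K W : List ℕ} {p : List ℤ} (hp : ok n p)
    (hE : ∀ i ∈ E, i < H.length) (hK : ∀ i ∈ K, i < H.length) (hW : ∀ i ∈ W, i < H.length)
    (hv : Vtx (aR H n) (bR H n) E K (pos n p))
    (hst : ∀ i ∈ W, aR H n i ⬝ᵥ pos n p < bR H n i)
    (hnt : ¬ IsTop (aR H n) (bR H n) (cR g n) E K (pos n p)) :
    (moveF H g E K W p = none → ∃ d, EdgeDir (aR H n) (bR H n) (cR g n) E K (pos n p) d ∧
      ∀ i ∈ K ++ W, aR H n i ⬝ᵥ d ≤ 0) ∧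
    (∀ p', moveF H g E K W p = some p' → ok n p' ∧ ∃ (d : Fin n → ℝ) (l : ℝ),
      EdgeDir (aR H n) (bR H n) (cR g n) E K (pos n p) d ∧
      0 < l ∧ pos n p' = pos n p + l • d ∧ pos n p' ∈ Q (aR H n) (bR H n) E (K ++ W) ∧
      ∃ j ∈ K ++ W, aR H n j ⬝ᵥ pos n p' = bR H n j ∧ 0 < aR H n j ⬝ᵥ d) := by
  obtain ⟨d, hd, hdl, hd0, hed⟩ := dir_spec hy h hp hE hK hv hnt
  have hM : ∀ i ∈ K ++ W, i < H.length := by
    intro i hi
    rcases List.mem_append.1 hi with hi | hi
    · exact hK i hi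
    · exact hW i hi
  have hdd : ∀ i < H.length, ((dotL (row H i) d : ℤ) : ℝ) = aR H n i ⬝ᵥ vc n d := by
    intro i hi
    rw [dotL_row h hi, hd0]
    simp
  have hunf : moveF H g E K W p = match argm H p d (K ++ W) with
    | none => none
    | some j => canon H g (addL (smulL (dotL (row H j) d) p) (smulL (-(dotL (row H j) p)) d)) := by
    unfold moveF
    rw [hd]
    rfl
  have htpos : (0 : ℝ) < ((p.getD n 0 : ℤ) : ℝ) := by exact_mod_cast hp.2
  cases ha : argm H p d (K ++ W) with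
  | none =>
    rw [hunf, ha]
    refine ⟨fun _ => ⟨_, hed, fun i hi => ?_⟩, fun p' hp' => absurd hp' (by simp)⟩
    rw [← hdd i (hM i hi)]
    exact_mod_cast argm_none _ _ _ ha i hi
  | some j =>
    rw [hunf, ha]
    simp only
    obtain ⟨hj1, hj2, hj3⟩ := argm_some ha
    have hjN := hM j hj1
    set q := addL (smulL (dotL (row H j) d) p) (smulL (-(dotL (row H j) p)) d) with hq
    have hlen : (smulL (dotL (row H j) d) p).length = (smulL (-(dotL (row H j) p)) d).length := by
      simp [hp.1, hdl]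
    have hqg : ∀ i, q.getD i 0 = dotL (row H j) d * p.getD i 0 + -(dotL (row H j) p) * d.getD i 0 := by
      intro i
      rw [hq, getD_addL hlen, getD_smulL, getD_smulL]
    have hqn : q.getD n 0 = dotL (row H j) d * p.getD n 0 := by
      rw [hqg, hd0]
      ring
    have hqok : ok n q := by
      refine ⟨by rw [hq, length_addL]; simp [hp.1, hdl], ?_⟩
      rw [hqn]
      exact mul_pos hj2 hp.2
    -- the step length
    set D : ℝ := aR H n j ⬝ᵥ vc n d with hD
    have hDpos : 0 < D := by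
      rw [hD, ← hdd j hjN]
      exact_mod_cast hj2
    set l : ℝ := (bR H n j - aR H n j ⬝ᵥ pos n p) / D with hl
    have hjp := dotL_row_pos h hjN hp
    have hposq : pos n q = pos n p + l • vc n d := by
      ext i
      simp only [pos, Pi.add_apply, Pi.smul_apply, smul_eq_mul, hqn, hqg]
      push_cast
      rw [hjp, hdd j hjN, ← hD, hl]
      simp only [vc]
      have h1 := htpos.ne'
      have h2 := hDpos.ne'
      field_simp
      ring
    have hjt : aR H n j ⬝ᵥ pos n p < bR H n j := by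
      rcases List.mem_append.1 hj1 with hjK | hjW
      · rcases (hv.1.2 j hjK).lt_or_eq with h1 | h1
        · exact h1
        · have := hed.2.1 j hjK h1
          linarith
      · exact hst j hjW
    have hlpos : 0 < l := div_pos (by linarith) hDpos
    have hjq : aR H n j ⬝ᵥ pos n q = bR H n j := by
      rw [hposq, dotProduct_add, dotProduct_smul, smul_eq_mul, ← hD, hl]
      field_simp
      ring
    have hdet : ∀ x : Fin n → ℝ, (∀ i < H.length, aR H n i ⬝ᵥ pos n q = bR H n i →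
        aR H n i ⬝ᵥ x = bR H n i) → x = pos n q := by
      intro x hx
      obtain ⟨s, hs⟩ := hed.2.2.2 (x - pos n q) (fun i hi => by
        have h1 : aR H n i ⬝ᵥ pos n q = bR H n i := by
          rw [hposq, dotProduct_add, dotProduct_smul, hed.1 i hi, hv.1.1 i hi]
          simp
        rw [dotProduct_sub, hx i (hE i hi) h1, h1, sub_self]) (fun i hi ht h0 => by
        have h1 : aR H n i ⬝ᵥ pos n q = bR H n i := by
          rw [hposq, dotProduct_add, dotProduct_smul, h0, ht]
          simp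
        rw [dotProduct_sub, hx i (hK i hi) h1, h1, sub_self])
      have h1 : aR H n j ⬝ᵥ (x - pos n q) = 0 := by
        rw [dotProduct_sub, hx j hjN hjq, hjq, sub_self]
      rw [hs, dotProduct_smul, smul_eq_mul, ← hD] at h1
      have h2 : s = 0 := (mul_eq_zero.1 h1).resolve_right hDpos.ne'
      rw [h2, zero_smul] at hs
      exact sub_eq_zero.1 hs
    obtain ⟨v, hv1, hv2, hv3⟩ := canon_spec hy h hqok hdet
    refine ⟨fun hn => ?_, fun p' hp' => ?_⟩
    · rw [hv1] at hn
      exact absurd hn (by simp)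
    · rw [hv1] at hp'
      obtain rfl := Option.some.inj hp'
      refine ⟨hv2, vc n d, l, hed, hlpos, by rw [hv3, hposq], ?_, j, hj1, by rw [hv3, hjq], hDpos⟩
      rw [hv3]
      refine ⟨fun i hi => ?_, fun i hi => ?_⟩
      · rw [hposq, dotProduct_add, dotProduct_smul, hed.1 i hi, hv.1.1 i hi]
        simp
      · have hiN := hM i hi
        have hib : aR H n i ⬝ᵥ pos n p ≤ bR H n i := by
          rcases List.mem_append.1 hi with hiK | hiW
          · exact hv.1.2 i hiK
          · exact (hst i hiW).le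
        rw [hposq, dotProduct_add, dotProduct_smul, smul_eq_mul]
        by_cases h1 : 0 < dotL (row H i) d
        · have h2 := hj3 i hi h1
          have h3 : -((dotL (row H j) p : ℤ) : ℝ) * ((dotL (row H i) d : ℤ) : ℝ) ≤
              -((dotL (row H i) p : ℤ) : ℝ) * ((dotL (row H j) d : ℤ) : ℝ) := by exact_mod_cast h2
          rw [hjp, hdd i hiN, hdd j hjN, dotL_row_pos h hiN hp, ← hD] at h3
          have h4 : (bR H n j - aR H n j ⬝ᵥ pos n p) * (aR H n i ⬝ᵥ vc n d) ≤
              (bR H n i - aR H n i ⬝ᵥ pos n p) * D := by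
            have h5 : ((p.getD n 0 : ℤ) : ℝ) *
                ((bR H n j - aR H n j ⬝ᵥ pos n p) * (aR H n i ⬝ᵥ vc n d)) ≤
                ((p.getD n 0 : ℤ) : ℝ) * ((bR H n i - aR H n i ⬝ᵥ pos n p) * D) := by
              calc _ = -(((p.getD n 0 : ℤ) : ℝ) * (aR H n j ⬝ᵥ pos n p - bR H n j)) *
                    (aR H n i ⬝ᵥ vc n d) := by ring
                _ ≤ _ := h3
                _ = _ := by ring
            exact le_of_mul_le_mul_left h5 htpos
          have h6 : l * (aR H n i ⬝ᵥ vc n d) ≤ bR H n i - aR H n i ⬝ᵥ pos n p := by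
            rw [hl, div_mul_eq_mul_div, div_le_iff₀ hDpos]
            exact h4
          linarith
        · have h2 : aR H n i ⬝ᵥ vc n d ≤ 0 := by
            rw [← hdd i hiN]
            push Not at h1
            exact_mod_cast h1
          have := mul_nonpos_of_nonneg_of_nonpos hlpos.le h2
          linarith

end

end Pool.Agent.W960
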