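import Pool.Agent.W960.Sim

set_option autoImplicit false

/-!
# The simulation lemma
-/

namespace Pool.Agent.W960

open Matrix Relation

variable {Pt : Type}
variable {n : ℕ} {a : ℕ → Fin n → ℝ} {b : ℕ → ℝ} {c : Fin n → ℝ} {N : ℕ}

theorem length_lower (F : Fns Pt) {pos : Pt → Fin n → ℝ} {ok : Pt → Prop}
    (hS : Spec F pos ok a b c N) (E K : List ℕ) (hE : ∀ i ∈ E, i < N) (hK : ∀ i ∈ K, i < N) :
    2 * (K.filter (fun i => !isUp F E K i)).length ≤ K.length := by
  classical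
  set L := K.filter (fun i => !isUp F E K i) with hL
  rcases L.eq_nil_or_concat with h0 | h0
  · rw [h0]; simp
  have hne : L.toFinset.Nonempty := by
    obtain ⟨l, x, hl⟩ := h0
    exact ⟨x, by rw [hl]; simp⟩
  obtain ⟨i₀, hi₀, hmax⟩ := L.toFinset.exists_max_image
    (fun i => val a b c (i :: E) (K.filter (fun l => decide (l ≠ i)))) hne
  rw [List.mem_toFinset] at hi₀
  have hi₀K : i₀ ∈ K ∧ (!isUp F E K i₀) = true := by
    rw [hL] at hi₀
    exact List.mem_filter.1 hi₀
  have h1 : ¬ isUp F E K i₀ = true := by simpa using hi₀K.2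
  rw [isUp, decide_eq_true_iff, not_le] at h1
  have h2 := filter_disj K (fun i => !isUp F E K i) (fun j => F.lt E K i₀ j) (by
    rintro j hj ⟨h3, h4⟩
    have h5 := hmax j (by
      rw [List.mem_toFinset, hL]
      exact List.mem_filter.2 ⟨hj, h3⟩)
    exact absurd ((hS.lt E K i₀ j hE hK hi₀K.1 hj).1 h4) (not_lt.2 h5))
  rw [← hL] at h2
  omega

/-- The precondition of a call. -/
def Pre (ok : Pt → Prop) (pos : Pt → Fin n → ℝ) (a : ℕ → Fin n → ℝ) (b : ℕ → ℝ) (c : Fin n → ℝ)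
    (N : ℕ) (E K W : List ℕ) (p : Pt) : Prop :=
  ok p ∧ (∀ i ∈ E, i < N) ∧ (∀ i ∈ K, i < N) ∧ (∀ i ∈ W, i < N) ∧ Vtx a b E K (pos p) ∧
    (∀ i ∈ W, a i ⬝ᵥ pos p < b i) ∧
    ∀ x ∈ Q a b E (K ++ W), c ⬝ᵥ pos p ≤ c ⬝ᵥ x → x ∈ PP a b N

/-- The postcondition of a call. -/
def Post (pos : Pt → Fin n → ℝ) (a : ℕ → Fin n → ℝ) (b : ℕ → ℝ) (c : Fin n → ℝ)
    (N : ℕ) (E K W : List ℕ) (p : Pt) : Prop :=
  Vtx a b E (K ++ W) (pos p) ∧ pos p ∈ PP a b N ∧
    ((∃ i ∈ W, a i ⬝ᵥ pos p = b i) ∨ IsTop a b c E K (pos p))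

/-- The result of a call. -/
def Res (F : Fns Pt) (ok : Pt → Prop) (pos : Pt → Fin n → ℝ) (a : ℕ → Fin n → ℝ) (b : ℕ → ℝ)
    (c : Fin n → ℝ) (N : ℕ) (l : List Pt) (p : Pt) (s : List Item) (s' : List Item)
    (Po : Pt → Prop) (m : ℕ) : Prop :=
  ∃ k ≤ m, ∃ p' ps', ReflTransGen (Ext a b c N pos) l (p' :: ps') ∧
    c ⬝ᵥ pos p ≤ c ⬝ᵥ pos p' ∧ ok p' ∧
    (((step F)^[k] (l, s) = (p' :: ps', s') ∧ Po p') ∨
      ((step F)^[k] (l, s) = (p' :: ps', []) ∧ Unb a b c N (pos p')))

theorem Vtx.append {E K W : List ℕ} {p : Fin n → ℝ} (h : Vtx a b E K p)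
    (hW : ∀ i ∈ W, a i ⬝ᵥ p ≤ b i) : Vtx a b E (K ++ W) p := by
  refine ⟨⟨h.1.1, fun i hi => ?_⟩, fun d h1 h2 => h.2 d h1 fun i hi h3 =>
    h2 i (List.mem_append_left _ hi) h3⟩
  rcases List.mem_append.1 hi with hi | hi
  · exact h.1.2 i hi
  · exact hW i hi

theorem Vtx.restrict {E K W : List ℕ} {p : Fin n → ℝ} (h : Vtx a b E (K ++ W) p)
    (hW : ∀ i ∈ W, a i ⬝ᵥ p ≠ b i) : Vtx a b E K p := by
  refine ⟨⟨h.1.1, fun i hi => h.1.2 i (List.mem_append_left _ hi)⟩, fun d h1 h2 =>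
    h.2 d h1 fun i hi h3 => ?_⟩
  rcases List.mem_append.1 hi with hi | hi
  · exact h2 i hi h3
  · exact absurd h3 (hW i hi)

/-- Changing the lists, when the tight constraints stay. -/
theorem Vtx.conv {E K E' K' : List ℕ} {p : Fin n → ℝ} (h : Vtx a b E K p)
    (hQ : p ∈ Q a b E' K') (hE : ∀ i ∈ E, i ∈ E' ∨ i ∈ K')
    (hK : ∀ i ∈ K, a i ⬝ᵥ p = b i → i ∈ E' ∨ i ∈ K') : Vtx a b E' K' p := by
  refine ⟨hQ, fun d h1 h2 => h.2 d (fun i hi => ?_) (fun i hi h3 => ?_)⟩
  · rcases hE i hi with h4 | h4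
    · exact h1 i h4
    · exact h2 i h4 (h.1.1 i hi)
  · rcases hK i hi h3 with h4 | h4
    · exact h1 i h4
    · exact h2 i h4 h3

theorem any_tight {F : Fns Pt} {pos : Pt → Fin n → ℝ} {ok : Pt → Prop}
    (hS : Spec F pos ok a b c N) {W : List ℕ} (hW : ∀ i ∈ W, i < N) {p : Pt} (hp : ok p) :
    W.any (F.tight p) = true ↔ ∃ i ∈ W, a i ⬝ᵥ pos p = b i := by
  rw [List.any_eq_true]
  constructor
  · rintro ⟨i, hi, h⟩
    exact ⟨i, hi, (hS.tight p i hp (hW i hi)).1 h⟩
  · rintro ⟨i, hi, h⟩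
    exact ⟨i, hi, (hS.tight p i hp (hW i hi)).2 h⟩

theorem mem_PP_iff {x : Fin n → ℝ} : x ∈ PP a b N ↔ ∀ i < N, a i ⬝ᵥ x ≤ b i := by
  constructor
  · intro h i hi
    exact h.2 i (List.mem_range.2 hi)
  · intro h
    exact ⟨fun i hi => absurd hi List.not_mem_nil, fun i hi => h i (List.mem_range.1 hi)⟩

/-- An extreme subset of the live polyhedron inside `PP` is extreme in `PP`. -/
theorem extreme_PP {E M : List ℕ} (hE : ∀ i ∈ E, i < N) (hM : ∀ i ∈ M, i < N)
    {S : Set (Fin n → ℝ)} (hS : IsExtreme ℝ (Q a b E M) S) (hSP : S ⊆ PP a b N) :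
    IsExtreme ℝ (PP a b N) S := by
  have h1 := isExtreme_face (a := a) (b := b) (A := PP a b N) (T := {i | i ∈ E})
    (fun x hx i hi => mem_PP_iff.1 hx i (hE i hi))
  refine h1.trans (hS.mono ?_ ?_)
  · rintro x ⟨hx, hT⟩
    exact ⟨fun i hi => hT i hi, fun i hi => mem_PP_iff.1 hx i (hM i hi)⟩
  · intro x hx
    exact ⟨hSP hx, fun i hi => (hS.subset hx).1 i hi⟩

theorem vtx_PP {E M : List ℕ} (hE : ∀ i ∈ E, i < N) (hM : ∀ i ∈ M, i < N) {p : Fin n → ℝ}
    (h : Vtx a b E M p) (hp : p ∈ PP a b N) : p ∈ (PP a b N).extremePoints ℝ :=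
  (h.conv (E' := []) (K' := List.range N) hp (fun i hi => Or.inr (List.mem_range.2 (hE i hi)))
    (fun i hi _ => Or.inr (List.mem_range.2 (hM i hi)))).mem_extremePoints

theorem EdgeDir.append {E K W : List ℕ} {p d : Fin n → ℝ} (h : EdgeDir a b c E K p d)
    (hW : ∀ i ∈ W, a i ⬝ᵥ p < b i) : EdgeDir a b c E (K ++ W) p d := by
  refine ⟨h.1, fun i hi h1 => ?_, h.2.2.1, fun d' h1 h2 => h.2.2.2 d' h1 fun i hi h3 h4 =>
    h2 i (List.mem_append_left _ hi) h3 h4⟩
  rcases List.mem_append.1 hi with hi | hi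
  · exact h.2.1 i hi h1
  · exact absurd h1 (hW i hi).ne

/-- The effect of a move. -/
theorem move_spec (F : Fns Pt) {pos : Pt → Fin n → ℝ} {ok : Pt → Prop}
    (hS : Spec F pos ok a b c N) {E K W : List ℕ} {p : Pt} (hpre : Pre ok pos a b c N E K W p)
    (htop : ¬ IsTop a b c E K (pos p)) :
    (F.move E K W p = none → Unb a b c N (pos p)) ∧
    ∀ p', F.move E K W p = some p' → ok p' ∧ Adj a b c N (pos p) (pos p') ∧
      Vtx a b E (K ++ W) (pos p') := by
  obtain ⟨hok, hE, hK, hW, hV, hWt, hreg⟩ := hpre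
  have hKW : ∀ i ∈ K ++ W, i < N := fun i hi => by
    rcases List.mem_append.1 hi with hi | hi
    · exact hK i hi
    · exact hW i hi
  have hV' : Vtx a b E (K ++ W) (pos p) := hV.append fun i hi => (hWt i hi).le
  have hpP : pos p ∈ PP a b N := hreg _ hV'.1 le_rfl
  constructor
  · intro hm
    obtain ⟨d, hd, hno⟩ := hS.move_none E K W p hok hE hK hW hV hWt htop hm
    have hd' := hd.append hWt
    refine ⟨d, hd.2.2.1, extreme_PP hE hKW (ray_extreme hV' hd' hno) ?_⟩
    rintro x ⟨t, ht, rfl⟩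
    refine hreg _ ((ray_extreme hV' hd' hno).subset ⟨t, ht, rfl⟩) ?_
    rw [dotProduct_add, dotProduct_smul, smul_eq_mul]
    have := mul_nonneg ht hd.2.2.1.le
    linarith
  · intro p' hm
    obtain ⟨hok', d, l, hd, hl, hp', hQ, j, hj, hjt, hjd⟩ :=
      hS.move_some E K W p p' hok hE hK hW hV hWt htop hm
    have hd' := hd.append hWt
    have hlt : c ⬝ᵥ pos p < c ⬝ᵥ pos p' := by
      rw [hp', dotProduct_add, dotProduct_smul, smul_eq_mul]
      have := mul_pos hl hd.2.2.1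
      linarith
    have hp'P : pos p' ∈ PP a b N := hreg _ hQ hlt.le
    have hQ' := hQ
    have hjt' := hjt
    rw [hp'] at hQ' hjt'
    have hV2 : Vtx a b E (K ++ W) (pos p') := by
      rw [hp']
      exact vtx_end hd' hQ' hj hjt' hjd
    have hseg : IsExtreme ℝ (Q a b E (K ++ W)) (segment ℝ (pos p) (pos p')) := by
      rw [hp']
      exact seg_extreme hV' hd' hl.le hQ' hj hjt' hjd
    have hconv : segment ℝ (pos p) (pos p') ⊆ PP a b N := by
      intro x hx
      rw [mem_PP_iff]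
      obtain ⟨s, t, hs, ht, hst, rfl⟩ := hx
      intro i hi
      rw [dotProduct_add, dotProduct_smul, dotProduct_smul, smul_eq_mul, smul_eq_mul]
      have h2 := mul_le_mul_of_nonneg_left (mem_PP_iff.1 hpP i hi) hs
      have h3 := mul_le_mul_of_nonneg_left (mem_PP_iff.1 hp'P i hi) ht
      have h4 : s * b i + t * b i = b i := by rw [← add_mul, hst, one_mul]
      linarith
    exact ⟨hok', ⟨vtx_PP hE hKW hV' hpP, vtx_PP hE hKW hV2 hp'P, hlt,
      extreme_PP hE hKW hseg hconv⟩, hV2⟩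

theorem Res.trans {F : Fns Pt} {ok : Pt → Prop} {pos : Pt → Fin n → ℝ} {l : List Pt} {p : Pt}
    {s s' s'' : List Item} {Po Po' : Pt → Prop} {m m' : ℕ}
    (h : Res F ok pos a b c N l p s s' Po m)
    (h' : ∀ p' ps', ReflTransGen (Ext a b c N pos) l (p' :: ps') → c ⬝ᵥ pos p ≤ c ⬝ᵥ pos p' →
      ok p' → Po p' → Res F ok pos a b c N (p' :: ps') p' s' s'' Po' m') :
    Res F ok pos a b c N l p s s'' Po' (m + m') := by
  obtain ⟨k, hk, p', ps', h1, h2, h3, h4 | h4⟩ := h
  · obtain ⟨k', hk', q, qs, g1, g2, g3, g4⟩ := h' p' ps' h1 h2 h3 h4.2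
    refine ⟨k' + k, by omega, q, qs, h1.trans g1, h2.trans g2, g3, ?_⟩
    rw [Function.iterate_add_apply, h4.1]
    exact g4
  · exact ⟨k, by omega, p', ps', h1, h2, h3, Or.inr h4⟩

theorem Res.one {F : Fns Pt} {ok : Pt → Prop} {pos : Pt → Fin n → ℝ} {ps : List Pt} {p : Pt}
    {s s' : List Item} {Po : Pt → Prop} (h : step F (p :: ps, s) = (p :: ps, s')) (hok : ok p)
    (hP : Po p) : Res F ok pos a b c N (p :: ps) p s s' Po 1 :=
  ⟨1, le_rfl, p, ps, ReflTransGen.refl, le_rfl, hok, Or.inl ⟨h, hP⟩⟩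

theorem Res.mono {F : Fns Pt} {ok : Pt → Prop} {pos : Pt → Fin n → ℝ} {l : List Pt} {p : Pt}
    {s s' : List Item} {Po : Pt → Prop} {m m' : ℕ} (h : Res F ok pos a b c N l p s s' Po m)
    (hm : m ≤ m') : Res F ok pos a b c N l p s s' Po m' := by
  obtain ⟨k, hk, h⟩ := h
  exact ⟨k, hk.trans hm, h⟩

theorem sim (F : Fns Pt) {pos : Pt → Fin n → ℝ} {ok : Pt → Prop}
    (hS : Spec F pos ok a b c N) : ∀ (k : ℕ) (E K W : List ℕ) (p : Pt) (ps : List Pt)
    (s : List Item) (i₀ : ℕ), K.length ≤ k → Pre ok pos a b c N E K W p →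
    Res F ok pos a b c N (p :: ps) p ((0, E, K, W, i₀) :: s) s (Post pos a b c N E K W) (T k) := by
  intro k
  induction k using Nat.strong_induction_on with
  | _ k ih =>
  intro E K W p ps s i₀ hk hpre
  obtain ⟨hok, hE, hK, hW, hV, hWt, hreg⟩ := id hpre
  have hV' : Vtx a b E (K ++ W) (pos p) := hV.append fun i hi => (hWt i hi).le
  have hpP : pos p ∈ PP a b N := hreg _ hV'.1 le_rfl
  by_cases htop : IsTop a b c E K (pos p)
  · -- optimal already
    refine (Res.one (s' := s) ?_ hok ⟨hV', hpP, Or.inr htop⟩).mono (T_pos k)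
    have := (hS.top E K p hok hE hK hV).2 htop
    simp [step, callStep, this]
  have htopb : F.top E K p = false := by
    rw [← Bool.not_eq_true]
    exact fun h => htop ((hS.top E K p hok hE hK hV).1 h)
  -- there is at least one inequality
  have hk1 : 1 ≤ k := by
    by_contra hcon
    have hK0 : K = [] := by
      rw [← List.length_eq_zero_iff]; omega
    apply htop
    intro x hx
    have h1 : x - pos p = 0 := hV.2 _ (fun i hi => by
      rw [dotProduct_sub, hx.1 i hi, hV.1.1 i hi, sub_self])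
      (fun i hi _ => by rw [hK0] at hi; exact absurd hi List.not_mem_nil)
    rw [sub_eq_zero.1 h1]
  set U := K.filter (isUp F E K) with hU
  set Lw := K.filter (fun i => !isUp F E K i) with hLw
  have hUK : ∀ i ∈ U, i ∈ K := fun i hi => (List.mem_filter.1 hi).1
  have hLK : ∀ i ∈ Lw, i ∈ K := fun i hi => (List.mem_filter.1 hi).1
  have hKUL : ∀ i ∈ K, i ∈ U ∨ i ∈ Lw := by
    intro i hi
    by_cases h : isUp F E K i = true
    · exact Or.inl (List.mem_filter.2 ⟨hi, h⟩)
    · exact Or.inr (List.mem_filter.2 ⟨hi, by simpa using h⟩)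
  have hTk : 1 + T (k / 2) + (1 + (T (k - 1) + (1 + T (k / 2)))) ≤ T k := by
    obtain ⟨k', rfl⟩ : ∃ k', k = k' + 1 := ⟨k - 1, by omega⟩
    rw [T_succ]
    simp only [Nat.add_sub_cancel]
    omega
  -- phase A
  have hA : Res F ok pos a b c N (p :: ps) p ((0, E, K, W, i₀) :: s) ((1, E, K, W, 0) :: s)
      (fun q => Vtx a b E (K ++ W) (pos q) ∧ pos q ∈ PP a b N ∧
        ((∃ i ∈ W, a i ⬝ᵥ pos q = b i) ∨ (∃ i ∈ U, a i ⬝ᵥ pos q = b i) ∨
          IsTop a b c E K (pos q))) (1 + T (k / 2)) := by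
    by_cases hUt : ∃ i ∈ U, a i ⬝ᵥ pos p = b i
    · refine (Res.one ?_ hok ⟨hV', hpP, Or.inr (Or.inl hUt)⟩).mono (by omega)
      have h1 := (any_tight hS (fun i hi => hK i (hUK i hi)) hok).2 hUt
      simp [step, callStep, htopb, ← hU, h1]
    · have hUt' : ∀ i ∈ U, a i ⬝ᵥ pos p < b i := fun i hi =>
        lt_of_le_of_ne (hV.1.2 i (hUK i hi)) fun h => hUt ⟨i, hi, h⟩
      have h1 : Res F ok pos a b c N (p :: ps) p ((0, E, K, W, i₀) :: s)
          ((0, E, Lw, W ++ U, 0) :: (1, E, K, W, 0) :: s) (fun q => q = p) 1 := by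
        refine Res.one ?_ hok rfl
        have h2 : ¬ (U.any (F.tight p) = true) := fun h =>
          hUt ((any_tight hS (fun i hi => hK i (hUK i hi)) hok).1 h)
        rw [Bool.not_eq_true] at h2
        simp only [step, callStep, htopb, ← hU, h2]
        simp [hLw]
      refine h1.trans fun q qs g1 g2 g3 g4 => ?_
      subst g4
      have hpre' : Pre ok pos a b c N E Lw (W ++ U) q := by
        refine ⟨hok, hE, fun i hi => hK i (hLK i hi), fun i hi => ?_, ?_, fun i hi => ?_, ?_⟩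
        · rcases List.mem_append.1 hi with hi | hi
          · exact hW i hi
          · exact hK i (hUK i hi)
        · refine hV.conv ⟨hV.1.1, fun i hi => hV.1.2 i (hLK i hi)⟩ (fun i hi => Or.inl hi)
            fun i hi h2 => ?_
          rcases hKUL i hi with h3 | h3
          · exact absurd h2 (hUt' i h3).ne
          · exact Or.inr h3
        · rcases List.mem_append.1 hi with hi | hi
          · exact hWt i hi
          · exact hUt' i hi
        · intro x hx hle
          refine hreg x ⟨hx.1, fun i hi => ?_⟩ hle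
          rcases List.mem_append.1 hi with hi | hi
          · rcases hKUL i hi with h3 | h3
            · exact hx.2 i (by simp [h3])
            · exact hx.2 i (by simp [h3])
          · exact hx.2 i (by simp [hi])
      have hlen := length_lower F hS E K hE hK
      rw [← hLw] at hlen
      have h2 := ih (k / 2) (by omega) E Lw (W ++ U) q qs ((1, E, K, W, 0) :: s) 0 (by omega)
        hpre'
      obtain ⟨m, hm, p', ps', e1, e2, e3, e4⟩ := h2
      refine ⟨m, hm, p', ps', e1, e2, e3, ?_⟩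
      rcases e4 with ⟨e4, e5, e6, e7⟩ | e4
      · refine Or.inl ⟨e4, ?_, e6, ?_⟩
        · refine e5.conv ⟨e5.1.1, fun i hi => ?_⟩ (fun i hi => Or.inl hi) fun i hi _ => ?_
          · rcases List.mem_append.1 hi with hi | hi
            · rcases hKUL i hi with h3 | h3
              · exact e5.1.2 i (by simp [h3])
              · exact e5.1.2 i (by simp [h3])
            · exact e5.1.2 i (by simp [hi])
          · simp only [List.mem_append] at hi
            rcases hi with hi | hi | hi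
            · exact Or.inr (List.mem_append_left _ (hLK i hi))
            · exact Or.inr (List.mem_append_right _ hi)
            · exact Or.inr (List.mem_append_left _ (hUK i hi))
        · rcases e7 with ⟨i, hi, h3⟩ | h3
          · rcases List.mem_append.1 hi with hi | hi
            · exact Or.inl ⟨i, hi, h3⟩
            · exact Or.inr (Or.inl ⟨i, hi, h3⟩)
          · exact Or.inr (Or.inr fun x hx => h3 x ⟨hx.1, fun i hi => hx.2 i (hLK i hi)⟩)
      · exact Or.inr e4
  -- the rest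
  refine (hA.trans fun p1 ps1 _ hc1 hok1 hP1 => ?_).mono hTk
  obtain ⟨hV1, hP1, hcase⟩ := hP1
  by_cases hW1 : ∃ i ∈ W, a i ⬝ᵥ pos p1 = b i
  · refine (Res.one ?_ hok1 ⟨hV1, hP1, Or.inl hW1⟩).mono (by omega)
    have h1 := (any_tight hS hW hok1).2 hW1
    simp [step, midStep, h1]
  have hW1b : W.any (F.tight p1) = false := by
    rw [← Bool.not_eq_true]
    exact fun h => hW1 ((any_tight hS hW hok1).1 h)
  have hW1t : ∀ i ∈ W, a i ⬝ᵥ pos p1 < b i := fun i hi =>
    lt_of_le_of_ne (hV1.1.2 i (List.mem_append_right _ hi)) fun h => hW1 ⟨i, hi, h⟩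
  have hVK1 : Vtx a b E K (pos p1) := hV1.restrict fun i hi => (hW1t i hi).ne
  rcases hfind : U.find? (F.tight p1) with _ | i
  · -- no upper constraint is tight
    refine (Res.one ?_ hok1 ⟨hV1, hP1, Or.inr ?_⟩).mono (by omega)
    · simp [step, midStep, hW1b, ← hU, hfind]
    · rcases hcase with h | ⟨i, hi, h⟩ | h
      · exact absurd h hW1
      · rw [List.find?_eq_none] at hfind
        exact absurd ((hS.tight p1 i hok1 (hK i (hUK i hi))).2 h) (hfind i hi)
      · exact h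
  have hiU : i ∈ U := List.mem_of_find?_eq_some hfind
  have hiK : i ∈ K := hUK i hiU
  have hiT : a i ⬝ᵥ pos p1 = b i :=
    (hS.tight p1 i hok1 (hK i hiK)).1 (List.find?_some hfind)
  set Ki := K.filter (fun j => decide (j ≠ i)) with hKi
  have hKiK : ∀ j ∈ Ki, j ∈ K := fun j hj => (List.mem_filter.1 hj).1
  have hKKi : ∀ j ∈ K, j = i ∨ j ∈ Ki := by
    intro j hj
    by_cases h : j = i
    · exact Or.inl h
    · exact Or.inr (List.mem_filter.2 ⟨hj, by simpa using h⟩)
  have hstepB : Res F ok pos a b c N (p1 :: ps1) p1 ((1, E, K, W, 0) :: s)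
      ((0, i :: E, Ki, W, 0) :: (2, E, K, W, i) :: s) (fun q => q = p1) 1 := by
    refine Res.one ?_ hok1 rfl
    simp [step, midStep, hW1b, ← hU, hfind, hKi]
  refine hstepB.trans fun q qs _ _ _ g4 => ?_
  subst g4
  -- phase B
  have hreg1 : ∀ x ∈ Q a b E (K ++ W), c ⬝ᵥ pos q ≤ c ⬝ᵥ x → x ∈ PP a b N :=
    fun x hx hle => hreg x hx (hc1.trans hle)
  have hpreB : Pre ok pos a b c N (i :: E) Ki W q := by
    refine ⟨hok1, fun j hj => ?_, fun j hj => hK j (hKiK j hj), hW, ?_, hW1t, ?_⟩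
    · rcases List.mem_cons.1 hj with rfl | hj
      · exact hK j hiK
      · exact hE j hj
    · refine hVK1.conv ⟨fun j hj => ?_, fun j hj => hVK1.1.2 j (hKiK j hj)⟩
        (fun j hj => Or.inl (List.mem_cons_of_mem _ hj)) (fun j hj _ => ?_)
      · rcases List.mem_cons.1 hj with rfl | hj
        · exact hiT
        · exact hVK1.1.1 j hj
      · rcases hKKi j hj with rfl | h
        · exact Or.inl List.mem_cons_self
        · exact Or.inr h
    · intro x hx hle
      refine hreg1 x ⟨fun j hj => hx.1 j (List.mem_cons_of_mem _ hj), fun j hj => ?_⟩ hle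
      rcases List.mem_append.1 hj with hj | hj
      · rcases hKKi j hj with rfl | h
        · exact (hx.1 j List.mem_cons_self).le
        · exact hx.2 j (List.mem_append_left _ h)
      · exact hx.2 j (List.mem_append_right _ hj)
  have hlenKi : Ki.length ≤ k - 1 := by
    have h1 : Ki.length < K.length := by
      rw [hKi]
      refine List.length_filter_lt_length_iff_exists.2 ⟨i, hiK, by simp⟩
    omega
  refine (ih (k - 1) (by omega) (i :: E) Ki W q qs ((2, E, K, W, i) :: s) 0 hlenKi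
    hpreB).trans fun p2 ps2 _ hc2 hok2 hPo2 => ?_
  obtain ⟨hV2, hP2, hcase2⟩ := hPo2
  have hV2' : Vtx a b E (K ++ W) (pos p2) := by
    refine hV2.conv ⟨fun j hj => hV2.1.1 j (List.mem_cons_of_mem _ hj), fun j hj => ?_⟩
      (fun j hj => ?_) (fun j hj _ => ?_)
    · rcases List.mem_append.1 hj with hj | hj
      · rcases hKKi j hj with rfl | h
        · exact (hV2.1.1 j List.mem_cons_self).le
        · exact hV2.1.2 j (List.mem_append_left _ h)
      · exact hV2.1.2 j (List.mem_append_right _ hj)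
    · rcases List.mem_cons.1 hj with rfl | hj
      · exact Or.inr (List.mem_append_left _ hiK)
      · exact Or.inl hj
    · rcases List.mem_append.1 hj with hj | hj
      · exact Or.inr (List.mem_append_left _ (hKiK j hj))
      · exact Or.inr (List.mem_append_right _ hj)
  by_cases hW2 : ∃ j ∈ W, a j ⬝ᵥ pos p2 = b j
  · refine (Res.one ?_ hok2 ⟨hV2', hP2, Or.inl hW2⟩).mono (by omega)
    have h1 := (any_tight hS hW hok2).2 hW2
    simp [step, endStep, h1]
  have hW2b : W.any (F.tight p2) = false := by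
    rw [← Bool.not_eq_true]
    exact fun h => hW2 ((any_tight hS hW hok2).1 h)
  have hW2t : ∀ j ∈ W, a j ⬝ᵥ pos p2 < b j := fun j hj =>
    lt_of_le_of_ne (hV2'.1.2 j (List.mem_append_right _ hj)) fun h => hW2 ⟨j, hj, h⟩
  have hVK2 : Vtx a b E K (pos p2) := hV2'.restrict fun j hj => (hW2t j hj).ne
  have htopi : IsTop a b c (i :: E) Ki (pos p2) := by
    rcases hcase2 with h | h
    · exact absurd h hW2
    · exact h
  by_cases htop2 : IsTop a b c E K (pos p2)
  · refine (Res.one ?_ hok2 ⟨hV2', hP2, Or.inr htop2⟩).mono (by omega)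
    have := (hS.top E K p2 hok2 hE hK hVK2).2 htop2
    simp [step, endStep, hW2b, this]
  have htop2b : F.top E K p2 = false := by
    rw [← Bool.not_eq_true]
    exact fun h => htop2 ((hS.top E K p2 hok2 hE hK hVK2).1 h)
  -- the move
  have hpre2 : Pre ok pos a b c N E K W p2 := ⟨hok2, hE, hK, hW, hVK2, hW2t,
    fun x hx hle => hreg1 x hx (hc2.trans hle)⟩
  have hmv := move_spec F hS hpre2 htop2
  rcases hmove : F.move E K W p2 with _ | p3
  · refine ⟨1, by omega, p2, ps2, ReflTransGen.refl, le_rfl, hok2, Or.inr ⟨?_, hmv.1 hmove⟩⟩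
    simp [step, endStep, hW2b, htop2b, hmove]
  obtain ⟨hok3, hadj, hV3⟩ := hmv.2 p3 hmove
  have hc3 := hadj.2.2.1
  have hP3 : pos p3 ∈ PP a b N := hadj.2.1.1
  have hext : ReflTransGen (Ext a b c N pos) (p2 :: ps2) (p3 :: p2 :: ps2) :=
    ReflTransGen.single ⟨p2, p3, ps2, rfl, rfl, hadj⟩
  by_cases hW3 : ∃ j ∈ W, a j ⬝ᵥ pos p3 = b j
  · refine ⟨1, by omega, p3, p2 :: ps2, hext, hc3.le, hok3, Or.inl ⟨?_, hV3, hP3, Or.inl hW3⟩⟩
    have h1 := (any_tight hS hW hok3).2 hW3
    simp [step, endStep, hW2b, htop2b, hmove, h1]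
  have hW3b : W.any (F.tight p3) = false := by
    rw [← Bool.not_eq_true]
    exact fun h => hW3 ((any_tight hS hW hok3).1 h)
  have hW3t : ∀ j ∈ W, a j ⬝ᵥ pos p3 < b j := fun j hj =>
    lt_of_le_of_ne (hV3.1.2 j (List.mem_append_right _ hj)) fun h => hW3 ⟨j, hj, h⟩
  have hVK3 : Vtx a b E K (pos p3) := hV3.restrict fun j hj => (hW3t j hj).ne
  set K' := K.filter (fun j => F.lt E K i j) with hK'
  have hK'K : ∀ j ∈ K', j ∈ K := fun j hj => (List.mem_filter.1 hj).1
  have hstepD : Res F ok pos a b c N (p2 :: ps2) p2 ((2, E, K, W, i) :: s)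
      ((0, E, K', W, 0) :: s) (fun q => q = p3) 1 := by
    refine ⟨1, le_rfl, p3, p2 :: ps2, hext, hc3.le, hok3, Or.inl ⟨?_, rfl⟩⟩
    simp [step, endStep, hW2b, htop2b, hmove, hW3b, hK']
  refine hstepD.trans fun q3 qs3 _ _ _ g4 => ?_
  subst g4
  -- constraints outside `K'` are not tight above the level of `p3`
  have hlow : ∀ j ∈ K, j ∉ K' → ∀ z ∈ Q a b E K, a j ⬝ᵥ z = b j → c ⬝ᵥ z < c ⬝ᵥ pos q3 := by
    intro j hj hjK' z hz hjz
    have h1 : ¬ (F.lt E K i j = true) := fun h => hjK' (List.mem_filter.2 ⟨hj, h⟩)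
    rw [hS.lt E K i j hE hK hiK hj, not_lt] at h1
    have h2 : val a b c (i :: E) Ki = ((c ⬝ᵥ pos p2 : ℝ) : EReal) :=
      val_eq_of_top (Q_mono (fun _ h => h) (fun _ h => List.mem_append_left _ h) hV2.1) htopi
    rw [← hKi, h2] at h1
    have h3 : ((c ⬝ᵥ z : ℝ) : EReal) ≤
        val a b c (j :: E) (K.filter (fun l => decide (l ≠ j))) := by
      refine le_val ⟨fun l hl => ?_, fun l hl => hz.2 l (List.mem_filter.1 hl).1⟩
      rcases List.mem_cons.1 hl with rfl | hl
      · exact hjz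
      · exact hz.1 l hl
    have h4 := h3.trans h1
    rw [EReal.coe_le_coe_iff] at h4
    linarith
  have hpreD : Pre ok pos a b c N E K' W q3 := by
    refine ⟨hok3, hE, fun j hj => hK j (hK'K j hj), hW, ?_, hW3t, ?_⟩
    · refine hVK3.conv ⟨hVK3.1.1, fun j hj => hVK3.1.2 j (hK'K j hj)⟩
        (fun j hj => Or.inl hj) (fun j hj h => Or.inr ?_)
      by_contra hcon
      exact absurd (hlow j hj hcon _ hVK3.1 h) (lt_irrefl _)
    · intro x hx hle
      have hxK : x ∈ Q a b E K := region hVK3.1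
        (Q_mono (fun _ h => h) (fun _ h => List.mem_append_left _ h) hx) hle hlow
      refine hreg1 x ⟨hxK.1, fun j hj => ?_⟩ ((hc2.trans hc3.le).trans hle)
      rcases List.mem_append.1 hj with hj | hj
      · exact hxK.2 j hj
      · exact hx.2 j (List.mem_append_right _ hj)
  have hlenK' : K'.length ≤ k / 2 := by
    have h1 : isUp F E K i = true := by
      have := hiU
      rw [hU] at this
      exact (List.mem_filter.1 this).2
    rw [isUp, decide_eq_true_iff, ← hK'] at h1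
    omega
  have hD := ih (k / 2) (by omega) E K' W q3 qs3 s 0 hlenK' hpreD
  obtain ⟨m, hm, p', ps', e1, e2, e3, e4⟩ := hD
  refine ⟨m, hm, p', ps', e1, e2, e3, ?_⟩
  rcases e4 with ⟨e4, e5, e6, e7⟩ | e4
  · refine Or.inl ⟨e4, ?_, e6, ?_⟩
    · have hQK : pos p' ∈ Q a b E (K ++ W) := by
        refine ⟨e5.1.1, fun j hj => mem_PP_iff.1 e6 j ?_⟩
        rcases List.mem_append.1 hj with hj | hj
        · exact hK j hj
        · exact hW j hj
      refine e5.conv hQK (fun j hj => Or.inl hj) fun j hj _ => Or.inr ?_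
      rcases List.mem_append.1 hj with hj | hj
      · exact List.mem_append_left _ (hK'K j hj)
      · exact List.mem_append_right _ hj
    · rcases e7 with h | h
      · exact Or.inl h
      · exact Or.inr fun x hx => h x ⟨hx.1, fun j hj => hx.2 j (hK'K j hj)⟩
  · exact Or.inr e4

end Pool.Agent.W960
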